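import Pool.Agent.Lib.MP_6ff8d9_an_h22.Rows

/-!
# MP_6ff8d9, dimension 2: classification of the rational extreme points.  Definitions and rows

Points of `ℂ²` are `z : Fin 2 → ℂ`, homogeneous coordinates are `Z = hz z = (1, z 0, z 1)`.
-/

open Metric Filter Topology MvPolynomial Matrix
open scoped ComplexConjugate

namespace Pool.Agent.Lib.MP_6ff8d9_an.N2

open Pool.Agent.Lib.MP_6ff8d9_an Pool.Agent.Lib.MP_6ff8d9_an.H22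

noncomputable section

/-! ## Definitions -/

/-- `ρ = z·w` -/
def rho (w : Fin 2 → MvPolynomial (Fin 2) ℂ) : MvPolynomial (Fin 2) ℂ := X 0 * w 0 + X 1 * w 1

/-- the reflection -/
def psi (w : Fin 2 → MvPolynomial (Fin 2) ℂ) (z : Fin 2 → ℂ) : Fin 2 → ℂ :=
  fun j => conj (eval z (w j) / eval z (rho w))

/-- reduced self-dual pair -/
structure SD (w : Fin 2 → MvPolynomial (Fin 2) ℂ) : Prop where
  fin : {z : Fin 2 → ℂ | eval z (w 0) = 0 ∧ eval z (w 1) = 0}.Finite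
  inv : ∀ z : Fin 2 → ℂ, eval z (rho w) ≠ 0 → ∀ j,
    eval (psi w z) (w j) = conj (z j) * eval (psi w z) (rho w)
  gen : ∃ z : Fin 2 → ℂ, eval z (rho w) ≠ 0 ∧ eval (psi w z) (rho w) ≠ 0

/-- homogeneous coordinates -/
def hz (z : Fin 2 → ℂ) : Fin 3 → ℂ := ![1, z 0, z 1]

/-- affine coordinates -/
def pr (Z : Fin 3 → ℂ) : Fin 2 → ℂ := ![Z 1 / Z 0, Z 2 / Z 0]

/-- projective action of a matrix -/
def act (A : Matrix (Fin 3) (Fin 3) ℂ) (z : Fin 2 → ℂ) : Fin 2 → ℂ := pr (A *ᵥ hz z)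

/-- the vector field of `T` in affine coordinates -/
def vf (T : Matrix (Fin 3) (Fin 3) ℂ) (z : Fin 2 → ℂ) : Fin 2 → ℂ :=
  ![(T *ᵥ hz z) 1 - z 0 * (T *ᵥ hz z) 0, (T *ᵥ hz z) 2 - z 1 * (T *ᵥ hz z) 0]

/-- `w = (Z × TZ)_{1,2}`, i.e. `w = (-V_1, V_0)` with `V = vf T` -/
def OfT (w : Fin 2 → MvPolynomial (Fin 2) ℂ) (T : Matrix (Fin 3) (Fin 3) ℂ) : Prop :=
  ∀ z : Fin 2 → ℂ, eval z (w 0) = - vf T z 1 ∧ eval z (w 1) = vf T z 0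

/-- the Hermitian form `-|z₀|² + |z₁|² + |z₂|²` -/
def J3 : Matrix (Fin 3) (Fin 3) ℂ := Matrix.diagonal ![-1, 1, 1]

def herm (Z W : Fin 3 → ℂ) : ℂ := - (Z 0 * conj (W 0)) + Z 1 * conj (W 1) + Z 2 * conj (W 2)

/-- adjoint for `herm` -/
def dag (T : Matrix (Fin 3) (Fin 3) ℂ) : Matrix (Fin 3) (Fin 3) ℂ := J3 * Tᴴ * J3

/-- `T` has a cyclic vector -/
def Cyc (T : Matrix (Fin 3) (Fin 3) ℂ) : Prop :=
  ∃ Z : Fin 3 → ℂ, (Matrix.of ![Z, T *ᵥ Z, T *ᵥ (T *ᵥ Z)]).det ≠ 0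

/-- the group `exp(tT)` -/
def grp (T : Matrix (Fin 3) (Fin 3) ℂ) (t : ℂ) : Matrix (Fin 3) (Fin 3) ℂ :=
  NormedSpace.exp (t • T)

/-- `p/q` is invariant under `exp(tT)` for all complex `t` -/
def Inv3 (p q : MvPolynomial (Fin 3) ℂ) (T : Matrix (Fin 3) (Fin 3) ℂ) : Prop :=
  ∀ (Z : Fin 3 → ℂ) (t : ℂ),
    eval (grp T t *ᵥ Z) p * eval Z q = eval Z p * eval (grp T t *ᵥ Z) q

/-- the affine function of a homogeneous pair -/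
def f3 (p q : MvPolynomial (Fin 3) ℂ) (z : Fin 2 → ℂ) : ℂ := eval (hz z) p / eval (hz z) q

def hmat (τ b : ℝ) : Matrix (Fin 3) (Fin 3) ℂ := !![(τ : ℂ), -(b : ℂ), 0; (b : ℂ), (τ : ℂ), 0; 0, 0, 0]

def pmat (τ b : ℝ) : Matrix (Fin 3) (Fin 3) ℂ :=
  !![(τ : ℂ) + b, -(b : ℂ), 0; (b : ℂ), (τ : ℂ) - b, 0; 0, 0, 0]

def nmat (c : ℝ) : Matrix (Fin 3) (Fin 3) ℂ :=
  (Complex.I * (c : ℂ)) • !![(0 : ℂ), 0, 1; 0, 0, 1; 1, -1, 0]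

/-- `z₁ / √(1 + z₀²)` -/
def sq2 (z : Fin 2 → ℂ) : ℂ := z 1 / (1 + z 0 ^ 2) ^ (1 / 2 : ℂ)

/-- the second family: `(X-1)/(X+1)` with `X = (1+z₀)/(1-z₀) - (z₁/(1-z₀))²` -/
def fX (z : Fin 2 → ℂ) : ℂ :=
  (2 * z 0 * (1 - z 0) - z 1 ^ 2) / (2 * (1 - z 0) - z 1 ^ 2)

/-- the sharp constant for monomials -/
def Sharp (a b : ℕ) (c : ℂ) : Prop :=
  ‖c‖ ^ 2 * ((a : ℝ) ^ a * (b : ℝ) ^ b) = ((a : ℝ) + b) ^ (a + b)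

/-- mutually inverse holomorphic self-maps of the ball -/
structure BallAut (n : ℕ) (φ ψ : Cn n → Cn n) : Prop where
  dφ : DifferentiableOn ℂ φ (ball 0 1)
  dψ : DifferentiableOn ℂ ψ (ball 0 1)
  mφ : ∀ z ∈ ball (0 : Cn n) 1, φ z ∈ ball (0 : Cn n) 1
  mψ : ∀ z ∈ ball (0 : Cn n) 1, ψ z ∈ ball (0 : Cn n) 1
  left : ∀ z ∈ ball (0 : Cn n) 1, ψ (φ z) = z
  right : ∀ z ∈ ball (0 : Cn n) 1, φ (ψ z) = z

/-- normalisation: `(g - i Im g(0))/Re g(0)` for `g ∘ φ` -/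
def nrm {n : ℕ} (g : Cn n → ℂ) (φ : Cn n → Cn n) (z : Cn n) : ℂ :=
  (g (φ z) - Complex.I * (g (φ 0)).im) / (g (φ 0)).re

/-- the monomial extreme function -/
def gmon (a b : ℕ) (c : ℂ) (z : Cn 2) : ℂ :=
  (1 + c * z 0 ^ a * z 1 ^ b) / (1 - c * z 0 ^ a * z 1 ^ b)

/-- the second family -/
def gX (c : ℂ) (z : Cn 2) : ℂ := (1 + c * fX (fun i => z i)) / (1 - c * fX (fun i => z i))

/-! ## Rows -/

/-- C1: common factor out, finitely many common zeros left -/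
def COPR : Prop := ∀ A B : MvPolynomial (Fin 2) ℂ, (A ≠ 0 ∨ B ≠ 0) →
  ∃ G a b : MvPolynomial (Fin 2) ℂ, A = G * a ∧ B = G * b ∧
    {z : Fin 2 → ℂ | eval z a = 0 ∧ eval z b = 0}.Finite

/-- C2: reduction; `P, Q` have finitely many common zeros -/
def RED : Prop := ∀ P Q : MvPolynomial (Fin 2) ℂ,
  {z : Fin 2 → ℂ | eval z P = 0 ∧ eval z Q = 0}.Finite → Dual P Q →
  ∃ (G : MvPolynomial (Fin 2) ℂ) (w : Fin 2 → MvPolynomial (Fin 2) ℂ), G ≠ 0 ∧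
    (∀ j, Wr P Q j = G * w j) ∧ SD w

/-- C3: on every line `y·w` is affine -/
def KILL : Prop := ∀ w : Fin 2 → MvPolynomial (Fin 2) ℂ, SD w → ∀ x y : Fin 2 → ℂ,
  ∑ j, y j * (eval (x + (2 : ℂ) • y) (w j) - 2 * eval (x + y) (w j) + eval x (w j)) = 0

/-- C4: form of `w` -/
def FORM : Prop := ∀ w : Fin 2 → MvPolynomial (Fin 2) ℂ, (∀ x y : Fin 2 → ℂ,
    ∑ j, y j * (eval (x + (2 : ℂ) • y) (w j) - 2 * eval (x + y) (w j) + eval x (w j)) = 0) →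
  ∃ T : Matrix (Fin 3) (Fin 3) ℂ, T.trace = 0 ∧ OfT w T

/-- C5a: `T` is cyclic -/
def CYC : Prop := ∀ (w : Fin 2 → MvPolynomial (Fin 2) ℂ) (T : Matrix (Fin 3) (Fin 3) ℂ),
  SD w → OfT w T → Cyc T

/-- C5b: `det (Z, TZ, T†Z) = 0` -/
def DETZ : Prop := ∀ (w : Fin 2 → MvPolynomial (Fin 2) ℂ) (T : Matrix (Fin 3) (Fin 3) ℂ),
  SD w → OfT w T → ∀ Z : Fin 3 → ℂ, (Matrix.of ![Z, T *ᵥ Z, dag T *ᵥ Z]).det = 0

/-- C5c: linear algebra -/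
def LINL : Prop := ∀ T L : Matrix (Fin 3) (Fin 3) ℂ, Cyc T →
  (∀ Z : Fin 3 → ℂ, (Matrix.of ![Z, T *ᵥ Z, L *ᵥ Z]).det = 0) →
  ∃ lam mu : ℂ, L = lam • T + mu • (1 : Matrix (Fin 3) (Fin 3) ℂ)

/-- C6a: homogenisation -/
def HOMG : Prop := ∀ P Q : MvPolynomial (Fin 2) ℂ, ∃ (N : ℕ) (p q : MvPolynomial (Fin 3) ℂ),
  p.IsHomogeneous N ∧ q.IsHomogeneous N ∧
  ∀ z : Fin 2 → ℂ, eval (hz z) p = eval z P ∧ eval (hz z) q = eval z Q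

/-- C6b: the flow identity for all complex times -/
def HFL : Prop := ∀ (P Q : MvPolynomial (Fin 2) ℂ) (T : Matrix (Fin 3) (Fin 3) ℂ) (N : ℕ)
  (p q : MvPolynomial (Fin 3) ℂ), p.IsHomogeneous N → q.IsHomogeneous N →
  (∀ z : Fin 2 → ℂ, eval (hz z) p = eval z P ∧ eval (hz z) q = eval z Q) →
  (∀ z : Fin 2 → ℂ, eval z (Wr P Q 0) * vf T z 0 + eval z (Wr P Q 1) * vf T z 1 = 0) →
  Inv3 p q T

/-- C7a (case H): hyperbolic normal form -/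
def KH : Prop := ∀ (N : ℕ) (p q : MvPolynomial (Fin 3) ℂ) (τ b : ℝ), b ≠ 0 →
  p.IsHomogeneous N → q.IsHomogeneous N → (∀ z ∈ Bn 2, eval (hz z) q ≠ 0) →
  Inv3 p q (hmat τ b) →
  (∀ z ∈ Bn 2, f3 p q z = f3 p q 0) ∨
  ((∀ z ∈ Bn 2, f3 p q z = f3 p q ![0, sq2 z]) ∧
    ∀ w : ℂ, ‖w‖ < 1 → f3 p q ![0, -w] = f3 p q ![0, w])

/-- C7b (case P2): parabolic normal form, constant -/
def KP2 : Prop := ∀ (N : ℕ) (p q : MvPolynomial (Fin 3) ℂ) (τ b : ℝ), b ≠ 0 → τ ≠ 0 →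
  p.IsHomogeneous N → q.IsHomogeneous N → (∀ z ∈ Bn 2, eval (hz z) q ≠ 0) →
  Inv3 p q (pmat τ b) → ∀ z ∈ Bn 2, f3 p q z = f3 p q 0

/-- C7c (case P3): the parabolic normal form which gives the second family -/
def KP3 : Prop := ∀ (N : ℕ) (p q : MvPolynomial (Fin 3) ℂ) (c : ℝ), c ≠ 0 →
  p.IsHomogeneous N → q.IsHomogeneous N → (∀ z ∈ Bn 2, eval (hz z) q ≠ 0) →
  Inv3 p q (nmat c) → ∀ z ∈ Bn 2, f3 p q z = f3 p q ![fX z, 0]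

/-- C8a: a negative eigenvector -/
def NFE : Prop := ∀ T : Matrix (Fin 3) (Fin 3) ℂ, dag T = T → Cyc T →
  (∃ (v : Fin 3 → ℂ) (t : ℂ), T *ᵥ v = t • v ∧ (herm v v).re < 0) →
  ∃ (A : Matrix (Fin 3) (Fin 3) ℂ) (t : Fin 3 → ℝ), Aᴴ * J3 * A = J3 ∧
    T * A = A * Matrix.diagonal (fun i => (t i : ℂ)) ∧ Function.Injective t

/-- C8b: no negative eigenvector, but a positive one -/
def NFB : Prop := ∀ T : Matrix (Fin 3) (Fin 3) ℂ, dag T = T → Cyc T →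
  (∀ (v : Fin 3 → ℂ) (t : ℂ), T *ᵥ v = t • v → 0 ≤ (herm v v).re) →
  (∃ (v : Fin 3 → ℂ) (t : ℂ), T *ᵥ v = t • v ∧ 0 < (herm v v).re) →
  ∃ (A : Matrix (Fin 3) (Fin 3) ℂ) (μ τ b : ℝ), Aᴴ * J3 * A = J3 ∧ b ≠ 0 ∧
    (T * A = A * ((μ : ℂ) • (1 : Matrix (Fin 3) (Fin 3) ℂ) + hmat τ b) ∨
      (τ ≠ 0 ∧ T * A = A * ((μ : ℂ) • (1 : Matrix (Fin 3) (Fin 3) ℂ) + pmat τ b)))

/-- C8c: all eigenvectors are null -/
def NFN : Prop := ∀ T : Matrix (Fin 3) (Fin 3) ℂ, dag T = T → Cyc T →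
  (∀ (v : Fin 3 → ℂ) (t : ℂ), T *ᵥ v = t • v → (herm v v).re = 0) →
  ∃ (A : Matrix (Fin 3) (Fin 3) ℂ) (μ c : ℝ), Aᴴ * J3 * A = J3 ∧ c ≠ 0 ∧
    T * A = A * ((μ : ℂ) • (1 : Matrix (Fin 3) (Fin 3) ℂ) + nmat c)

/-- C9: `U(2,1)` acts on the ball -/
def PROJ : Prop := ∀ A : Matrix (Fin 3) (Fin 3) ℂ, Aᴴ * J3 * A = J3 →
  (∀ z ∈ Bn 2, (A *ᵥ hz z) 0 ≠ 0 ∧ act A z ∈ Bn 2 ∧ act A⁻¹ (act A z) = z ∧
    act A (act A⁻¹ z) = z ∧ act A⁻¹ z ∈ Bn 2 ∧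
    ∀ C : Matrix (Fin 3) (Fin 3) ℂ, act C (act A z) = act (C * A) z) ∧
  BallAut 2 (fun z => WithLp.toLp 2 (act A (fun i => z i)))
    (fun z => WithLp.toLp 2 (act A⁻¹ (fun i => z i)))

/-- C10: functions invariant under a torus flow -/
def TOR : Prop := ∀ (F : (Fin 2 → ℂ) → ℂ) (α β : ℝ), DifferentiableOn ℂ F (Bn 2) →
  (∀ z ∈ Bn 2, ‖F z‖ < 1) → α ≠ 0 → β ≠ 0 →
  (∀ z ∈ Bn 2, ∀ s : ℝ, F ![Complex.exp (s * α * Complex.I) * z 0,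
    Complex.exp (s * β * Complex.I) * z 1] = F z) →
  (∃ z ∈ Bn 2, F z ≠ F 0) →
  ∃ a b : ℕ, 1 ≤ a ∧ 1 ≤ b ∧ a.Coprime b ∧ ∀ c : ℂ, Sharp a b c →
    ∃ h : ℂ → ℂ, DifferentiableOn ℂ h (ball 0 1) ∧ (∀ w ∈ ball (0 : ℂ) 1, ‖h w‖ < 1) ∧
      ∀ z ∈ Bn 2, F z = h (c * z 0 ^ a * z 1 ^ b)

/-- C10b: the sharp monomial is less than one on the ball -/
def MAXM : Prop := ∀ (a b : ℕ) (c : ℂ), 1 ≤ a → 1 ≤ b → Sharp a b c → ∀ z ∈ Bn 2,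
  ‖c * z 0 ^ a * z 1 ^ b‖ < 1

/-- C11: automorphism invariance -/
def AUT : Prop := ∀ (n : ℕ) (g : Cn n → ℂ) (φ ψ : Cn n → Cn n), BallAut n φ ψ →
  IsExtremePoint n g → IsExtremePoint n (nrm g φ)

/-- C12: monomials are extreme -/
def MONO : Prop := ∀ (a b : ℕ) (c : ℂ), 1 ≤ a → 1 ≤ b → a.Coprime b → Sharp a b c →
  IsExtremePoint 2 (gmon a b c)

/-- C13: the second family is extreme -/
def XEXT : Prop := ∀ c : ℂ, ‖c‖ = 1 → IsExtremePoint 2 (gX c)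

/-- the complete list -/
def ListTwo (G : Cn 2 → ℂ) : Prop :=
  (∃ (a b : ℕ) (c : ℂ), 1 ≤ a ∧ 1 ≤ b ∧ a.Coprime b ∧ Sharp a b c ∧ G = gmon a b c) ∨
    ∃ c : ℂ, ‖c‖ = 1 ∧ G = gX c

/-- the final theorem: all rational extreme points of `N(𝔹₂)` -/
def FINALTWO : Prop := ∀ p q : MvPolynomial (Fin 2) ℂ,
  IsExtremePoint 2 (fun z => eval (fun i => z i) p / eval (fun i => z i) q) ↔
    ∃ (G : Cn 2 → ℂ) (φ ψ : Cn 2 → Cn 2), ListTwo G ∧ BallAut 2 φ ψ ∧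
      ∀ z ∈ ball (0 : Cn 2) 1,
        eval (fun i => z i) p / eval (fun i => z i) q = nrm G φ z

end

end Pool.Agent.Lib.MP_6ff8d9_an.N2
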