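import Pool.Agent.Lib.MP_6ff8d9_an_h23.Refl

/-!
# Row PROJ: `U(2,1)` acts on the ball
-/

open Metric Filter Topology MvPolynomial Matrix
open scoped ComplexConjugate

namespace Pool.Agent.Lib.MP_6ff8d9_an.N2

open Pool.Agent.Lib.MP_6ff8d9_an Pool.Agent.Lib.MP_6ff8d9_an.H22

noncomputable section

lemma mem_Bn2 {z : Fin 2 → ℂ} : z ∈ Bn 2 ↔ ‖z 0‖ ^ 2 + ‖z 1‖ ^ 2 < 1 := by
  simp [Bn, Fin.sum_univ_two]

lemma ball_iff {z : Cn 2} : z ∈ ball (0 : Cn 2) 1 ↔ (fun i => z i) ∈ Bn 2 := by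
  rw [mem_ball_zero_iff, EuclideanSpace.norm_eq, Real.sqrt_lt' one_pos, one_pow]
  rfl

lemma hz_pr {Y : Fin 3 → ℂ} (hY : Y 0 ≠ 0) : hz (pr Y) = (Y 0)⁻¹ • Y := by
  funext i
  fin_cases i
  · simp [hz, inv_mul_cancel₀ hY]
  · simp [hz, pr]
    field_simp
  · simp [hz, pr]
    field_simp

lemma pr_smul {c : ℂ} (hc : c ≠ 0) (Y : Fin 3 → ℂ) : pr (c • Y) = pr Y := by
  funext i
  fin_cases i <;> simp [pr, mul_div_mul_left _ _ hc]

lemma pr_hz (z : Fin 2 → ℂ) : pr (hz z) = z := by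
  funext i
  fin_cases i <;> simp [hz, pr]

lemma herm_hz (z : Fin 2 → ℂ) : herm (hz z) (hz z) = ((-1 + ‖z 0‖ ^ 2 + ‖z 1‖ ^ 2 : ℝ) : ℂ) := by
  rw [herm_self]
  simp [hz]

lemma neg_of_herm {Y : Fin 3 → ℂ} (h : (herm Y Y).re < 0) : Y 0 ≠ 0 ∧ pr Y ∈ Bn 2 := by
  rw [herm_self, Complex.ofReal_re] at h
  have h0 : Y 0 ≠ 0 := by
    intro h0
    rw [h0] at h
    simp at h
    nlinarith [sq_nonneg ‖Y 1‖, sq_nonneg ‖Y 2‖]
  refine ⟨h0, ?_⟩
  rw [mem_Bn2]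
  have hp : 0 < ‖Y 0‖ ^ 2 := by
    have := norm_pos_iff.2 h0
    positivity
  show ‖Y 1 / Y 0‖ ^ 2 + ‖Y 2 / Y 0‖ ^ 2 < 1
  rw [norm_div, norm_div, div_pow, div_pow, ← add_div, div_lt_one hp]
  linarith

lemma herm_neg_of_mem {z : Fin 2 → ℂ} (hz' : z ∈ Bn 2) : (herm (hz z) (hz z)).re < 0 := by
  rw [herm_hz, Complex.ofReal_re]
  rw [mem_Bn2] at hz'
  linarith

lemma JU.act_mem {A : Matrix (Fin 3) (Fin 3) ℂ} (hA : JU A) {z : Fin 2 → ℂ} (hz' : z ∈ Bn 2) :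
    (A *ᵥ hz z) 0 ≠ 0 ∧ act A z ∈ Bn 2 := by
  apply neg_of_herm
  rw [hA.herm]
  exact herm_neg_of_mem hz'

lemma act_comp (C A : Matrix (Fin 3) (Fin 3) ℂ) {z : Fin 2 → ℂ} (h : (A *ᵥ hz z) 0 ≠ 0) :
    act C (act A z) = act (C * A) z := by
  unfold act
  rw [hz_pr h, Matrix.mulVec_smul, pr_smul (inv_ne_zero h), Matrix.mulVec_mulVec]

lemma act_one (z : Fin 2 → ℂ) : act 1 z = z := by
  rw [act, Matrix.one_mulVec, pr_hz]

lemma act_diff {A : Matrix (Fin 3) (Fin 3) ℂ} (hA : JU A) :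
    DifferentiableOn ℂ (fun z : Cn 2 => (WithLp.toLp 2 (act A (fun i => z i)) : Cn 2))
      (ball 0 1) := by
  have h1 : ∀ k : Fin 3, Differentiable ℂ (fun z : Cn 2 => (A *ᵥ hz (fun i => z i)) k) := by
    intro k
    have c0 : Differentiable ℂ (fun z : Cn 2 => z 0) :=
      (EuclideanSpace.proj (𝕜 := ℂ) (ι := Fin 2) (0 : Fin 2)).differentiable
    have c1 : Differentiable ℂ (fun z : Cn 2 => z 1) :=
      (EuclideanSpace.proj (𝕜 := ℂ) (ι := Fin 2) (1 : Fin 2)).differentiable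
    have e : (fun z : Cn 2 => (A *ᵥ hz (fun i => z i)) k) =
        fun z : Cn 2 => A k 0 + A k 1 * z 0 + A k 2 * z 1 := by
      funext z
      simp [Matrix.mulVec, dotProduct, Fin.sum_univ_three, hz]
    rw [e]
    fun_prop
  have h2 : DifferentiableOn ℂ (fun z : Cn 2 => act A (fun i => z i)) (ball 0 1) := by
    rw [differentiableOn_pi]
    intro j
    have h3 : ∀ z ∈ ball (0 : Cn 2) 1, (A *ᵥ hz (fun i => z i)) 0 ≠ 0 := fun z hz' =>
      (hA.act_mem (ball_iff.1 hz')).1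
    have h4 : ∀ k : Fin 3, DifferentiableOn ℂ (fun z : Cn 2 =>
        (A *ᵥ hz (fun i => z i)) k * ((A *ᵥ hz (fun i => z i)) 0)⁻¹) (ball 0 1) := by
      intro k z hz'
      have h5 : DifferentiableAt ℂ (fun z : Cn 2 => ((A *ᵥ hz (fun i => z i)) 0)⁻¹) z :=
        (hasFDerivAt_inv (h3 z hz')).differentiableAt.comp z (h1 0 z)
      exact ((h1 k z).fun_mul h5).differentiableWithinAt
    fin_cases j
    · refine (h4 1).congr fun z _ => ?_
      simp [act, pr, div_eq_mul_inv]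
    · refine (h4 2).congr fun z _ => ?_
      simp [act, pr, div_eq_mul_inv]
  exact (EuclideanSpace.equiv (Fin 2) ℂ).symm.differentiable.comp_differentiableOn h2

theorem proj : PROJ := by
  intro A hA'
  have hA : JU A := hA'
  have hc1 : ∀ z ∈ Bn 2, act A⁻¹ (act A z) = z := by
    intro z hz'
    rw [act_comp _ _ (hA.act_mem hz').1, hA.inv_mul, act_one]
  have hc2 : ∀ z ∈ Bn 2, act A (act A⁻¹ z) = z := by
    intro z hz'
    rw [act_comp _ _ (hA.inv.act_mem hz').1, hA.mul_inv, act_one]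
  refine ⟨fun z hz' => ⟨(hA.act_mem hz').1, (hA.act_mem hz').2, hc1 z hz', hc2 z hz',
    (hA.inv.act_mem hz').2, fun C => act_comp C A (hA.act_mem hz').1⟩, ?_⟩
  refine ⟨act_diff hA, act_diff hA.inv, ?_, ?_, ?_, ?_⟩
  · intro z hz'
    exact ball_iff.2 (hA.act_mem (ball_iff.1 hz')).2
  · intro z hz'
    exact ball_iff.2 (hA.inv.act_mem (ball_iff.1 hz')).2
  · intro z hz'
    have := hc1 _ (ball_iff.1 hz')
    show WithLp.toLp 2 (act A⁻¹ (act A fun i => z i)) = z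
    rw [this]
  · intro z hz'
    have := hc2 _ (ball_iff.1 hz')
    show WithLp.toLp 2 (act A (act A⁻¹ fun i => z i)) = z
    rw [this]

end

end Pool.Agent.Lib.MP_6ff8d9_an.N2
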