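import Pool.Agent.Lib.MP_6ff8d9_an_h23.N2Rows

/-!
# Rows HOMG and HFL
-/

open Metric Filter Topology MvPolynomial Matrix
open scoped ComplexConjugate

namespace Pool.Agent.Lib.MP_6ff8d9_an.N2

open Pool.Agent.Lib.MP_6ff8d9_an Pool.Agent.Lib.MP_6ff8d9_an.H22

noncomputable section

/-! ## HOMG -/

/-- homogenisation -/
def hmg (N : ℕ) (P : MvPolynomial (Fin 2) ℂ) : MvPolynomial (Fin 3) ℂ :=
  ∑ m ∈ P.support, C (coeff m P) * (X 0 ^ (N - (m 0 + m 1)) * (X 1 ^ (m 0) * X 2 ^ (m 1)))

lemma hmg_hom {N : ℕ} {P : MvPolynomial (Fin 2) ℂ} (h : P.totalDegree ≤ N) :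
    (hmg N P).IsHomogeneous N := by
  unfold hmg
  refine IsHomogeneous.sum _ _ _ fun m hm => ?_
  have h1 : m 0 + m 1 ≤ N := by
    have h2 := le_totalDegree hm
    rw [Finsupp.sum_fintype _ _ (fun _ => rfl), Fin.sum_univ_two] at h2
    omega
  have h3 := (isHomogeneous_C (Fin 3) (coeff m P)).mul
    (((isHomogeneous_X ℂ (0 : Fin 3)).pow (N - (m 0 + m 1))).mul
      (((isHomogeneous_X ℂ (1 : Fin 3)).pow (m 0)).mul ((isHomogeneous_X ℂ (2 : Fin 3)).pow (m 1))))
  have h4 : 0 + (1 * (N - (m 0 + m 1)) + (1 * m 0 + 1 * m 1)) = N := by omega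
  rwa [h4] at h3

lemma hmg_eval (N : ℕ) (P : MvPolynomial (Fin 2) ℂ) (z : Fin 2 → ℂ) :
    eval (hz z) (hmg N P) = eval z P := by
  rw [hmg, map_sum, eval_eq']
  refine Finset.sum_congr rfl fun m _ => ?_
  simp [hz, Fin.prod_univ_two]

theorem homg : HOMG := by
  intro P Q
  refine ⟨max P.totalDegree Q.totalDegree, hmg _ P, hmg _ Q, hmg_hom (le_max_left _ _),
    hmg_hom (le_max_right _ _), fun z => ⟨hmg_eval _ _ _, hmg_eval _ _ _⟩⟩

/-! ## HFL -/

/-- chain rule for polynomials -/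
lemma hasDerivAt_evalc {n : ℕ} (p : MvPolynomial (Fin n) ℂ) (c : ℂ → Fin n → ℂ) (c' : Fin n → ℂ)
    (t : ℂ) (hc : ∀ i, HasDerivAt (fun s => c s i) (c' i) t) :
    HasDerivAt (fun s => eval (c s) p) (∑ i, eval (c t) (pderiv i p) * c' i) t := by
  induction p using MvPolynomial.induction_on with
  | C a =>
    simp only [eval_C, pderiv_C, map_zero, zero_mul, Finset.sum_const_zero]
    exact hasDerivAt_const t a
  | add p q hp hq =>
    simp only [map_add, add_mul, Finset.sum_add_distrib]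
    exact hp.add hq
  | mul_X p i hp =>
    have h1 := hp.fun_mul (hc i)
    have e : ∑ j, eval (c t) (pderiv j (p * X i)) * c' j =
        (∑ j, eval (c t) (pderiv j p) * c' j) * c t i + eval (c t) p * c' i := by
      simp only [Derivation.leibniz, smul_eq_mul, map_add, map_mul, eval_X, add_mul,
        Finset.sum_add_distrib]
      rw [add_comm]
      congr 1
      · rw [Finset.sum_mul]
        refine Finset.sum_congr rfl fun j _ => ?_
        ring
      · rw [Finset.sum_eq_single i]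
        · simp [pderiv_X_self]
        · intro j _ hj
          rw [pderiv_X_of_ne hj.symm]
          simp
        · intro h
          exact absurd (Finset.mem_univ i) h
    rw [e]
    simp only [map_mul, eval_X]
    exact h1

/-- derivative along the linear field -/
def DT (T : Matrix (Fin 3) (Fin 3) ℂ) (p : MvPolynomial (Fin 3) ℂ) (Z : Fin 3 → ℂ) : ℂ :=
  ∑ i, eval Z (pderiv i p) * (T *ᵥ Z) i

lemma eval_smul_hom {N : ℕ} {p : MvPolynomial (Fin 3) ℂ} (hp : p.IsHomogeneous N) (c : ℂ)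
    (Z : Fin 3 → ℂ) : eval (c • Z) p = c ^ N * eval Z p := by
  rw [eval_eq', eval_eq', Finset.mul_sum]
  refine Finset.sum_congr rfl fun m hm => ?_
  have h1 : ∑ i, m i = N := by
    have := hp (mem_support_iff.1 hm)
    rw [← this]
    simp [Finsupp.weight_apply, Finsupp.sum_fintype]
  simp only [Pi.smul_apply, smul_eq_mul, mul_pow, Finset.prod_mul_distrib]
  rw [Finset.prod_pow_eq_pow_sum, h1]
  ring

lemma DT_smul {N : ℕ} {p : MvPolynomial (Fin 3) ℂ} (hp : p.IsHomogeneous N)
    (T : Matrix (Fin 3) (Fin 3) ℂ) (c : ℂ) (Z : Fin 3 → ℂ) :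
    DT T p (c • Z) = c ^ N * DT T p Z := by
  have h1 : HasDerivAt (fun s : ℂ => eval (c • (Z + s • (T *ᵥ Z))) p)
      (∑ i, eval (c • (Z + (0 : ℂ) • (T *ᵥ Z))) (pderiv i p) * (c * (T *ᵥ Z) i)) 0 := by
    refine hasDerivAt_evalc p (fun s => c • (Z + s • (T *ᵥ Z))) (fun i => c * (T *ᵥ Z) i) 0 ?_
    intro i
    have := (((hasDerivAt_id (0 : ℂ)).mul_const ((T *ᵥ Z) i)).const_add (Z i)).const_mul c
    simpa using this
  have h2 : HasDerivAt (fun s : ℂ => c ^ N * eval (Z + s • (T *ᵥ Z)) p)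
      (c ^ N * ∑ i, eval (Z + (0 : ℂ) • (T *ᵥ Z)) (pderiv i p) * (T *ᵥ Z) i) 0 := by
    refine (hasDerivAt_evalc p (fun s => Z + s • (T *ᵥ Z)) (fun i => (T *ᵥ Z) i) 0 ?_).const_mul _
    intro i
    have := ((hasDerivAt_id (0 : ℂ)).mul_const ((T *ᵥ Z) i)).const_add (Z i)
    simpa using this
  have h3 : (fun s : ℂ => eval (c • (Z + s • (T *ᵥ Z))) p) =
      fun s : ℂ => c ^ N * eval (Z + s • (T *ᵥ Z)) p := by
    funext s
    exact eval_smul_hom hp c _
  rw [h3] at h1
  have h4 := h1.unique h2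
  rw [zero_smul, add_zero] at h4
  unfold DT
  rw [← h4]
  refine Finset.sum_congr rfl fun i _ => ?_
  rw [Matrix.mulVec_smul]
  rfl

/-- Euler at `Z = (1,z)` -/
lemma DT_hz {N : ℕ} {p : MvPolynomial (Fin 3) ℂ} (hp : p.IsHomogeneous N)
    {P : MvPolynomial (Fin 2) ℂ} (hpP : ∀ z : Fin 2 → ℂ, eval (hz z) p = eval z P)
    (T : Matrix (Fin 3) (Fin 3) ℂ) (z : Fin 2 → ℂ) :
    DT T p (hz z) = N * (T *ᵥ hz z) 0 * eval z P + eval z (pderiv 0 P) * vf T z 0 +
      eval z (pderiv 1 P) * vf T z 1 := by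
  have hE := congrArg (eval (hz z)) hp.sum_X_mul_pderiv
  simp only [map_sum, map_mul, eval_X, Fin.sum_univ_three, map_nsmul, nsmul_eq_mul, map_add,
    map_natCast] at hE
  have hj : ∀ j : Fin 2, eval (hz z) (pderiv j.succ p) = eval z (pderiv j P) := by
    intro j
    have h1 : HasDerivAt (fun s : ℂ => eval (hz (z + s • Pi.single j 1)) p)
        (∑ i, eval (hz (z + (0 : ℂ) • Pi.single j 1)) (pderiv i p) *
          (Pi.single j.succ 1 : Fin 3 → ℂ) i) 0 := by
      refine hasDerivAt_evalc p (fun s => hz (z + s • Pi.single j 1)) _ 0 ?_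
      intro i
      refine Fin.cases ?_ (fun l => ?_) i
      · have e1 : (fun s : ℂ => hz (z + s • Pi.single j 1) 0) = fun _ => (1 : ℂ) := by
          funext s; rfl
        rw [e1, Pi.single_eq_of_ne (Fin.succ_ne_zero j).symm]
        exact hasDerivAt_const _ _
      · have e1 : (fun s : ℂ => hz (z + s • Pi.single j 1) l.succ) =
            fun s : ℂ => z l + s * (Pi.single j 1 : Fin 2 → ℂ) l := by
          funext s
          fin_cases l <;> simp [hz]
        have e2 : (Pi.single j.succ 1 : Fin 3 → ℂ) l.succ = (Pi.single j 1 : Fin 2 → ℂ) l := by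
          by_cases hl : l = j
          · rw [hl]; simp
          · rw [Pi.single_eq_of_ne hl, Pi.single_eq_of_ne (by simpa using hl)]
        rw [e1, e2]
        have := ((hasDerivAt_id (0 : ℂ)).mul_const ((Pi.single j 1 : Fin 2 → ℂ) l)).const_add (z l)
        simpa using this
    have h2 : HasDerivAt (fun s : ℂ => eval (z + s • Pi.single j 1) P)
        (∑ i, eval (z + (0 : ℂ) • Pi.single j 1) (pderiv i P) *
          (Pi.single j 1 : Fin 2 → ℂ) i) 0 := by
      refine hasDerivAt_evalc P (fun s => z + s • Pi.single j 1) _ 0 ?_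
      intro l
      have := ((hasDerivAt_id (0 : ℂ)).mul_const ((Pi.single j 1 : Fin 2 → ℂ) l)).const_add (z l)
      simpa using this
    have h3 : (fun s : ℂ => eval (hz (z + s • Pi.single j 1)) p) =
        fun s : ℂ => eval (z + s • Pi.single j 1) P := by
      funext s
      exact hpP _
    rw [h3] at h1
    have h4 := h1.unique h2
    rw [zero_smul, add_zero] at h4
    rw [Finset.sum_eq_single j.succ, Finset.sum_eq_single j] at h4
    · simpa using h4
    · intro b _ hb
      rw [Pi.single_eq_of_ne hb, mul_zero]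
    · intro h
      exact absurd (Finset.mem_univ _) h
    · intro b _ hb
      rw [Pi.single_eq_of_ne hb, mul_zero]
    · intro h
      exact absurd (Finset.mem_univ _) h
  have h0 := hj 0
  have h1 := hj 1
  simp only [Fin.succ_zero_eq_one, Fin.succ_one_eq_two] at h0 h1
  rw [h0, h1, hpP] at hE
  unfold DT
  rw [Fin.sum_univ_three, h0, h1]
  have z0 : hz z 0 = 1 := rfl
  have z1 : hz z 1 = z 0 := rfl
  have z2 : hz z 2 = z 1 := rfl
  rw [z0, z1, z2] at hE
  have v0 : vf T z 0 = (T *ᵥ hz z) 1 - z 0 * (T *ᵥ hz z) 0 := rfl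
  have v1 : vf T z 1 = (T *ᵥ hz z) 2 - z 1 * (T *ᵥ hz z) 0 := rfl
  rw [v0, v1]
  linear_combination (T *ᵥ hz z) 0 * hE

/-- the flow of `T` -/
lemma grp_deriv (T : Matrix (Fin 3) (Fin 3) ℂ) (Z : Fin 3 → ℂ) (t : ℂ) (i : Fin 3) :
    HasDerivAt (fun s => (grp T s *ᵥ Z) i) ((T *ᵥ (grp T t *ᵥ Z)) i) t := by
  letI : NormedRing (Matrix (Fin 3) (Fin 3) ℂ) := Matrix.linftyOpNormedRing
  letI : NormedAlgebra ℂ (Matrix (Fin 3) (Fin 3) ℂ) := Matrix.linftyOpNormedAlgebra
  have h1 : HasDerivAt (fun s : ℂ => NormedSpace.exp (s • T)) (T * NormedSpace.exp (t • T)) t :=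
    hasDerivAt_exp_smul_const' T t
  set L : Matrix (Fin 3) (Fin 3) ℂ →ₗ[ℂ] ℂ :=
    { toFun := fun A => (A *ᵥ Z) i
      map_add' := fun A B => by rw [Matrix.add_mulVec]; rfl
      map_smul' := fun c A => by rw [Matrix.smul_mulVec]; rfl } with hL
  have h2 := (LinearMap.toContinuousLinearMap L).hasFDerivAt.comp_hasDerivAt t h1
  refine h2.congr_deriv ?_
  show ((T * NormedSpace.exp (t • T)) *ᵥ Z) i = _
  rw [← Matrix.mulVec_mulVec]
  rfl

lemma grp_zero (T : Matrix (Fin 3) (Fin 3) ℂ) : grp T 0 = 1 := by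
  rw [grp, zero_smul, NormedSpace.exp_zero]

lemma wronsk {a b a' b' : ℂ → ℂ} (ha : ∀ t, HasDerivAt a (a' t) t) (hb : ∀ t, HasDerivAt b (b' t) t)
    (h : ∀ t, a' t * b t = a t * b' t) (hb0 : b 0 ≠ 0) (t : ℂ) : a t * b 0 = a 0 * b t := by
  have hda : Differentiable ℂ a := fun t => (ha t).differentiableAt
  have hdb : Differentiable ℂ b := fun t => (hb t).differentiableAt
  obtain ⟨r, hr, hball⟩ : ∃ r > 0, ∀ s ∈ ball (0 : ℂ) r, b s ≠ 0 := by
    have := hdb.continuous.continuousAt.eventually_ne hb0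
    exact Metric.eventually_nhds_iff_ball.1 this
  have hq : ∀ s ∈ ball (0 : ℂ) r, HasDerivAt (fun s => a s / b s) 0 s := by
    intro s hs
    have := (ha s).div (hb s) (hball s hs)
    have e : (a' s * b s - a s * b' s) / b s ^ 2 = 0 := by rw [h s]; ring
    rwa [e] at this
  have hconst : ∀ s ∈ ball (0 : ℂ) r, a s / b s = a 0 / b 0 := by
    intro s hs
    refine isOpen_ball.is_const_of_deriv_eq_zero (convex_ball (0 : ℂ) r).isPreconnected
      (fun s hs => (hq s hs).differentiableAt.differentiableWithinAt) ?_ hs (mem_ball_self hr)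
    intro s hs
    exact (hq s hs).deriv
  have hev : (fun s => a s * b 0) =ᶠ[𝓝 0] fun s => a 0 * b s := by
    filter_upwards [ball_mem_nhds (0 : ℂ) hr] with s hs
    have := hconst s hs
    rwa [div_eq_div_iff (hball s hs) hb0] at this
  have h1 : AnalyticOnNhd ℂ (fun s => a s * b 0) Set.univ :=
    ((hda.mul_const _).differentiableOn).analyticOnNhd isOpen_univ
  have h2 : AnalyticOnNhd ℂ (fun s => a 0 * b s) Set.univ :=
    ((hdb.const_mul _).differentiableOn).analyticOnNhd isOpen_univ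
  exact h1.eqOn_of_preconnected_of_eventuallyEq h2 isPreconnected_univ (Set.mem_univ 0) hev
    (Set.mem_univ t)

theorem hfl : HFL := by
  intro P Q T N p q hp hq hpq hW Z t
  -- the polynomial identity
  have e1 : ∀ z : Fin 2 → ℂ, DT T p (hz z) * eval (hz z) q = eval (hz z) p * DT T q (hz z) := by
    intro z
    rw [DT_hz hp (fun z => (hpq z).1), DT_hz hq (fun z => (hpq z).2), (hpq z).1, (hpq z).2]
    have h := hW z
    simp only [Wr, map_sub, map_mul] at h
    linear_combination h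
  have e2 : ∀ Y : Fin 3 → ℂ, Y 0 ≠ 0 → DT T p Y * eval Y q = eval Y p * DT T q Y := by
    intro Y hY
    have hYz : Y = Y 0 • hz (pr Y) := by
      funext i
      fin_cases i
      · simp [hz]
      · simp [hz, pr]
        field_simp
      · simp [hz, pr]
        field_simp
    rw [hYz, DT_smul hp, DT_smul hq, eval_smul_hom hp, eval_smul_hom hq]
    linear_combination (Y 0) ^ N * (Y 0) ^ N * e1 (pr Y)
  have hcD : ∀ p : MvPolynomial (Fin 3) ℂ, Continuous (fun Y : Fin 3 → ℂ => DT T p Y) := by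
    intro p
    unfold DT
    refine continuous_finset_sum _ fun i _ => ?_
    refine (MvPolynomial.continuous_eval _).mul ?_
    exact (continuous_apply i).comp (Continuous.matrix_mulVec continuous_const continuous_id)
  have e3 : ∀ Y : Fin 3 → ℂ, DT T p Y * eval Y q = eval Y p * DT T q Y := by
    intro Y
    have hc1 : Continuous (fun Y : Fin 3 → ℂ => DT T p Y * eval Y q - eval Y p * DT T q Y) :=
      ((hcD p).mul (MvPolynomial.continuous_eval q)).sub
        ((MvPolynomial.continuous_eval p).mul (hcD q))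
    have hc2 : Continuous (fun s : ℝ => Y + ((s : ℝ) : ℂ) • (Pi.single 0 1 : Fin 3 → ℂ)) := by
      fun_prop
    have hlim : Tendsto (fun s : ℝ => (fun Y : Fin 3 → ℂ => DT T p Y * eval Y q -
        eval Y p * DT T q Y) (Y + ((s : ℝ) : ℂ) • (Pi.single 0 1 : Fin 3 → ℂ))) (𝓝[≠] 0)
        (𝓝 (DT T p Y * eval Y q - eval Y p * DT T q Y)) := by
      have h1 := ((hc1.comp hc2).tendsto 0).mono_left (nhdsWithin_le_nhds (s := {0}ᶜ))
      have e0 : Y + (((0 : ℝ) : ℝ) : ℂ) • (Pi.single 0 1 : Fin 3 → ℂ) = Y := by simp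
      simp only [Function.comp_apply, e0] at h1
      exact h1
    have hev : ∀ᶠ s : ℝ in 𝓝[≠] 0, (fun Y : Fin 3 → ℂ => DT T p Y * eval Y q -
        eval Y p * DT T q Y) (Y + ((s : ℝ) : ℂ) • (Pi.single 0 1 : Fin 3 → ℂ)) = 0 := by
      by_cases hY : Y 0 = 0
      · filter_upwards [self_mem_nhdsWithin] with s hs
        refine sub_eq_zero.2 (e2 _ ?_)
        have hs' : (s : ℂ) ≠ 0 := by
          have : s ≠ 0 := hs
          exact_mod_cast this
        simpa [hY] using hs'
      · have hc3 : Tendsto (fun s : ℝ => (Y + ((s : ℝ) : ℂ) • (Pi.single 0 1 : Fin 3 → ℂ)) 0)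
            (𝓝[≠] 0) (𝓝 (Y 0)) := by
          have h1 := (((continuous_apply (0 : Fin 3)).comp hc2).tendsto 0).mono_left
            (nhdsWithin_le_nhds (s := {0}ᶜ))
          have e0 : Y + (((0 : ℝ) : ℝ) : ℂ) • (Pi.single 0 1 : Fin 3 → ℂ) = Y := by simp
          simp only [Function.comp_apply, e0] at h1
          exact h1
        filter_upwards [hc3.eventually_ne hY] with s hs
        exact sub_eq_zero.2 (e2 _ hs)
    have := tendsto_nhds_unique (hlim.congr' hev) tendsto_const_nhds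
    exact sub_eq_zero.1 this
  -- the flow
  have hder : ∀ (p : MvPolynomial (Fin 3) ℂ) (s : ℂ),
      HasDerivAt (fun s => eval (grp T s *ᵥ Z) p) (DT T p (grp T s *ᵥ Z)) s := by
    intro p s
    exact hasDerivAt_evalc p (fun s => grp T s *ᵥ Z) _ s (fun i => grp_deriv T Z s i)
  have hz0 : grp T 0 *ᵥ Z = Z := by rw [grp_zero, Matrix.one_mulVec]
  by_cases hq0 : eval Z q = 0
  · by_cases hp0 : eval Z p = 0
    · rw [hq0, hp0]; ring
    · have := wronsk (hder q) (hder p) (fun s => by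
        have := e3 (grp T s *ᵥ Z)
        linear_combination -this) (by rw [hz0]; exact hp0) t
      simp only [hz0] at this
      linear_combination -this
  · have := wronsk (hder p) (hder q) (fun s => e3 (grp T s *ᵥ Z)) (by rw [hz0]; exact hq0) t
    simpa only [hz0] using this

end

end Pool.Agent.Lib.MP_6ff8d9_an.N2
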