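import Pool.Agent.Lib.MP_6ff8d9_an_h22.Rows

/-!
# MP_6ff8d9 RATIONAL, row COMPOSITE: `(1+h∘F)/(1-h∘F)` is not extreme unless `h` is a rotation
-/

open Metric Filter Topology MvPolynomial
open scoped ComplexConjugate

namespace Pool.Agent.Lib.MP_6ff8d9_an.H23

open Pool.Agent.Lib.MP_6ff8d9_an Pool.Agent.Lib.MP_6ff8d9_an.H22

noncomputable section

/-- minimum principle for the real part -/
lemma re_nonneg_of_circle (u : ℂ → ℂ) (hu : DiffContOnCl ℂ u (ball 0 1))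
    (hb : ∀ z ∈ sphere (0 : ℂ) 1, 0 ≤ (u z).re) : ∀ z ∈ ball (0 : ℂ) 1, 0 ≤ (u z).re := by
  intro z hz
  have hd : DiffContOnCl ℂ (fun z => Complex.exp (- u z)) (ball 0 1) :=
    Complex.differentiable_exp.comp_diffContOnCl hu.neg
  have h1 : ‖Complex.exp (- u z)‖ ≤ 1 := by
    refine Complex.norm_le_of_forall_mem_frontier_norm_le isBounded_ball hd ?_ (subset_closure hz)
    intro w hw
    rw [frontier_ball _ one_ne_zero] at hw
    rw [Complex.norm_exp]
    have := hb w hw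
    simpa using this
  rw [Complex.norm_exp] at h1
  simpa using h1

/-- the two building blocks -/
def AA (φ : ℂ → ℂ) (c z : ℂ) : ℂ := dslope φ 0 z - c - c * φ z
def BB (φ : ℂ → ℂ) (c z : ℂ) : ℂ := conj c + z + z * φ z - conj c * φ z
def KK (φ : ℂ → ℂ) (c a z : ℂ) : ℂ := (a * AA φ c z + conj a * BB φ c z) / 2

/-- their dilated versions -/
def KR (φ : ℂ → ℂ) (c a : ℂ) (ρ : ℝ) (z : ℂ) : ℂ :=
  (a * (ρ * dslope φ 0 (ρ * z) - ρ * c - ρ * c * φ (ρ * z)) +
    conj a * (ρ * conj c + z + z * φ (ρ * z) - ρ * conj c * φ (ρ * z))) / 2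

lemma circ (Φ c a z : ℂ) (ρ : ℝ) :
    ((a * (conj z * (Φ - 1) - ρ * c - ρ * c * Φ) +
      conj a * (ρ * conj c + z + z * Φ - ρ * conj c * Φ)) / 2).re =
    Φ.re * (a * (conj z - ρ * c)).re := by
  simp [Complex.add_re, Complex.mul_re, Complex.sub_re, Complex.mul_im, Complex.add_im,
    Complex.sub_im]
  ring

lemma KR_circle (φ : ℂ → ℂ) (h0 : φ 0 = 1) (c a : ℂ) (ρ : ℝ) (h1 : 0 < ρ) (z : ℂ)
    (hz : ‖z‖ = 1) : (KR φ c a ρ z).re = (φ (ρ * z)).re * (a * (conj z - ρ * c)).re := by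
  have hz0 : z ≠ 0 := by
    rintro rfl
    simp at hz
  have hρ : (ρ : ℂ) ≠ 0 := by exact_mod_cast h1.ne'
  have hzz : z * conj z = 1 := by
    rw [Complex.mul_conj, Complex.normSq_eq_norm_sq, hz]
    simp
  have e : (ρ : ℂ) * dslope φ 0 (ρ * z) = conj z * (φ (ρ * z) - 1) := by
    rw [dslope_of_ne _ (mul_ne_zero hρ hz0), slope_def_field, h0, sub_zero]
    field_simp
    linear_combination (φ (ρ * z) - 1) * (-hzz)
  rw [KR, e]
  exact circ _ _ _ _ _

lemma diff_gen (Φ Ψ : ℂ → ℂ) (s : Set ℂ) (h1 : DifferentiableOn ℂ Φ s)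
    (h2 : DifferentiableOn ℂ Ψ s) (C c a r : ℂ) :
    DifferentiableOn ℂ (fun w => C * Φ w + (a * (r * Ψ w - r * c - r * c * Φ w) +
      conj a * (r * conj c + w + w * Φ w - r * conj c * Φ w)) / 2) s := by
  fun_prop

lemma cont_gen (Φ Ψ r : ℝ → ℂ) (x : ℝ) (h1 : ContinuousAt Φ x)
    (h2 : ContinuousAt Ψ x) (h3 : ContinuousAt r x) (C c a z : ℂ) :
    ContinuousAt (fun w => C * Φ w + (a * (r w * Ψ w - r w * c - r w * c * Φ w) +
      conj a * (r w * conj c + z + z * Φ w - r w * conj c * Φ w)) / 2) x := by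
  fun_prop

lemma dom_radius (φ : ℂ → ℂ) (hφ : DifferentiableOn ℂ φ (ball 0 1))
    (hre : ∀ z ∈ ball (0 : ℂ) 1, 0 < (φ z).re) (h0 : φ 0 = 1) (c a : ℂ) (ρ : ℝ)
    (h1 : 0 < ρ) (h2 : ρ < 1) (z : ℂ) (hz : z ∈ ball (0 : ℂ) 1) :
    0 ≤ (((‖a‖ * (1 + ‖c‖) : ℝ) : ℂ) * φ (ρ * z) + KR φ c a ρ z).re := by
  have hds : DifferentiableOn ℂ (dslope φ 0) (ball 0 1) :=
    (Complex.differentiableOn_dslope (ball_mem_nhds _ one_pos)).2 hφ
  have hmap : ∀ w ∈ closedBall (0 : ℂ) 1, (ρ : ℂ) * w ∈ ball (0 : ℂ) 1 := by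
    intro w hw
    rw [mem_closedBall_zero_iff] at hw
    rw [mem_ball_zero_iff, norm_mul, Complex.norm_real, Real.norm_of_nonneg h1.le]
    nlinarith [norm_nonneg w]
  have hm : DifferentiableOn ℂ (fun w : ℂ => (ρ : ℂ) * w) (closedBall 0 1) := by fun_prop
  have hd1 : DifferentiableOn ℂ (fun w : ℂ => φ (ρ * w)) (closedBall 0 1) := hφ.comp hm hmap
  have hd2 : DifferentiableOn ℂ (fun w : ℂ => dslope φ 0 (ρ * w)) (closedBall 0 1) :=
    hds.comp hm hmap
  refine re_nonneg_of_circle (fun w => ((‖a‖ * (1 + ‖c‖) : ℝ) : ℂ) * φ (ρ * w) + KR φ c a ρ w)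
    ?_ ?_ z hz
  · apply DifferentiableOn.diffContOnCl
    rw [closure_ball _ one_ne_zero]
    exact diff_gen _ _ _ hd1 hd2 _ c a ρ
  · intro w hw
    rw [mem_sphere_zero_iff_norm] at hw
    have hp := hre _ (hmap w (by rw [mem_closedBall_zero_iff]; exact hw.le))
    have e1 : (((‖a‖ * (1 + ‖c‖) : ℝ) : ℂ) * φ (ρ * w) + KR φ c a ρ w).re =
        (φ (ρ * w)).re * (‖a‖ * (1 + ‖c‖) + (a * (conj w - ρ * c)).re) := by
      rw [Complex.add_re, KR_circle φ h0 c a ρ h1 w hw, Complex.re_ofReal_mul]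
      ring
    have e2 : |(a * (conj w - ρ * c)).re| ≤ ‖a‖ * (1 + ‖c‖) := by
      refine (Complex.abs_re_le_norm _).trans ?_
      rw [norm_mul]
      refine mul_le_mul_of_nonneg_left ?_ (norm_nonneg _)
      refine (norm_sub_le _ _).trans ?_
      rw [norm_mul, Complex.norm_real, Real.norm_of_nonneg h1.le, RCLike.norm_conj, hw]
      nlinarith [norm_nonneg c]
    have e3 := (abs_le.1 e2).1
    show 0 ≤ (((‖a‖ * (1 + ‖c‖) : ℝ) : ℂ) * φ (ρ * w) + KR φ c a ρ w).re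
    rw [e1]
    exact mul_nonneg hp.le (by linarith)

lemma dom (φ : ℂ → ℂ) (hφ : DifferentiableOn ℂ φ (ball 0 1))
    (hre : ∀ z ∈ ball (0 : ℂ) 1, 0 < (φ z).re) (h0 : φ 0 = 1) (c a : ℂ)
    (z : ℂ) (hz : z ∈ ball (0 : ℂ) 1) :
    0 ≤ (((‖a‖ * (1 + ‖c‖) : ℝ) : ℂ) * φ z + KK φ c a z).re := by
  have hds : DifferentiableOn ℂ (dslope φ 0) (ball 0 1) :=
    (Complex.differentiableOn_dslope (ball_mem_nhds _ one_pos)).2 hφ
  have hc1 : ContinuousAt φ z := (hφ.differentiableAt (isOpen_ball.mem_nhds hz)).continuousAt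
  have hc2 : ContinuousAt (dslope φ 0) z :=
    (hds.differentiableAt (isOpen_ball.mem_nhds hz)).continuousAt
  have hm : ContinuousAt (fun ρ : ℝ => (ρ : ℂ) * z) 1 := by fun_prop
  have hm1 : (((1 : ℝ) : ℂ) * z) = z := by simp
  have hk1 : ContinuousAt (fun ρ : ℝ => φ ((ρ : ℂ) * z)) 1 :=
    ContinuousAt.comp (g := φ) (f := fun ρ : ℝ => (ρ : ℂ) * z) (by rw [hm1]; exact hc1) hm
  have hk2 : ContinuousAt (fun ρ : ℝ => dslope φ 0 ((ρ : ℂ) * z)) 1 :=
    ContinuousAt.comp (g := dslope φ 0) (f := fun ρ : ℝ => (ρ : ℂ) * z)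
      (by rw [hm1]; exact hc2) hm
  have hk3 : ContinuousAt (fun ρ : ℝ =>
      (((‖a‖ * (1 + ‖c‖) : ℝ) : ℂ) * φ (ρ * z) + KR φ c a ρ z).re) 1 := by
    have hid : ContinuousAt (fun ρ : ℝ => (ρ : ℂ)) 1 := by fun_prop
    exact Complex.continuous_re.continuousAt.comp
      (cont_gen _ _ _ 1 hk1 hk2 hid ((‖a‖ * (1 + ‖c‖) : ℝ) : ℂ) c a z)
  have ht : Tendsto (fun ρ : ℝ =>
      (((‖a‖ * (1 + ‖c‖) : ℝ) : ℂ) * φ (ρ * z) + KR φ c a ρ z).re) (𝓝[<] 1)
      (𝓝 ((((‖a‖ * (1 + ‖c‖) : ℝ) : ℂ) * φ z + KK φ c a z).re)) := by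
    have h5 := hk3.tendsto.mono_left (nhdsWithin_le_nhds (s := Set.Iio (1 : ℝ)))
    have e : (((‖a‖ * (1 + ‖c‖) : ℝ) : ℂ) * φ ((1 : ℝ) * z) + KR φ c a 1 z) =
        ((‖a‖ * (1 + ‖c‖) : ℝ) : ℂ) * φ z + KK φ c a z := by
      simp [KR, KK, AA, BB]
    rw [e] at h5
    exact h5
  refine ge_of_tendsto ht ?_
  have : ∀ᶠ ρ : ℝ in 𝓝[<] 1, ρ ∈ Set.Ioo (0 : ℝ) 1 := Ioo_mem_nhdsLT one_pos
  filter_upwards [this] with ρ hρ
  exact dom_radius φ hφ hre h0 c a ρ hρ.1 hρ.2 z hz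

lemma KK_neg (φ : ℂ → ℂ) (c a z : ℂ) : KK φ c (-a) z = - KK φ c a z := by
  simp only [KK, map_neg]
  ring

lemma dom_abs (φ : ℂ → ℂ) (hφ : DifferentiableOn ℂ φ (ball 0 1))
    (hre : ∀ z ∈ ball (0 : ℂ) 1, 0 < (φ z).re) (h0 : φ 0 = 1) (c a : ℂ)
    (z : ℂ) (hz : z ∈ ball (0 : ℂ) 1) :
    |(KK φ c a z).re| ≤ ‖a‖ * (1 + ‖c‖) * (φ z).re := by
  have h1 := dom φ hφ hre h0 c a z hz
  have h2 := dom φ hφ hre h0 c (-a) z hz
  rw [KK_neg, norm_neg] at h2
  rw [Complex.add_re, Complex.re_ofReal_mul] at h1 h2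
  rw [Complex.neg_re] at h2
  rw [abs_le]
  constructor <;> linarith

lemma KK_zero (φ : ℂ → ℂ) (h0 : φ 0 = 1) (a : ℂ) : KK φ (deriv φ 0 / 2) a 0 = 0 := by
  simp only [KK, AA, BB, dslope_same, h0]
  ring

lemma KK_diff (φ : ℂ → ℂ) (hφ : DifferentiableOn ℂ φ (ball 0 1)) (c a : ℂ) :
    DifferentiableOn ℂ (KK φ c a) (ball 0 1) := by
  have hds : DifferentiableOn ℂ (dslope φ 0) (ball 0 1) :=
    (Complex.differentiableOn_dslope (ball_mem_nhds _ one_pos)).2 hφ
  show DifferentiableOn ℂ (fun z => KK φ c a z) (ball 0 1)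
  unfold KK AA BB
  fun_prop

/-- the extreme points absorb `K ∘ F` -/
lemma KK_comp_zero {n : ℕ} (F : Cn n → ℂ) (hF : DifferentiableOn ℂ F (ball 0 1))
    (hF1 : ∀ z ∈ ball (0 : Cn n) 1, ‖F z‖ < 1) (hF0 : F 0 = 0)
    (φ : ℂ → ℂ) (hφ : DifferentiableOn ℂ φ (ball 0 1))
    (hre : ∀ z ∈ ball (0 : ℂ) 1, 0 < (φ z).re) (h0 : φ 0 = 1) (a : ℂ)
    (hext : IsExtremePoint n (fun z => φ (F z))) :
    ∀ z ∈ ball (0 : Cn n) 1, KK φ (deriv φ 0 / 2) a (F z) = 0 := by
  set c := deriv φ 0 / 2 with hc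
  set C : ℝ := ‖a‖ * (1 + ‖c‖) with hC
  have hC0 : 0 ≤ C := by positivity
  have hmaps : Set.MapsTo F (ball 0 1) (ball 0 1) := fun z hz => by
    rw [mem_ball_zero_iff]; exact hF1 z hz
  have hd1 : DifferentiableOn ℂ (fun z => φ (F z)) (ball 0 1) := hφ.comp hF hmaps
  have hd2 : DifferentiableOn ℂ (fun z => KK φ c a (F z)) (ball 0 1) :=
    (KK_diff φ hφ c a).comp hF hmaps
  have hmem : ∀ ε : ℝ, |ε| * C < 1 →
      (fun z => φ (F z) + (ε : ℂ) * KK φ c a (F z)) ∈ NB n := by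
    intro ε hε
    refine ⟨hd1.add ((differentiableOn_const _).mul hd2), ?_, ?_⟩
    · intro z hz
      have h1 := dom_abs φ hφ hre h0 c a (F z) (hmaps hz)
      have h2 := hre (F z) (hmaps hz)
      show 0 < (φ (F z) + (ε : ℂ) * KK φ c a (F z)).re
      rw [Complex.add_re, Complex.re_ofReal_mul]
      have h3 : |ε * (KK φ c a (F z)).re| ≤ |ε| * (C * (φ (F z)).re) := by
        rw [abs_mul]
        exact mul_le_mul_of_nonneg_left h1 (abs_nonneg _)
      have h4 := (abs_le.1 h3).1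
      nlinarith
    · show φ (F 0) + (ε : ℂ) * KK φ c a (F 0) = 1
      rw [hF0, KK_zero φ h0 a, h0]
      simp
  intro z hz
  have hε1 : |1 / (2 * (C + 1))| * C < 1 := by
    rw [abs_of_nonneg (by positivity), div_mul_eq_mul_div, div_lt_one (by positivity)]
    linarith
  have hε2 : |-(1 / (2 * (C + 1)))| * C < 1 := by rwa [abs_neg]
  have key := hext.2 _ (hmem _ hε1) _ (hmem _ hε2) (1 / 2) (by norm_num) (by norm_num) ?_ z hz
  · have hne : ((1 / (2 * (C + 1)) : ℝ) : ℂ) ≠ 0 := by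
      have : (1 / (2 * (C + 1)) : ℝ) ≠ 0 := by positivity
      exact_mod_cast this
    simp only [Complex.ofReal_neg] at key
    have : ((1 / (2 * (C + 1)) : ℝ) : ℂ) * KK φ c a (F z) = 0 := by
      linear_combination key / 2
    exact (mul_eq_zero.1 this).resolve_left hne
  · intro w _
    simp only [Complex.ofReal_neg]
    push_cast
    ring

/-- the constant `1` is not extreme for `n ≥ 1` -/
lemma one_not_extreme {n : ℕ} (hn : 1 ≤ n) (g : Cn n → ℂ)
    (hg : ∀ z ∈ ball (0 : Cn n) 1, g z = 1) : ¬ IsExtremePoint n g := by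
  intro hext
  have hmem : ∀ ε : ℝ, |ε| ≤ 1 →
      (fun z : Cn n => 1 + (ε : ℂ) * z ⟨0, hn⟩) ∈ NB n := by
    intro ε hε
    refine ⟨?_, ?_, by simp⟩
    · have : Differentiable ℂ (fun z : Cn n => z ⟨0, hn⟩) :=
        (EuclideanSpace.proj (𝕜 := ℂ) (ι := Fin n) (⟨0, hn⟩ : Fin n)).differentiable
      exact ((differentiable_const _).add ((differentiable_const _).mul this)).differentiableOn
    · intro z hz
      rw [mem_ball_zero_iff] at hz
      have h1 : ‖z ⟨0, hn⟩‖ ≤ ‖z‖ := PiLp.norm_apply_le z _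
      have h2 : ‖(ε : ℂ) * z ⟨0, hn⟩‖ < 1 := by
        rw [norm_mul, Complex.norm_real, Real.norm_eq_abs]
        nlinarith [abs_nonneg ε, norm_nonneg (z ⟨0, hn⟩)]
      have h3 := (abs_le.1 ((Complex.abs_re_le_norm ((ε : ℂ) * z ⟨0, hn⟩)))).1
      show 0 < (1 + (ε : ℂ) * z ⟨0, hn⟩).re
      rw [Complex.add_re, Complex.one_re]
      linarith
  have key := hext.2 _ (hmem 1 (by simp)) _ (hmem (-1) (by simp)) (1 / 2) (by norm_num)
    (by norm_num) ?_ (EuclideanSpace.single ⟨0, hn⟩ (1 / 2 : ℂ)) ?_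
  · simp at key
    norm_num [Complex.ext_iff] at key
  · intro z hz
    rw [hg z hz]
    push_cast
    ring
  · rw [mem_ball_zero_iff]
    simp
    norm_num

theorem composite : COMPOSITE := by
  intro n F h hn hF hF1 hF0 hh hh1 hh0 hrot hext
  by_cases hcst : ∀ z ∈ ball (0 : Cn n) 1, F z = 0
  · refine one_not_extreme hn _ ?_ hext
    intro z hz
    show (1 + h (F z)) / (1 - h (F z)) = 1
    rw [hcst z hz, hh0]
    simp
  push Not at hcst
  obtain ⟨z₀, hz₀, hne⟩ := hcst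
  -- the function on the disc
  set φ : ℂ → ℂ := fun w => (1 + h w) / (1 - h w) with hφdef
  have hden : ∀ w ∈ ball (0 : ℂ) 1, 1 - h w ≠ 0 := by
    intro w hw h0
    have h1 := hh1 w hw
    have : h w = 1 := by linear_combination -h0
    rw [this] at h1
    simp at h1
  have hφ : DifferentiableOn ℂ φ (ball 0 1) :=
    ((differentiableOn_const _).add hh).div ((differentiableOn_const _).sub hh) hden
  have hφ0 : φ 0 = 1 := by simp [hφdef, hh0]
  have hre : ∀ w ∈ ball (0 : ℂ) 1, 0 < (φ w).re := by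
    intro w hw
    have h1 := hden w hw
    have h2 : 0 < Complex.normSq (1 - h w) := Complex.normSq_pos.2 h1
    have h3 : Complex.normSq (h w) < 1 := by
      rw [Complex.normSq_eq_norm_sq]
      have := hh1 w hw
      nlinarith [norm_nonneg (h w)]
    have e : (φ w).re = (1 - Complex.normSq (h w)) / Complex.normSq (1 - h w) := by
      simp only [hφdef, Complex.div_re]
      rw [← add_div]
      congr 1
      simp only [Complex.add_re, Complex.one_re, Complex.sub_re, Complex.add_im, Complex.one_im,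
        Complex.sub_im, Complex.normSq_apply]
      ring
    rw [e]
    exact div_pos (by linarith) h2
  set c := deriv φ 0 / 2 with hc
  have hmaps : Set.MapsTo F (ball 0 1) (ball 0 1) := fun z hz => by
    rw [mem_ball_zero_iff]; exact hF1 z hz
  -- both identities along the range of `F`
  have hrange : ∀ z ∈ ball (0 : Cn n) 1, h (F z) = c * F z ∧ F z = conj c * h (F z) := by
    intro z hz
    have k1 := KK_comp_zero F hF hF1 hF0 φ hφ hre hφ0 1 hext z hz
    have k2 := KK_comp_zero F hF hF1 hF0 φ hφ hre hφ0 Complex.I hext z hz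
    rw [← hc] at k1 k2
    simp only [KK, map_one, Complex.conj_I] at k1 k2
    have hI : Complex.I * Complex.I = -1 := Complex.I_mul_I
    have a0 : AA φ c (F z) = 0 := by
      linear_combination k1 - Complex.I * k2 + (AA φ c (F z) - BB φ c (F z)) / 2 * hI
    have b0 : BB φ c (F z) = 0 := by
      linear_combination k1 + Complex.I * k2 - (AA φ c (F z) - BB φ c (F z)) / 2 * hI
    have hd := hden (F z) (hmaps hz)
    have hp : φ (F z) * (1 - h (F z)) = 1 + h (F z) := by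
      simp only [hφdef]
      field_simp
    constructor
    · by_cases hw : F z = 0
      · rw [hw, hh0]; simp
      · have hs : dslope φ 0 (F z) * F z = φ (F z) - 1 := by
          rw [dslope_of_ne _ hw, slope_def_field, hφ0, sub_zero]
          field_simp
        have : AA φ c (F z) * F z = 0 := by rw [a0, zero_mul]
        unfold AA at this
        linear_combination ((1 - h (F z)) / 2) * (this - hs) - (1 - c * F z) / 2 * hp
    · unfold BB at b0
      linear_combination ((1 - h (F z)) / 2) * b0 + (-(F z) + conj c) / 2 * hp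
  -- an open set of values
  set S : Set ℂ := {t : ℂ | t • z₀ ∈ ball (0 : Cn n) 1} with hS
  have hlin : Differentiable ℂ (fun t : ℂ => t • z₀) := by fun_prop
  have hSo : IsOpen S := isOpen_ball.preimage hlin.continuous
  have hSc : IsPreconnected S := by
    have : Convex ℝ S := by
      intro x hx y hy a b ha hb hab
      have hx' : x • z₀ ∈ ball (0 : Cn n) 1 := hx
      have hy' : y • z₀ ∈ ball (0 : Cn n) 1 := hy
      have := (convex_ball (0 : Cn n) 1) hx' hy' ha hb hab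
      show (a • x + b • y) • z₀ ∈ ball (0 : Cn n) 1
      rwa [add_smul, smul_assoc, smul_assoc]
    exact this.isPreconnected
  have h0S : (0 : ℂ) ∈ S := by simp [hS]
  have h1S : (1 : ℂ) ∈ S := by
    show (1 : ℂ) • z₀ ∈ ball (0 : Cn n) 1
    rwa [one_smul]
  have huan : AnalyticOnNhd ℂ (fun t : ℂ => F (t • z₀)) S :=
    (hF.comp hlin.differentiableOn (fun t ht => ht)).analyticOnNhd hSo
  have hopen : IsOpen ((fun t : ℂ => F (t • z₀)) '' S) := by
    rcases huan.is_constant_or_isOpen hSc with ⟨w, hw⟩ | ho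
    · exfalso
      have e0 := hw 0 h0S
      have e1 := hw 1 h1S
      simp only [zero_smul, one_smul, hF0] at e0 e1
      exact hne (e1.trans e0.symm)
    · exact ho S subset_rfl hSo
  have h0V : (0 : ℂ) ∈ (fun t : ℂ => F (t • z₀)) '' S := ⟨0, h0S, by simp [hF0]⟩
  have hnear : ∀ᶠ w in 𝓝 (0 : ℂ), h w = c * w ∧ w = conj c * h w := by
    filter_upwards [hopen.mem_nhds h0V] with w hw
    obtain ⟨t, ht, rfl⟩ := hw
    exact hrange _ ht
  have heq : Set.EqOn h (fun w => c * w) (ball 0 1) :=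
    (hh.analyticOnNhd isOpen_ball).eqOn_of_preconnected_of_eventuallyEq
      (((differentiableOn_const c).mul differentiableOn_id).analyticOnNhd isOpen_ball)
      (convex_ball (0 : ℂ) 1).isPreconnected (mem_ball_self one_pos)
      (hnear.mono fun w hw => hw.1)
  refine hrot ⟨c, ?_, fun w hw => heq hw⟩
  -- `|c| = 1`
  obtain ⟨w, ⟨e1, e2⟩, hw0⟩ : ∃ w : ℂ, (h w = c * w ∧ w = conj c * h w) ∧ w ≠ 0 := by
    have h3 : ∀ᶠ w in 𝓝[≠] (0 : ℂ), h w = c * w ∧ w = conj c * h w :=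
      hnear.filter_mono nhdsWithin_le_nhds
    have h4 : ∀ᶠ w in 𝓝[≠] (0 : ℂ), w ≠ 0 := self_mem_nhdsWithin
    obtain ⟨w, hw⟩ := (h3.and h4).exists
    exact ⟨w, hw.1, hw.2⟩
  rw [e1] at e2
  have e3 : conj c * c = 1 := by
    have : (conj c * c - 1) * w = 0 := by linear_combination -e2
    exact sub_eq_zero.1 ((mul_eq_zero.1 this).resolve_right hw0)
  have e4 : ‖c‖ * ‖c‖ = 1 := by
    have := congrArg norm e3
    rwa [norm_mul, RCLike.norm_conj, norm_one] at this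
  nlinarith [norm_nonneg c]

end

end Pool.Agent.Lib.MP_6ff8d9_an.H23
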