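import Pool.Agent.Lib.MP_6ff8d9_an_h23.N2Rows

/-!
# Row AUT: extremality is invariant under automorphisms of the ball
-/

open Metric Filter Topology MvPolynomial
open scoped ComplexConjugate

namespace Pool.Agent.Lib.MP_6ff8d9_an.N2

open Pool.Agent.Lib.MP_6ff8d9_an Pool.Agent.Lib.MP_6ff8d9_an.H22

noncomputable section

lemma nrm_mem {n : ℕ} {g : Cn n → ℂ} {φ : Cn n → Cn n} (hφ : DifferentiableOn ℂ φ (ball 0 1))
    (hm : ∀ z ∈ ball (0 : Cn n) 1, φ z ∈ ball (0 : Cn n) 1)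
    (hd : DifferentiableOn ℂ g (ball 0 1)) (hre : ∀ z ∈ ball (0 : Cn n) 1, 0 < (g z).re) :
    nrm g φ ∈ NB n := by
  have h0 : (0 : Cn n) ∈ ball (0 : Cn n) 1 := mem_ball_self one_pos
  have hx : 0 < (g (φ 0)).re := hre _ (hm 0 h0)
  have hd1 : DifferentiableOn ℂ (fun z => g (φ z)) (ball 0 1) := hd.comp hφ hm
  refine ⟨?_, ?_, ?_⟩
  · have h2 : DifferentiableOn ℂ (fun z => (g (φ z) - Complex.I * (g (φ 0)).im) *
        ((g (φ 0)).re : ℂ)⁻¹) (ball 0 1) :=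
      (hd1.sub_const _).mul_const _
    exact h2.congr fun z _ => by rw [nrm, div_eq_mul_inv]
  · intro z hz
    have h1 := hre _ (hm z hz)
    show 0 < ((g (φ z) - Complex.I * (g (φ 0)).im) / ((g (φ 0)).re : ℂ)).re
    rw [Complex.div_ofReal_re]
    refine div_pos ?_ hx
    simpa using h1
  · show (g (φ 0) - Complex.I * (g (φ 0)).im) / ((g (φ 0)).re : ℂ) = 1
    have hx' : ((g (φ 0)).re : ℂ) ≠ 0 := by exact_mod_cast hx.ne'
    rw [div_eq_one_iff_eq hx']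
    apply Complex.ext <;> simp

theorem aut : AUT := by
  intro n g φ ψ hA hg
  have h0 : (0 : Cn n) ∈ ball (0 : Cn n) 1 := mem_ball_self one_pos
  refine ⟨nrm_mem hA.dφ hA.mφ hg.1.1 hg.1.2.1, ?_⟩
  intro g₁ h₁ g₂ h₂ t ht0 ht1 heq z hz
  set x := (g (φ 0)).re with hx
  set y := (g (φ 0)).im with hy
  have hxpos : 0 < x := hg.1.2.1 _ (hA.mφ 0 h0)
  have hx' : (x : ℂ) ≠ 0 := by exact_mod_cast hxpos.ne'
  have hr1 : 0 < (g₁ (ψ 0)).re := h₁.2.1 _ (hA.mψ 0 h0)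
  have hr2 : 0 < (g₂ (ψ 0)).re := h₂.2.1 _ (hA.mψ 0 h0)
  set r₁ := (g₁ (ψ 0)).re with hr1d
  set r₂ := (g₂ (ψ 0)).re with hr2d
  set s₁ := (g₁ (ψ 0)).im with hs1d
  set s₂ := (g₂ (ψ 0)).im with hs2d
  have hr1' : (r₁ : ℂ) ≠ 0 := by exact_mod_cast hr1.ne'
  have hr2' : (r₂ : ℂ) ≠ 0 := by exact_mod_cast hr2.ne'
  have k₁ : nrm g₁ ψ ∈ NB n := nrm_mem hA.dψ hA.mψ h₁.1 h₁.2.1
  have k₂ : nrm g₂ ψ ∈ NB n := nrm_mem hA.dψ hA.mψ h₂.1 h₂.2.1
  have e1 : ∀ w, g₁ (ψ w) = r₁ * nrm g₁ ψ w + Complex.I * s₁ := by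
    intro w
    show g₁ (ψ w) = r₁ * ((g₁ (ψ w) - Complex.I * s₁) / (r₁ : ℂ)) + Complex.I * s₁
    field_simp
    ring
  have e2 : ∀ w, g₂ (ψ w) = r₂ * nrm g₂ ψ w + Complex.I * s₂ := by
    intro w
    show g₂ (ψ w) = r₂ * ((g₂ (ψ w) - Complex.I * s₂) / (r₂ : ℂ)) + Complex.I * s₂
    field_simp
    ring
  -- `g` as a combination
  have e3 : ∀ w ∈ ball (0 : Cn n) 1, g w = (x * t * r₁ : ℝ) * nrm g₁ ψ w +
      (x * (1 - t) * r₂ : ℝ) * nrm g₂ ψ w +
      Complex.I * ((x * t * s₁ + x * (1 - t) * s₂ + y : ℝ)) := by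
    intro w hw
    have h3 := heq (ψ w) (hA.mψ w hw)
    have h4 : nrm g φ (ψ w) = (g w - Complex.I * y) / (x : ℂ) := by
      show (g (φ (ψ w)) - Complex.I * y) / (x : ℂ) = _
      rw [hA.right w hw]
    rw [h4, e1, e2, div_eq_iff hx'] at h3
    push_cast
    linear_combination h3
  have e4 := e3 0 h0
  rw [hg.1.2.2, k₁.2.2, k₂.2.2] at e4
  have e5 : x * t * s₁ + x * (1 - t) * s₂ + y = 0 := by
    have := congrArg Complex.im e4
    simpa using this.symm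
  have e6 : x * t * r₁ + x * (1 - t) * r₂ = 1 := by
    have := congrArg Complex.re e4
    simpa using this.symm
  have hp1 : 0 < x * t * r₁ := by positivity
  have hp2 : 0 < x * (1 - t) * r₂ := by
    have : 0 < 1 - t := by linarith
    positivity
  have key := hg.2 _ k₁ _ k₂ (x * t * r₁) hp1 (by linarith) ?_
  · -- compare at `φ 0`
    have c0 := key (φ 0) (hA.mφ 0 h0)
    have c1 := e1 (φ 0)
    have c2 := e2 (φ 0)
    rw [hA.left 0 h0, h₁.2.2] at c1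
    rw [hA.left 0 h0, h₂.2.2, ← c0] at c2
    have d1 : r₁ * (nrm g₁ ψ (φ 0)).re = 1 := by
      have := congrArg Complex.re c1
      simpa using this.symm
    have d2 : r₂ * (nrm g₁ ψ (φ 0)).re = 1 := by
      have := congrArg Complex.re c2
      simpa using this.symm
    have d3 : (nrm g₁ ψ (φ 0)).re ≠ 0 := by
      intro h
      rw [h, mul_zero] at d1
      norm_num at d1
    have d4 : r₁ = r₂ := mul_right_cancel₀ d3 (d1.trans d2.symm)
    have d5 : s₁ = s₂ := by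
      have i1 := congrArg Complex.im c1
      have i2 := congrArg Complex.im c2
      simp at i1 i2
      rw [← d4] at i2
      linarith
    have c3 := e1 (φ z)
    have c4 := e2 (φ z)
    rw [hA.left z hz] at c3 c4
    rw [c3, c4, d4, d5, key (φ z) (hA.mφ z hz)]
  · intro w hw
    have h3 := e3 w hw
    rw [e5] at h3
    rw [h3]
    have h6 : ((x * (1 - t) * r₂ : ℝ) : ℂ) = 1 - ((x * t * r₁ : ℝ) : ℂ) := by
      rw [← Complex.ofReal_one, ← Complex.ofReal_sub]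
      congr 1
      linarith
    rw [h6]
    simp

end

end Pool.Agent.Lib.MP_6ff8d9_an.N2
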