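import Pool.Agent.Lib.MP_6ff8d9_an_h23.Kill

/-!
# Row FORM: second differences zero ⇒ `w = (Z × TZ)`
-/

open Metric Filter Topology MvPolynomial
open scoped ComplexConjugate

namespace Pool.Agent.Lib.MP_6ff8d9_an.N2

open Pool.Agent.Lib.MP_6ff8d9_an Pool.Agent.Lib.MP_6ff8d9_an.H22

noncomputable section

variable {w : Fin 2 → MvPolynomial (Fin 2) ℂ}

lemma coeff_line (h : ∀ x y : Fin 2 → ℂ,
    ∑ j, y j * (eval (x + (2 : ℂ) • y) (w j) - 2 * eval (x + y) (w j) + eval x (w j)) = 0)
    (x y : Fin 2 → ℂ) {k : ℕ} (hk : 2 ≤ k) :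
    (Polynomial.C (y 0) * ln x y (w 0) + Polynomial.C (y 1) * ln x y (w 1)).coeff k = 0 := by
  set R := Polynomial.C (y 0) * ln x y (w 0) + Polynomial.C (y 1) * ln x y (w 1) with hR
  have hev : ∀ s : ℂ, R.eval s = y 0 * eval (x + s • y) (w 0) + y 1 * eval (x + s • y) (w 1) := by
    intro s
    simp [hR, eval_ln]
  have h1 : ∀ s : ℂ, R.eval (2 * s) - 2 * R.eval s + R.eval 0 = 0 := by
    intro s
    by_cases hs : s = 0
    · rw [hs, mul_zero]; ring
    · have h2 := h x (s • y)
      rw [Fin.sum_univ_two] at h2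
      have e1 : x + (2 : ℂ) • s • y = x + (2 * s) • y := by rw [smul_smul]
      rw [e1] at h2
      simp only [Pi.smul_apply, smul_eq_mul] at h2
      have e0 : x + (0 : ℂ) • y = x := by simp
      rw [hev, hev, hev, e0]
      have : s * (y 0 * eval (x + (2 * s) • y) (w 0) + y 1 * eval (x + (2 * s) • y) (w 1) -
          2 * (y 0 * eval (x + s • y) (w 0) + y 1 * eval (x + s • y) (w 1)) +
          (y 0 * eval x (w 0) + y 1 * eval x (w 1))) = 0 := by
        linear_combination h2
      exact (mul_eq_zero.1 this).resolve_left hs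
  have h3 : R.comp (Polynomial.C 2 * Polynomial.X) - Polynomial.C 2 * R +
      Polynomial.C (R.eval 0) = 0 := by
    apply Polynomial.funext
    intro s
    simpa using h1 s
  have h4 := congrArg (fun p => Polynomial.coeff p k) h3
  simp only [Polynomial.coeff_add, Polynomial.coeff_sub, Polynomial.comp_C_mul_X_coeff,
    Polynomial.coeff_C_mul, Polynomial.coeff_zero] at h4
  rw [Polynomial.coeff_C_ne_zero (by omega), add_zero] at h4
  have h5 : ((2 : ℂ) ^ k - 2) * R.coeff k = 0 := by linear_combination h4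
  have h6 : (2 : ℂ) ^ k - 2 ≠ 0 := by
    intro h7
    have h8 : (2 : ℂ) ^ k = 2 := sub_eq_zero.1 h7
    have h9 : (2 : ℝ) ^ k = 2 := by exact_mod_cast h8
    have h10 : (2 : ℝ) ^ 2 ≤ 2 ^ k := pow_le_pow_right₀ (by norm_num) hk
    rw [h9] at h10
    norm_num at h10
  exact (mul_eq_zero.1 h5).resolve_left h6

/-- a polynomial whose coefficients vanish from `3` on -/
lemma eval_of_quad {p : Polynomial ℂ} (h : ∀ k, 3 ≤ k → p.coeff k = 0) (s : ℂ) :
    p.eval s = p.coeff 0 + p.coeff 1 * s + p.coeff 2 * s ^ 2 := by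
  have hd : p.natDegree < 3 := by
    by_contra hcon
    push Not at hcon
    have h1 := h p.natDegree hcon
    have h2 : p = 0 := by
      rw [← Polynomial.leadingCoeff_eq_zero]
      exact h1
    rw [h2] at hcon
    simp at hcon
  rw [Polynomial.eval_eq_sum_range' hd, Finset.sum_range_succ, Finset.sum_range_succ,
    Finset.sum_range_one]
  ring

lemma eval_of_lin {p : Polynomial ℂ} (h : ∀ k, 2 ≤ k → p.coeff k = 0) (s : ℂ) :
    p.eval s = p.coeff 0 + p.coeff 1 * s := by
  rw [eval_of_quad (fun k hk => h k (by omega)) s, h 2 le_rfl]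
  ring

theorem form : FORM := by
  intro w h
  -- one variable polynomials
  set α : Polynomial ℂ := ln ![0, 0] ![0, 1] (w 0) with hα
  set β : Polynomial ℂ := ln ![1, 0] ![0, 1] (w 0) - α with hβ
  set γ : Polynomial ℂ := ln ![0, 0] ![1, 0] (w 1) with hγ
  set δ : Polynomial ℂ := ln ![0, 1] ![1, 0] (w 1) - γ with hδ
  have ea : ∀ b : ℂ, α.eval b = eval ![0, b] (w 0) := by
    intro b
    rw [hα, eval_ln]
    congr 2
    simp
  have eb : ∀ b : ℂ, β.eval b = eval ![1, b] (w 0) - eval ![0, b] (w 0) := by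
    intro b
    rw [hβ, Polynomial.eval_sub, ea, eval_ln]
    congr 3
    simp
  have eg : ∀ a : ℂ, γ.eval a = eval ![a, 0] (w 1) := by
    intro a
    rw [hγ, eval_ln]
    congr 2
    simp
  have ed : ∀ a : ℂ, δ.eval a = eval ![a, 1] (w 1) - eval ![a, 0] (w 1) := by
    intro a
    rw [hδ, Polynomial.eval_sub, eg, eval_ln]
    congr 3
    simp
  -- affine in the first, resp. second variable
  have w0 : ∀ a b : ℂ, eval ![a, b] (w 0) = α.eval b + β.eval b * a := by
    intro a b
    have h1 : ∀ k, 2 ≤ k → (ln ![0, b] ![1, 0] (w 0)).coeff k = 0 := by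
      intro k hk
      have := coeff_line h ![0, b] ![1, 0] hk
      simpa using this
    have h2 := eval_of_lin h1
    have e : ∀ t : ℂ, (ln ![0, b] ![1, 0] (w 0)).eval t = eval ![t, b] (w 0) := by
      intro t
      rw [eval_ln]
      congr 2
      simp
    rw [ea, eb, ← e, ← e, ← e, h2 a, h2 0, h2 1]
    ring
  have w1 : ∀ a b : ℂ, eval ![a, b] (w 1) = γ.eval a + δ.eval a * b := by
    intro a b
    have h1 : ∀ k, 2 ≤ k → (ln ![a, 0] ![0, 1] (w 1)).coeff k = 0 := by
      intro k hk
      have := coeff_line h ![a, 0] ![0, 1] hk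
      simpa using this
    have h2 := eval_of_lin h1
    have e : ∀ t : ℂ, (ln ![a, 0] ![0, 1] (w 1)).eval t = eval ![a, t] (w 1) := by
      intro t
      rw [eval_ln]
      congr 2
      simp
    rw [eg, ed, ← e, ← e, ← e, h2 b, h2 0, h2 1]
    ring
  -- the identity on the lines `(t, m t)`
  have hm : ∀ (m : ℂ) (k : ℕ), 2 ≤ k → α.coeff k * m ^ k + β.coeff (k - 1) * m ^ (k - 1) +
      m * γ.coeff k + m ^ 2 * δ.coeff (k - 1) = 0 := by
    intro m k hk
    have h1 := coeff_line h ![0, 0] ![1, m] hk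
    have h2 : Polynomial.C ((![1, m] : Fin 2 → ℂ) 0) * ln ![0, 0] ![1, m] (w 0) +
        Polynomial.C ((![1, m] : Fin 2 → ℂ) 1) * ln ![0, 0] ![1, m] (w 1) =
        α.comp (Polynomial.C m * Polynomial.X) +
          β.comp (Polynomial.C m * Polynomial.X) * Polynomial.X + Polynomial.C m * γ +
          Polynomial.C (m ^ 2) * (δ * Polynomial.X) := by
      apply Polynomial.funext
      intro t
      have e : ∀ p, (ln ![0, 0] ![1, m] p).eval t = eval ![t, m * t] p := by
        intro p
        rw [eval_ln]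
        congr 2
        funext i
        fin_cases i <;> simp [mul_comm]
      simp only [Polynomial.eval_add, Polynomial.eval_mul, Polynomial.eval_C, e, w0, w1,
        Polynomial.eval_comp, Polynomial.eval_X, Matrix.cons_val_zero, Matrix.cons_val_one]
      ring
    rw [h2] at h1
    obtain ⟨j, rfl⟩ : ∃ j, k = j + 1 := ⟨k - 1, by omega⟩
    simp only [Polynomial.coeff_add, Polynomial.comp_C_mul_X_coeff, Polynomial.coeff_C_mul,
      Polynomial.coeff_mul_X] at h1
    rw [Nat.add_sub_cancel]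
    linear_combination h1
  -- `k ≥ 4`
  have h4 : ∀ k, 4 ≤ k → α.coeff k = 0 ∧ β.coeff (k - 1) = 0 ∧ γ.coeff k = 0 ∧
      δ.coeff (k - 1) = 0 := by
    intro k hk
    have hp : Polynomial.C (α.coeff k) * Polynomial.X ^ k +
        Polynomial.C (β.coeff (k - 1)) * Polynomial.X ^ (k - 1) +
        Polynomial.C (γ.coeff k) * Polynomial.X ^ 1 +
        Polynomial.C (δ.coeff (k - 1)) * Polynomial.X ^ 2 = 0 := by
      apply Polynomial.funext
      intro m
      have := hm m k (by omega)
      simp only [Polynomial.eval_add, Polynomial.eval_mul, Polynomial.eval_C, Polynomial.eval_pow,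
        Polynomial.eval_X, Polynomial.eval_zero]
      linear_combination this
    have c0 := congrArg (fun p => Polynomial.coeff p k) hp
    have c1 := congrArg (fun p => Polynomial.coeff p (k - 1)) hp
    have c2 := congrArg (fun p => Polynomial.coeff p 1) hp
    have c3 := congrArg (fun p => Polynomial.coeff p 2) hp
    simp only [Polynomial.coeff_add, Polynomial.coeff_C_mul, Polynomial.coeff_X_pow,
      Polynomial.coeff_zero] at c0 c1 c2 c3
    have n1 : ¬ (k = k - 1) := by omega
    have n2 : ¬ (k = 1) := by omega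
    have n3 : ¬ (k = 2) := by omega
    have n4 : ¬ (k - 1 = k) := by omega
    have n5 : ¬ (k - 1 = 1) := by omega
    have n6 : ¬ (k - 1 = 2) := by omega
    have n7 : ¬ (1 = k) := by omega
    have n8 : ¬ (1 = k - 1) := by omega
    have n9 : ¬ (2 = k) := by omega
    have n10 : ¬ (2 = k - 1) := by omega
    have n11 : ¬ ((1 : ℕ) = 2) := by omega
    have n12 : ¬ ((2 : ℕ) = 1) := by omega
    simp only [n1, n2, n3, n4, n5, n6, n7, n8, n9, n10, n11, n12, if_true, if_false, mul_zero,
      mul_one, add_zero, zero_add] at c0 c1 c2 c3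
    exact ⟨c0, c1, c2, c3⟩
  -- `k = 3`, `k = 2`
  have k3 := fun m => hm m 3 (by norm_num)
  have k2 := fun m => hm m 2 le_rfl
  norm_num at k3 k2
  have a3 : α.coeff 3 = 0 := by
    have p1 := k3 1
    have p2 := k3 (-1)
    have p3 := k3 2
    linear_combination (1 / 6) * p3 - (1 / 2) * p1 - (1 / 6) * p2
  have g3 : γ.coeff 3 = 0 := by
    have p1 := k3 1
    have p2 := k3 (-1)
    linear_combination (1 / 2) * p1 - (1 / 2) * p2 - a3
  have bd : β.coeff 2 + δ.coeff 2 = 0 := by
    have p1 := k3 1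
    linear_combination p1 - a3 - g3
  have ad : α.coeff 2 + δ.coeff 1 = 0 := by
    have p1 := k2 1
    have p2 := k2 (-1)
    linear_combination (1 / 2) * p1 + (1 / 2) * p2
  have bg : β.coeff 1 + γ.coeff 2 = 0 := by
    have p1 := k2 1
    have p2 := k2 (-1)
    linear_combination (1 / 2) * p1 - (1 / 2) * p2
  have qa : ∀ s, α.eval s = α.coeff 0 + α.coeff 1 * s + α.coeff 2 * s ^ 2 := eval_of_quad (by
    intro k hk
    rcases Nat.eq_or_lt_of_le hk with h5 | h5
    · rw [← h5]; exact a3
    · exact (h4 k h5).1)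
  have qb : ∀ s, β.eval s = β.coeff 0 + β.coeff 1 * s + β.coeff 2 * s ^ 2 := eval_of_quad (by
    intro k hk
    have := (h4 (k + 1) (by omega)).2.1
    simpa using this)
  have qg : ∀ s, γ.eval s = γ.coeff 0 + γ.coeff 1 * s + γ.coeff 2 * s ^ 2 := eval_of_quad (by
    intro k hk
    rcases Nat.eq_or_lt_of_le hk with h5 | h5
    · rw [← h5]; exact g3
    · exact (h4 k h5).2.2.1)
  have qd : ∀ s, δ.eval s = δ.coeff 0 + δ.coeff 1 * s + δ.coeff 2 * s ^ 2 := eval_of_quad (by
    intro k hk
    have := (h4 (k + 1) (by omega)).2.2.2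
    simpa using this)
  -- `β₂ = δ₂ = 0`
  have b2 : β.coeff 2 = 0 := by
    have h5 := h ![0, 1] ![1, 1]
    rw [Fin.sum_univ_two] at h5
    have e1 : (![0, 1] : Fin 2 → ℂ) + (2 : ℂ) • ![1, 1] = ![2, 3] := by
      funext i
      fin_cases i <;> simp <;> norm_num
    have e2 : (![0, 1] : Fin 2 → ℂ) + ![1, 1] = ![1, 2] := by
      funext i
      fin_cases i <;> simp <;> norm_num
    rw [e1, e2] at h5
    simp only [w0, w1, qa, qb, qg, qd, Matrix.cons_val_zero, Matrix.cons_val_one] at h5
    linear_combination (1 / 2) * h5 - ad - bg - 4 * bd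
  have d2 : δ.coeff 2 = 0 := by linear_combination bd - b2
  -- the matrix
  set τ : ℂ := (α.coeff 1 - γ.coeff 1) / 3 with hτ
  refine ⟨!![τ, β.coeff 1, α.coeff 2; γ.coeff 0, τ + γ.coeff 1, δ.coeff 0;
    - α.coeff 0, - β.coeff 0, τ - α.coeff 1], ?_, ?_⟩
  · simp [Matrix.trace, Fin.sum_univ_three, hτ]
    ring
  · intro z
    have e : z = ![z 0, z 1] := by
      funext i
      fin_cases i <;> rfl
    have f0 : eval z (w 0) = α.eval (z 1) + β.eval (z 1) * z 0 := by
      conv_lhs => rw [e]
      exact w0 _ _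
    have f1 : eval z (w 1) = γ.eval (z 0) + δ.eval (z 0) * z 1 := by
      conv_lhs => rw [e]
      exact w1 _ _
    rw [f0, f1, qa, qb, qg, qd, b2, d2]
    constructor
    · simp [vf, hz, Matrix.mulVec, dotProduct, Fin.sum_univ_three]
      ring
    · simp [vf, hz, Matrix.mulVec, dotProduct, Fin.sum_univ_three]
      linear_combination (z 0) * (z 1) * ad + z 0 ^ 2 * bg

end

end Pool.Agent.Lib.MP_6ff8d9_an.N2
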