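import Pool.Agent.Lib.MP_6ff8d9_an_h23.Kill
import Pool.Agent.Lib.MP_6ff8d9_an_h23.Form
import Pool.Agent.Lib.MP_6ff8d9_an_h23.Aut
import Pool.Agent.Lib.MP_6ff8d9_an_h23.Hfl
import Pool.Agent.Lib.MP_6ff8d9_an_h23.Proj
import Pool.Agent.Lib.MP_6ff8d9_an_h23.Composite
import Pool.Agent.Lib.MP_6ff8d9_an_h22.AlgRows
import Pool.Agent.Lib.MP_6ff8d9_an_h20r.Adm
import Pool.Agent.Lib.MP_6ff8d9_an_h69r.Nodom

/-!
# Assembly of the classification of the rational extreme points in dimension 2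
-/

open Metric Filter Topology MvPolynomial Matrix
open scoped ComplexConjugate

namespace Pool.Agent.Lib.MP_6ff8d9_an.N2

open Pool.Agent.Lib.MP_6ff8d9_an Pool.Agent.Lib.MP_6ff8d9_an.H22

noncomputable section

/-! ## extremality depends only on the ball -/

lemma NB_congr {n : ℕ} {g g' : Cn n → ℂ} (h : ∀ z ∈ ball (0 : Cn n) 1, g z = g' z)
    (hg : g' ∈ NB n) : g ∈ NB n := by
  refine ⟨hg.1.congr h, fun z hz => ?_, ?_⟩
  · rw [h z hz]; exact hg.2.1 z hz
  · rw [h 0 (mem_ball_self one_pos)]; exact hg.2.2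

lemma ext_congr {n : ℕ} {g g' : Cn n → ℂ} (h : ∀ z ∈ ball (0 : Cn n) 1, g z = g' z)
    (hg : IsExtremePoint n g') : IsExtremePoint n g := by
  refine ⟨NB_congr h hg.1, fun g₁ h₁ g₂ h₂ t ht0 ht1 heq => ?_⟩
  exact hg.2 g₁ h₁ g₂ h₂ t ht0 ht1 fun z hz => (h z hz).symm.trans (heq z hz)

lemma nrm_congr {n : ℕ} {g g' : Cn n → ℂ} {φ : Cn n → Cn n}
    (hφ : ∀ z ∈ ball (0 : Cn n) 1, φ z ∈ ball (0 : Cn n) 1)
    (h : ∀ z ∈ ball (0 : Cn n) 1, g z = g' z) {z : Cn n} (hz : z ∈ ball (0 : Cn n) 1) :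
    nrm g φ z = nrm g' φ z := by
  unfold nrm
  rw [h _ (hφ z hz), h _ (hφ 0 (mem_ball_self one_pos))]

/-- normalising twice -/
lemma nrm_nrm {n : ℕ} {g : Cn n → ℂ} {φ ψ : Cn n → Cn n} (hA : BallAut n φ ψ) (hg : g ∈ NB n)
    {z : Cn n} (hz : z ∈ ball (0 : Cn n) 1) : nrm (nrm g φ) ψ z = g z := by
  have h0 : (0 : Cn n) ∈ ball (0 : Cn n) 1 := mem_ball_self one_pos
  set x := (g (φ 0)).re with hx
  set y := (g (φ 0)).im with hy
  have hxpos : 0 < x := hg.2.1 _ (hA.mφ 0 h0)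
  have hx' : (x : ℂ) ≠ 0 := by exact_mod_cast hxpos.ne'
  have e : ∀ w ∈ ball (0 : Cn n) 1, nrm g φ (ψ w) = (g w - Complex.I * y) / (x : ℂ) := by
    intro w hw
    show (g (φ (ψ w)) - Complex.I * y) / (x : ℂ) = _
    rw [hA.right w hw]
  have e0 : nrm g φ (ψ 0) = (1 - Complex.I * y) / (x : ℂ) := by rw [e 0 h0, hg.2.2]
  have e0re : (nrm g φ (ψ 0)).re = 1 / x := by
    rw [e0, Complex.div_ofReal_re]
    simp
  have e0im : (nrm g φ (ψ 0)).im = - y / x := by
    rw [e0, Complex.div_ofReal_im]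
    simp
  show (nrm g φ (ψ z) - Complex.I * ((nrm g φ (ψ 0)).im : ℂ)) / ((nrm g φ (ψ 0)).re : ℂ) = g z
  rw [e z hz, e0re, e0im]
  push_cast
  field_simp
  ring

/-! ## the Cayley transform -/

lemma cay_re_pos {w : ℂ} (h : ‖w‖ < 1) : 0 < ((1 + w) / (1 - w)).re := by
  have h1 : 1 - w ≠ 0 := by
    intro h0
    have : w = 1 := by linear_combination -h0
    rw [this] at h
    simp at h
  have h2 : 0 < Complex.normSq (1 - w) := Complex.normSq_pos.2 h1
  have h3 : Complex.normSq w < 1 := by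
    rw [Complex.normSq_eq_norm_sq]
    nlinarith [norm_nonneg w]
  have e : ((1 + w) / (1 - w)).re = (1 - Complex.normSq w) / Complex.normSq (1 - w) := by
    simp only [Complex.div_re]
    rw [← add_div]
    congr 1
    simp only [Complex.add_re, Complex.one_re, Complex.sub_re, Complex.add_im, Complex.one_im,
      Complex.sub_im, Complex.normSq_apply]
    ring
  rw [e]
  exact div_pos (by linarith) h2

lemma one_sub_ne' {w : ℂ} (h : ‖w‖ < 1) : 1 - w ≠ 0 := by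
  intro h0
  have : w = 1 := by linear_combination -h0
  rw [this] at h
  simp at h

lemma cay_inv_lt {X : ℂ} (h : 0 < X.re) : ‖(X - 1) / (X + 1)‖ < 1 := by
  have h1 : X + 1 ≠ 0 := by
    intro h0
    have := congrArg Complex.re h0
    simp at this
    linarith
  rw [norm_div, div_lt_one (norm_pos_iff.2 h1)]
  have h2 : ‖X - 1‖ ^ 2 < ‖X + 1‖ ^ 2 := by
    rw [← Complex.normSq_eq_norm_sq, ← Complex.normSq_eq_norm_sq, Complex.normSq_apply,
      Complex.normSq_apply]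
    simp only [Complex.sub_re, Complex.add_re, Complex.one_re, Complex.sub_im, Complex.add_im,
      Complex.one_im]
    nlinarith
  exact lt_of_pow_lt_pow_left₀ 2 (norm_nonneg _) h2

/-- `g` extreme, `g = (1+F)/(1-F)` and `F ∘ φ = h ∘ F₀`: then `nrm g φ` is the Cayley transform of
a rotation of `F₀` -/
lemma cmpl {g : Cn 2 → ℂ} (hext : IsExtremePoint 2 g) {φ ψ : Cn 2 → Cn 2} (hA : BallAut 2 φ ψ)
    {F₀ : Cn 2 → ℂ} (hF₀ : DifferentiableOn ℂ F₀ (ball 0 1))
    (hF₀1 : ∀ z ∈ ball (0 : Cn 2) 1, ‖F₀ z‖ < 1) (hF₀0 : F₀ 0 = 0)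
    {h : ℂ → ℂ} (hh : DifferentiableOn ℂ h (ball 0 1)) (hh1 : ∀ w ∈ ball (0 : ℂ) 1, ‖h w‖ < 1)
    (hg : ∀ z ∈ ball (0 : Cn 2) 1, g (φ z) = (1 + h (F₀ z)) / (1 - h (F₀ z))) :
    ∃ c : ℂ, ‖c‖ = 1 ∧ (∀ z ∈ ball (0 : Cn 2) 1, nrm g φ z = (1 + c * F₀ z) / (1 - c * F₀ z)) ∧
      ((∀ w ∈ ball (0 : ℂ) 1, h (-w) = h w) → False) := by
  have h0 : (0 : Cn 2) ∈ ball (0 : Cn 2) 1 := mem_ball_self one_pos
  set x := (g (φ 0)).re with hx
  set y := (g (φ 0)).im with hy
  have hxpos : 0 < x := hext.1.2.1 _ (hA.mφ 0 h0)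
  have hx' : (x : ℂ) ≠ 0 := by exact_mod_cast hxpos.ne'
  -- the function in the half plane
  set K : ℂ → ℂ := fun w => ((1 + h w) / (1 - h w) - Complex.I * y) / (x : ℂ) with hK
  have hKd : DifferentiableOn ℂ K (ball 0 1) := by
    have h1 : DifferentiableOn ℂ (fun w => (1 + h w) / (1 - h w)) (ball 0 1) :=
      ((differentiableOn_const _).add hh).div ((differentiableOn_const _).sub hh)
        fun w hw => one_sub_ne' (hh1 w hw)
    exact (h1.sub_const _).div_const _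
  have hKre : ∀ w ∈ ball (0 : ℂ) 1, 0 < (K w).re := by
    intro w hw
    have h1 := cay_re_pos (hh1 w hw)
    simp only [hK]
    rw [Complex.div_ofReal_re]
    refine div_pos ?_ hxpos
    simpa using h1
  have hKg : ∀ z ∈ ball (0 : Cn 2) 1, nrm g φ z = K (F₀ z) := by
    intro z hz
    show (g (φ z) - Complex.I * y) / (x : ℂ) = _
    rw [hg z hz]
  have hK0 : K 0 = 1 := by
    have h1 := hKg 0 h0
    rw [hF₀0] at h1
    rw [← h1]
    exact (nrm_mem hA.dφ hA.mφ hext.1.1 hext.1.2.1).2.2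
  -- back to the disc
  set k : ℂ → ℂ := fun w => (K w - 1) / (K w + 1) with hk
  have hK1 : ∀ w ∈ ball (0 : ℂ) 1, K w + 1 ≠ 0 := by
    intro w hw h1
    have := congrArg Complex.re h1
    have h2 := hKre w hw
    simp at this
    linarith
  have hkd : DifferentiableOn ℂ k (ball 0 1) := (hKd.sub_const _).div (hKd.add_const _) hK1
  have hk1 : ∀ w ∈ ball (0 : ℂ) 1, ‖k w‖ < 1 := fun w hw => cay_inv_lt (hKre w hw)
  have hk0 : k 0 = 0 := by simp [hk, hK0]
  have hkK : ∀ w ∈ ball (0 : ℂ) 1, (1 + k w) / (1 - k w) = K w := by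
    intro w hw
    have h1 := hK1 w hw
    have h2 : 1 - k w ≠ 0 := one_sub_ne' (hk1 w hw)
    rw [div_eq_iff h2]
    simp only [hk]
    field_simp
    ring
  have hmaps : ∀ z ∈ ball (0 : Cn 2) 1, F₀ z ∈ ball (0 : ℂ) 1 := fun z hz => by
    rw [mem_ball_zero_iff]; exact hF₀1 z hz
  have hext' : IsExtremePoint 2 (fun z => (1 + k (F₀ z)) / (1 - k (F₀ z))) := by
    refine ext_congr ?_ (aut 2 g φ ψ hA hext)
    intro z hz
    show (1 + k (F₀ z)) / (1 - k (F₀ z)) = nrm g φ z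
    rw [hkK _ (hmaps z hz), hKg z hz]
  have hrot : ∃ c : ℂ, ‖c‖ = 1 ∧ ∀ w ∈ ball (0 : ℂ) 1, k w = c * w := by
    by_contra hcon
    exact H23.composite 2 F₀ k (by norm_num) hF₀ hF₀1 hF₀0 hkd hk1 hk0 hcon hext'
  obtain ⟨c, hc, hkc⟩ := hrot
  refine ⟨c, hc, fun z hz => ?_, fun heven => ?_⟩
  · rw [hKg z hz, ← hkK _ (hmaps z hz), hkc _ (hmaps z hz)]
  · have m1 : (1 / 2 : ℂ) ∈ ball (0 : ℂ) 1 := by
      rw [mem_ball_zero_iff]; norm_num
    have m2 : (-(1 / 2) : ℂ) ∈ ball (0 : ℂ) 1 := by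
      rw [mem_ball_zero_iff, norm_neg]; norm_num
    have e1 : k (-(1 / 2)) = k (1 / 2) := by
      simp only [hk, hK, heven _ m1]
    rw [hkc _ m1, hkc _ m2] at e1
    have : c = 0 := by linear_combination -e1
    rw [this, norm_zero] at hc
    norm_num at hc

/-! ## linear substitution -/

/-- `p ∘ A` -/
def sub3 (A : Matrix (Fin 3) (Fin 3) ℂ) (p : MvPolynomial (Fin 3) ℂ) : MvPolynomial (Fin 3) ℂ :=
  aeval (fun i => ∑ j, C (A i j) * X j) p

lemma eval_sub3 (A : Matrix (Fin 3) (Fin 3) ℂ) (p : MvPolynomial (Fin 3) ℂ) (Z : Fin 3 → ℂ) :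
    eval Z (sub3 A p) = eval (A *ᵥ Z) p := by
  unfold sub3
  induction p using MvPolynomial.induction_on with
  | C a => simp
  | add p q hp hq => rw [map_add, map_add, map_add, hp, hq]
  | mul_X p i hp =>
    rw [map_mul, map_mul, hp, map_mul, aeval_X, eval_X]
    congr 1
    simp [Matrix.mulVec, dotProduct]

lemma sub3_hom {N : ℕ} {p : MvPolynomial (Fin 3) ℂ} (hp : p.IsHomogeneous N)
    (A : Matrix (Fin 3) (Fin 3) ℂ) : (sub3 A p).IsHomogeneous N := by
  have h1 : ∀ i, (∑ j, C (A i j) * X j : MvPolynomial (Fin 3) ℂ).IsHomogeneous 1 := by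
    intro i
    refine IsHomogeneous.sum _ _ _ fun j _ => ?_
    have := (isHomogeneous_C (Fin 3) (A i j)).mul (isHomogeneous_X ℂ j)
    rwa [zero_add] at this
  have := hp.aeval (fun i => ∑ j, C (A i j) * X j) h1
  rwa [one_mul] at this

/-- transport of the flow invariance -/
lemma inv3_sub {N : ℕ} {p q : MvPolynomial (Fin 3) ℂ} (hp : p.IsHomogeneous N)
    (hq : q.IsHomogeneous N) {T S A : Matrix (Fin 3) (Fin 3) ℂ} (hA : JU A) {μ : ℂ}
    (hTA : T * A = A * (μ • (1 : Matrix (Fin 3) (Fin 3) ℂ) + S)) (h : Inv3 p q T) :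
    Inv3 (sub3 A p) (sub3 A q) S := by
  intro Z t
  have hS : S = A⁻¹ * T * A - μ • (1 : Matrix (Fin 3) (Fin 3) ℂ) := by
    rw [mul_assoc, hTA, ← mul_assoc, hA.inv_mul, one_mul]
    abel
  have hexp : grp S t = Complex.exp (- (t * μ)) • (A⁻¹ * grp T t * A) := by
    unfold grp
    have h1 : t • S = A⁻¹ * (t • T) * A + (-(t * μ)) • (1 : Matrix (Fin 3) (Fin 3) ℂ) := by
      rw [hS]
      simp only [smul_sub, smul_smul, Matrix.mul_smul, Matrix.smul_mul, neg_smul]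
      abel
    have hcomm : Commute (A⁻¹ * (t • T) * A) ((-(t * μ)) • (1 : Matrix (Fin 3) (Fin 3) ℂ)) :=
      (Commute.one_right _).smul_right _
    rw [h1, Matrix.exp_add_of_commute _ _ hcomm]
    have h2 : NormedSpace.exp (A⁻¹ * (t • T) * A) = A⁻¹ * NormedSpace.exp (t • T) * A :=
      Matrix.exp_conj' A (t • T) ((Matrix.isUnit_iff_isUnit_det _).2 hA.isUnit_det)
    have h3 : NormedSpace.exp ((-(t * μ)) • (1 : Matrix (Fin 3) (Fin 3) ℂ)) =
        Complex.exp (-(t * μ)) • (1 : Matrix (Fin 3) (Fin 3) ℂ) := by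
      have h4 : ((-(t * μ)) • (1 : Matrix (Fin 3) (Fin 3) ℂ)) =
          Matrix.diagonal (fun _ => -(t * μ)) := by
        rw [Matrix.smul_one_eq_diagonal]
      rw [h4, Matrix.exp_diagonal, Matrix.smul_one_eq_diagonal]
      congr 1
      funext i
      rw [Pi.coe_exp, Complex.exp_eq_exp_ℂ]
    rw [h2, h3, Matrix.mul_smul, mul_one]
  have e1 : A *ᵥ (grp S t *ᵥ Z) = Complex.exp (- (t * μ)) • (grp T t *ᵥ (A *ᵥ Z)) := by
    rw [hexp, Matrix.smul_mulVec, Matrix.mulVec_smul, Matrix.mulVec_mulVec, Matrix.mulVec_mulVec,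
      ← mul_assoc, ← mul_assoc, hA.mul_inv, one_mul]
  rw [eval_sub3, eval_sub3, eval_sub3, eval_sub3, e1, eval_smul_hom hp, eval_smul_hom hq]
  have := h (A *ᵥ Z) t
  linear_combination (Complex.exp (- (t * μ))) ^ N * this

lemma differentiable_eval3 (p : MvPolynomial (Fin 3) ℂ) :
    Differentiable ℂ (fun z : Fin 2 → ℂ => eval (hz z) p) := by
  induction p using MvPolynomial.induction_on with
  | C a => simp
  | add p q hp hq =>
    simp only [map_add]
    exact hp.fun_add hq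
  | mul_X p i hp =>
    have : Differentiable ℂ (fun z : Fin 2 → ℂ => hz z i) := by
      fin_cases i
      · exact differentiable_const _
      · show Differentiable ℂ (fun z : Fin 2 → ℂ => z 0)
        fun_prop
      · show Differentiable ℂ (fun z : Fin 2 → ℂ => z 1)
        fun_prop
    simp only [map_mul, eval_X]
    exact hp.fun_mul this

lemma f3_diff {p q : MvPolynomial (Fin 3) ℂ} (h : ∀ z ∈ Bn 2, eval (hz z) q ≠ 0) :
    DifferentiableOn ℂ (f3 p q) (Bn 2) := by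
  intro z hz'
  have h1 : DifferentiableAt ℂ (fun z : Fin 2 → ℂ => (eval (hz z) q)⁻¹) z :=
    (hasFDerivAt_inv (h z hz')).differentiableAt.comp z (differentiable_eval3 q z)
  have h2 := ((differentiable_eval3 p z).fun_mul h1).differentiableWithinAt (s := Bn 2)
  refine h2.congr (fun y _ => ?_) ?_ <;> simp [f3, div_eq_mul_inv]

end

end Pool.Agent.Lib.MP_6ff8d9_an.N2
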