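import Pool.Agent.Lib.MP_6ff8d9_an_h23.Asm

/-!
# Assembly of the classification of the rational extreme points in dimension 2, continued
-/

open Metric Filter Topology MvPolynomial Matrix
open scoped ComplexConjugate

namespace Pool.Agent.Lib.MP_6ff8d9_an.N2

open Pool.Agent.Lib.MP_6ff8d9_an Pool.Agent.Lib.MP_6ff8d9_an.H22

noncomputable section

/-! ## the self-adjoint matrix -/

lemma exists_selfadj (hK : KILL) (hFo : FORM) (hCy : CYC) (hDe : DETZ) (hLi : LINL)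
    {w : Fin 2 → MvPolynomial (Fin 2) ℂ} (hw : SD w) :
    ∃ (T : Matrix (Fin 3) (Fin 3) ℂ) (e : ℂ), dag T = T ∧ Cyc T ∧
      ∀ z : Fin 2 → ℂ, e * eval z (w 0) = - vf T z 1 ∧ e * eval z (w 1) = vf T z 0 := by
  obtain ⟨T, htr, hT⟩ := hFo w (hK w hw)
  have hcyc := hCy w T hw hT
  obtain ⟨lam, mu, hL⟩ := hLi T (dag T) hcyc (hDe w T hw hT)
  have hmu : mu = 0 := by
    have h1 := trace_dag T
    rw [hL, Matrix.trace_add, Matrix.trace_smul, Matrix.trace_smul, htr, Matrix.trace_one] at h1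
    simp at h1
    exact h1
  rw [hmu, zero_smul, add_zero] at hL
  have hT0 : T ≠ 0 := by
    rintro rfl
    obtain ⟨Z, hZ⟩ := hcyc
    apply hZ
    rw [Matrix.det_fin_three]
    simp
  have hlam : lam * conj lam = 1 := by
    have h1 := dag_dag T
    rw [hL, dag_smul, hL, smul_smul] at h1
    have h2 : (conj lam * lam - 1) • T = 0 := by
      rw [sub_smul, h1, one_smul, sub_self]
    have h3 := (smul_eq_zero.1 h2).resolve_right hT0
    linear_combination h3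
  obtain ⟨e, he⟩ := IsAlgClosed.exists_pow_nat_eq lam (n := 2) (by norm_num)
  have hee : e * conj e = 1 := by
    have h1 : (e * conj e) ^ 2 = 1 := by
      rw [mul_pow, ← map_pow, he, hlam]
    have h2 : 0 ≤ (e * conj e).re ∧ (e * conj e).im = 0 := by
      rw [Complex.mul_conj]
      refine ⟨?_, Complex.ofReal_im _⟩
      rw [Complex.ofReal_re]
      exact Complex.normSq_nonneg e
    rcases sq_eq_one_iff.1 h1 with h3 | h3
    · exact h3
    · exfalso
      rw [h3] at h2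
      norm_num at h2
  refine ⟨e • T, e, ?_, ?_, ?_⟩
  · rw [dag_smul, hL, smul_smul, ← he]
    congr 1
    linear_combination e * hee
  · obtain ⟨Z, hZ⟩ := hcyc
    refine ⟨Z, ?_⟩
    have he0 : e ≠ 0 := by
      rintro rfl
      simp at hee
    have h1 : (Matrix.of ![Z, (e • T) *ᵥ Z, (e • T) *ᵥ ((e • T) *ᵥ Z)]).det =
        e ^ 3 * (Matrix.of ![Z, T *ᵥ Z, T *ᵥ (T *ᵥ Z)]).det := by
      simp only [Matrix.smul_mulVec, Matrix.mulVec_smul, smul_smul]
      rw [Matrix.det_fin_three, Matrix.det_fin_three]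
      simp
      ring
    rw [h1]
    exact mul_ne_zero (pow_ne_zero _ he0) hZ
  · intro z
    obtain ⟨h1, h2⟩ := hT z
    have h3 : ∀ i, vf (e • T) z i = e * vf T z i := by
      intro i
      fin_cases i
      · simp only [vf, Matrix.smul_mulVec, Pi.smul_apply, smul_eq_mul]
        simp
        ring
      · simp only [vf, Matrix.smul_mulVec, Pi.smul_apply, smul_eq_mul]
        simp
        ring
    rw [h1, h2, h3, h3]
    constructor <;> ring

/-! ## the frame of a `J`-unitary matrix -/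

/-- everything which is common to the four cases -/
structure Frame (g : Cn 2 → ℂ) (A : Matrix (Fin 3) (Fin 3) ℂ) (f : (Fin 2 → ℂ) → ℂ) : Prop where
  diff : DifferentiableOn ℂ f (Bn 2)
  lt : ∀ z ∈ Bn 2, ‖f z‖ < 1
  eq : ∀ z ∈ ball (0 : Cn 2) 1, g (WithLp.toLp 2 (act A (fun i => z i))) =
    (1 + f (fun i => z i)) / (1 - f (fun i => z i))
  nc : ¬ ∀ z ∈ Bn 2, f z = f 0

lemma gPQ_eq {P Q : MvPolynomial (Fin 2) ℂ} {z : Fin 2 → ℂ} (hQ : eval z Q ≠ 0) :
    (eval z Q + eval z P) / (eval z Q - eval z P) =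
      (1 + eval z P / eval z Q) / (1 - eval z P / eval z Q) := by
  by_cases h : eval z Q - eval z P = 0
  · have h1 : 1 - eval z P / eval z Q = 0 := by
      rw [sub_eq_zero] at h ⊢
      rw [← h, div_self hQ]
    rw [h, h1, div_zero, div_zero]
  · have h1 : 1 - eval z P / eval z Q ≠ 0 := by
      intro h2
      apply h
      have h3 : (1 - eval z P / eval z Q) * eval z Q = 0 := by rw [h2, zero_mul]
      rw [sub_mul, one_mul, div_mul_cancel₀ _ hQ] at h3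
      exact h3
    rw [div_eq_div_iff h h1]
    field_simp

lemma frame {P Q : MvPolynomial (Fin 2) ℂ} (hext : IsExtremePoint 2 (gPQ P Q)) (hAd : Adm0 P Q)
    {N : ℕ} {p q : MvPolynomial (Fin 3) ℂ} (hp : p.IsHomogeneous N) (hq : q.IsHomogeneous N)
    (hpq : ∀ z : Fin 2 → ℂ, eval (hz z) p = eval z P ∧ eval (hz z) q = eval z Q)
    {A : Matrix (Fin 3) (Fin 3) ℂ} (hA : JU A) :
    (∀ z ∈ Bn 2, eval (hz z) (sub3 A q) ≠ 0) ∧
      Frame (gPQ P Q) A (f3 (sub3 A p) (sub3 A q)) := by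
  have hQne : ∀ z ∈ Bn 2, eval z Q ≠ 0 := by
    intro z hz' h0
    have := hAd.lt z hz'
    rw [h0, norm_zero] at this
    exact absurd this (not_lt.2 (norm_nonneg _))
  have hev : ∀ z ∈ Bn 2, ∀ (r : MvPolynomial (Fin 3) ℂ), r.IsHomogeneous N →
      eval (hz z) (sub3 A r) = ((A *ᵥ hz z) 0) ^ N * eval (hz (act A z)) r := by
    intro z hz' r hr
    rw [eval_sub3, ← eval_smul_hom hr]
    congr 2
    rw [act, hz_pr (hA.act_mem hz').1, smul_smul, mul_inv_cancel₀ (hA.act_mem hz').1, one_smul]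
  have hne : ∀ z ∈ Bn 2, eval (hz z) (sub3 A q) ≠ 0 := by
    intro z hz'
    rw [hev z hz' q hq, (hpq _).2]
    exact mul_ne_zero (pow_ne_zero _ (hA.act_mem hz').1) (hQne _ (hA.act_mem hz').2)
  have hf : ∀ z ∈ Bn 2, f3 (sub3 A p) (sub3 A q) z = fr P Q (act A z) := by
    intro z hz'
    rw [f3, hev z hz' p hp, hev z hz' q hq, (hpq _).1, (hpq _).2,
      mul_div_mul_left _ _ (pow_ne_zero _ (hA.act_mem hz').1)]
    rfl
  have hFlt : ∀ z ∈ Bn 2, ‖fr P Q z‖ < 1 := by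
    intro z hz'
    rw [fr, norm_div, div_lt_one (norm_pos_iff.2 (hQne z hz'))]
    exact hAd.lt z hz'
  refine ⟨hne, f3_diff hne, ?_, ?_, ?_⟩
  · intro z hz'
    rw [hf z hz']
    exact hFlt _ (hA.act_mem hz').2
  · intro z hz'
    have hz1 := ball_iff.1 hz'
    rw [hf _ hz1]
    exact gPQ_eq (hQne _ (hA.act_mem hz1).2)
  · intro hcon
    refine H23.one_not_extreme (n := 2) (by norm_num) (gPQ P Q) ?_ hext
    have h0 : (0 : Fin 2 → ℂ) ∈ Bn 2 := by
      rw [mem_Bn2]; simp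
    have hF : ∀ z ∈ Bn 2, fr P Q z = f3 (sub3 A p) (sub3 A q) 0 := by
      intro z hz'
      have h1 := (proj A hA).1 z hz'
      rw [← hcon _ h1.2.2.2.2.1, hf _ h1.2.2.2.2.1, h1.2.2.2.1]
    have hF0 : fr P Q 0 = 0 := by
      rw [fr, hAd.zero, zero_div]
    intro z hz'
    have h2 : fr P Q (fun i => z i) = 0 := by
      rw [hF _ (ball_iff.1 hz'), ← hF 0 h0, hF0]
    have h3 : gPQ P Q z = (1 + fr P Q (fun i => z i)) / (1 - fr P Q (fun i => z i)) :=
      gPQ_eq (hQne _ (ball_iff.1 hz'))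
    rw [h3, h2]
    simp

/-- conclusion of a case -/
lemma frame_end {g : Cn 2 → ℂ} (hext : IsExtremePoint 2 g) {A : Matrix (Fin 3) (Fin 3) ℂ}
    (hA : JU A) {f : (Fin 2 → ℂ) → ℂ} (hfr : Frame g A f) {F₀ : (Fin 2 → ℂ) → ℂ}
    (hF₀ : DifferentiableOn ℂ (fun z : Cn 2 => F₀ (fun i => z i)) (ball 0 1))
    (hF₀1 : ∀ z ∈ Bn 2, ‖F₀ z‖ < 1) (hF₀0 : F₀ 0 = 0)
    {h : ℂ → ℂ} (hh : DifferentiableOn ℂ h (ball 0 1)) (hh1 : ∀ w ∈ ball (0 : ℂ) 1, ‖h w‖ < 1)
    (heq : ∀ z ∈ Bn 2, f z = h (F₀ z)) :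
    ∃ c : ℂ, ‖c‖ = 1 ∧ (∃ φ ψ : Cn 2 → Cn 2, BallAut 2 φ ψ ∧ ∀ z ∈ ball (0 : Cn 2) 1,
      g z = nrm (fun z => (1 + c * F₀ (fun i => z i)) / (1 - c * F₀ (fun i => z i))) φ z) ∧
      ((∀ w ∈ ball (0 : ℂ) 1, h (-w) = h w) → False) := by
  have hB := (proj A hA).2
  obtain ⟨c, hc, h1, h2⟩ := cmpl hext hB (F₀ := fun z => F₀ (fun i => z i)) hF₀
    (fun z hz' => hF₀1 _ (ball_iff.1 hz')) (by
      have : (fun i => (0 : Cn 2) i) = (0 : Fin 2 → ℂ) := by funext i; simp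
      show F₀ (fun i => (0 : Cn 2) i) = 0
      rw [this, hF₀0]) hh hh1 (by
      intro z hz'
      rw [hfr.eq z hz', heq _ (ball_iff.1 hz')])
  refine ⟨c, hc, ⟨_, _, ⟨hB.dψ, hB.dφ, hB.mψ, hB.mφ, hB.right, hB.left⟩, ?_⟩, h2⟩
  intro z hz'
  rw [← nrm_nrm hB hext.1 hz']
  exact nrm_congr hB.mψ h1 hz'

end

end Pool.Agent.Lib.MP_6ff8d9_an.N2
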