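import Pool.Agent.Lib.MP_6ff8d9_an_h23.Asm2
import Pool.Agent.Lib.MP_6ff8d9_an_h50.Xext

/-!
# Assembly of the classification of the rational extreme points in dimension 2, end
-/

open Metric Filter Topology MvPolynomial Matrix
open scoped ComplexConjugate

namespace Pool.Agent.Lib.MP_6ff8d9_an.N2

open Pool.Agent.Lib.MP_6ff8d9_an Pool.Agent.Lib.MP_6ff8d9_an.H22

noncomputable section

lemma coord_diff (i : Fin 2) : Differentiable ℂ (fun z : Cn 2 => z i) :=
  (EuclideanSpace.proj (𝕜 := ℂ) (ι := Fin 2) i).differentiable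

/-- a sharp constant exists -/
lemma exists_sharp {a b : ℕ} (ha : 1 ≤ a) (hb : 1 ≤ b) : ∃ c : ℂ, Sharp a b c := by
  have ha' : (0 : ℝ) < a := by exact_mod_cast ha
  have hb' : (0 : ℝ) < b := by exact_mod_cast hb
  set M : ℝ := ((a : ℝ) + b) ^ (a + b) / ((a : ℝ) ^ a * (b : ℝ) ^ b) with hM
  have hM0 : 0 ≤ M := by positivity
  refine ⟨((√M : ℝ) : ℂ), ?_⟩
  unfold Sharp
  rw [Complex.norm_real, Real.norm_of_nonneg (Real.sqrt_nonneg _), Real.sq_sqrt hM0, hM]
  have : (a : ℝ) ^ a * (b : ℝ) ^ b ≠ 0 := by positivity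
  field_simp

lemma mono_diff (a b : ℕ) (c : ℂ) :
    DifferentiableOn ℂ (fun z : Cn 2 => c * z 0 ^ a * z 1 ^ b) (ball 0 1) :=
  (((differentiable_const c).mul ((coord_diff 0).pow a)).mul ((coord_diff 1).pow b)).differentiableOn

/-- the torus action -/
lemma inv3_torus {p q : MvPolynomial (Fin 3) ℂ} {N : ℕ} (hp : p.IsHomogeneous N)
    (hq : q.IsHomogeneous N) (hne : ∀ z ∈ Bn 2, eval (hz z) q ≠ 0) {t : Fin 3 → ℝ}
    (h : Inv3 p q (Matrix.diagonal (fun i => (t i : ℂ)))) {z : Fin 2 → ℂ} (hz' : z ∈ Bn 2)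
    (s : ℝ) :
    f3 p q ![Complex.exp (s * (t 1 - t 0 : ℝ) * Complex.I) * z 0,
      Complex.exp (s * (t 2 - t 0 : ℝ) * Complex.I) * z 1] = f3 p q z := by
  set z' : Fin 2 → ℂ := ![Complex.exp (s * (t 1 - t 0 : ℝ) * Complex.I) * z 0,
      Complex.exp (s * (t 2 - t 0 : ℝ) * Complex.I) * z 1] with hz''
  have hn : ∀ r : ℝ, ‖Complex.exp (s * r * Complex.I)‖ = 1 := by
    intro r
    have : (s : ℂ) * r * Complex.I = ((s * r : ℝ) : ℂ) * Complex.I := by push_cast; ring
    rw [this, Complex.norm_exp_ofReal_mul_I]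
  have hmem : z' ∈ Bn 2 := by
    rw [mem_Bn2] at hz' ⊢
    simp only [hz'', Matrix.cons_val_zero, Matrix.cons_val_one, norm_mul, hn, one_mul]
    exact hz'
  have hg : grp (Matrix.diagonal (fun i => (t i : ℂ))) ((s : ℂ) * Complex.I) *ᵥ hz z =
      Complex.exp (s * t 0 * Complex.I) • hz z' := by
    have h1 : ((s : ℂ) * Complex.I) • Matrix.diagonal (fun i => (t i : ℂ)) =
        Matrix.diagonal (fun i => (s : ℂ) * Complex.I * t i) := by
      rw [← Matrix.diagonal_smul]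
      rfl
    unfold grp
    rw [h1, Matrix.exp_diagonal]
    funext i
    rw [Matrix.mulVec_diagonal, Pi.coe_exp, ← Complex.exp_eq_exp_ℂ]
    fin_cases i
    · simp [hz]
      congr 1
      ring
    · simp only [hz, hz'', Pi.smul_apply, smul_eq_mul]
      simp only [Fin.mk_one, Matrix.cons_val_one, Matrix.cons_val_zero]
      rw [← mul_assoc, ← Complex.exp_add]
      congr 2
      push_cast
      ring
    · simp only [hz, hz'', Pi.smul_apply, smul_eq_mul]
      simp only [Fin.reduceFinMk, Matrix.cons_val]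
      rw [← mul_assoc, ← Complex.exp_add]
      congr 2
      push_cast
      ring
  have h2 := h (hz z) ((s : ℂ) * Complex.I)
  rw [hg, eval_smul_hom hp, eval_smul_hom hq] at h2
  have hE : Complex.exp (s * t 0 * Complex.I) ^ N ≠ 0 := pow_ne_zero _ (Complex.exp_ne_zero _)
  unfold f3
  rw [div_eq_div_iff (hne _ hmem) (hne _ hz')]
  have h3 : Complex.exp (s * t 0 * Complex.I) ^ N *
      (eval (hz z') p * eval (hz z) q - eval (hz z) p * eval (hz z') q) = 0 := by
    linear_combination h2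
  exact sub_eq_zero.1 ((mul_eq_zero.1 h3).resolve_left hE)

/-- `sq2` on the ball -/
lemma sq2_re {z : Fin 2 → ℂ} (hz' : z ∈ Bn 2) : 0 < (1 + z 0 ^ 2).re := by
  rw [mem_Bn2] at hz'
  have h1 : ‖z 0 ^ 2‖ < 1 := by
    rw [norm_pow]
    nlinarith [sq_nonneg ‖z 1‖]
  have h2 := (abs_le.1 (Complex.abs_re_le_norm (z 0 ^ 2))).1
  rw [Complex.add_re, Complex.one_re]
  linarith

lemma sq2_lt {z : Fin 2 → ℂ} (hz' : z ∈ Bn 2) : ‖sq2 z‖ < 1 := by
  have h0 := sq2_re hz'
  have hne : 1 + z 0 ^ 2 ≠ 0 := by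
    intro h
    rw [h] at h0
    simp at h0
  set s := (1 + z 0 ^ 2) ^ (1 / 2 : ℂ) with hs
  have hs2 : s ^ 2 = 1 + z 0 ^ 2 := by
    rw [hs, ← Complex.cpow_nat_mul]
    norm_num
  have hsn : ‖s‖ ^ 2 = ‖1 + z 0 ^ 2‖ := by rw [← norm_pow, hs2]
  have h1 : 1 - ‖z 0‖ ^ 2 ≤ ‖1 + z 0 ^ 2‖ := by
    have := norm_sub_norm_le (1 : ℂ) (-(z 0 ^ 2))
    rw [norm_neg, norm_pow, norm_one, sub_neg_eq_add] at this
    exact this
  rw [mem_Bn2] at hz'
  have hs0 : s ≠ 0 := by
    intro h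
    rw [h] at hs2
    apply hne
    rw [← hs2]
    ring
  show ‖z 1 / s‖ < 1
  rw [norm_div, div_lt_one (norm_pos_iff.2 hs0)]
  refine lt_of_pow_lt_pow_left₀ 2 (norm_nonneg _) ?_
  rw [hsn]
  linarith

lemma sq2_diff : DifferentiableOn ℂ (fun z : Cn 2 => sq2 (fun i => z i)) (ball 0 1) := by
  intro z hz'
  have h0 := sq2_re (ball_iff.1 hz')
  have hsl : (1 + z 0 ^ 2) ∈ Complex.slitPlane := Or.inl h0
  have h1 : DifferentiableAt ℂ (fun z : Cn 2 => 1 + z 0 ^ 2) z :=
    ((differentiable_const _).add ((coord_diff 0).pow 2)) z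
  have h2 : DifferentiableAt ℂ (fun z : Cn 2 => (1 + z 0 ^ 2) ^ (1 / 2 : ℂ)) z :=
    h1.cpow (differentiableAt_const _) hsl
  have hne : (1 + z 0 ^ 2) ^ (1 / 2 : ℂ) ≠ 0 := by
    intro h
    rw [Complex.cpow_eq_zero_iff] at h
    rw [h.1] at h0
    simp at h0
  have h3 : DifferentiableAt ℂ (fun z : Cn 2 => ((1 + z 0 ^ 2) ^ (1 / 2 : ℂ))⁻¹) z :=
    (hasFDerivAt_inv hne).differentiableAt.comp z h2
  have h4 := ((coord_diff 1 z).fun_mul h3).differentiableWithinAt (s := ball (0 : Cn 2) 1)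
  refine h4.congr (fun y _ => ?_) ?_ <;> simp [sq2, div_eq_mul_inv]

lemma fX_diff : DifferentiableOn ℂ (fun z : Cn 2 => fX (fun i => z i)) (ball 0 1) := by
  intro z hz'
  have hne := H50X.den_ne hz'
  have c0 := coord_diff 0
  have c1 := coord_diff 1
  have h1 : Differentiable ℂ (fun z : Cn 2 => 2 * (1 - z 0) - z 1 ^ 2) := by fun_prop
  have h2 : Differentiable ℂ (fun z : Cn 2 => 2 * z 0 * (1 - z 0) - z 1 ^ 2) := by fun_prop
  have h3 : DifferentiableAt ℂ (fun z : Cn 2 => (2 * (1 - z 0) - z 1 ^ 2)⁻¹) z :=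
    (hasFDerivAt_inv hne).differentiableAt.comp z (h1 z)
  have h4 := ((h2 z).fun_mul h3).differentiableWithinAt (s := ball (0 : Cn 2) 1)
  refine h4.congr (fun y _ => ?_) ?_ <;> simp [fX, div_eq_mul_inv]

/-- restricting `f` to a coordinate axis -/
lemma axis_diff {f : (Fin 2 → ℂ) → ℂ} (hf : DifferentiableOn ℂ f (Bn 2)) (l : ℂ → Fin 2 → ℂ)
    (hl : Differentiable ℂ l) (hm : ∀ w ∈ ball (0 : ℂ) 1, l w ∈ Bn 2) :
    DifferentiableOn ℂ (fun w => f (l w)) (ball 0 1) :=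
  hf.comp hl.differentiableOn hm

/-- the core: necessity -/
theorem only_if (hR : RED) (hCy : CYC) (hDe : DETZ) (hLi : LINL) (hKH : KH) (hKP2 : KP2)
    (hKP3 : KP3) (hNFE : NFE) (hNFB : NFB) (hNFN : NFN) (hTOR : TOR) (hMAX : MAXM)
    (P Q : MvPolynomial (Fin 2) ℂ) (hfin : {z : Fin 2 → ℂ | eval z P = 0 ∧ eval z Q = 0}.Finite)
    (hext : IsExtremePoint 2 (gPQ P Q)) :
    ∃ (G : Cn 2 → ℂ) (φ ψ : Cn 2 → Cn 2), ListTwo G ∧ BallAut 2 φ ψ ∧
      ∀ z ∈ ball (0 : Cn 2) 1, gPQ P Q z = nrm G φ z := by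
  have hAd : Adm0 P Q := (H20R.adm 2 P Q (by norm_num) hext.1).1
  have hDual : Dual P Q := final1 nodom H20R.adm 2 P Q (by norm_num) hext
  obtain ⟨G₀, w, hG₀, hW, hw⟩ := hR P Q hfin hDual
  obtain ⟨T, e, hdag, hcyc, hVT⟩ := exists_selfadj kill form hCy hDe hLi hw
  have hWV : ∀ z : Fin 2 → ℂ,
      eval z (Wr P Q 0) * vf T z 0 + eval z (Wr P Q 1) * vf T z 1 = 0 := by
    intro z
    obtain ⟨h1, h2⟩ := hVT z
    have h1' : vf T z 1 = - (e * eval z (w 0)) := by rw [h1, neg_neg]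
    rw [hW 0, hW 1, map_mul, map_mul, ← h2, h1']
    ring
  obtain ⟨N, p, q, hp, hq, hpq⟩ := homg P Q
  have hI := hfl P Q T N p q hp hq hpq hWV
  by_cases hneg : ∃ (v : Fin 3 → ℂ) (t : ℂ), T *ᵥ v = t • v ∧ (herm v v).re < 0
  · -- case E
    obtain ⟨A, t, hA, hTA, hinj⟩ := hNFE T hdag hcyc hneg
    have hA' : JU A := hA
    obtain ⟨hne, hfr⟩ := frame hext hAd hp hq hpq hA'
    have hI' : Inv3 (sub3 A p) (sub3 A q) (Matrix.diagonal (fun i => (t i : ℂ))) :=
      inv3_sub hp hq hA' (μ := 0) (by rw [zero_smul, zero_add]; exact hTA) hI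
    have hα : t 1 - t 0 ≠ 0 := sub_ne_zero.2 fun h => absurd (hinj h) (by decide)
    have hβ : t 2 - t 0 ≠ 0 := sub_ne_zero.2 fun h => absurd (hinj h) (by decide)
    obtain ⟨a, b, ha, hb, hab, hall⟩ := hTOR (f3 (sub3 A p) (sub3 A q)) (t 1 - t 0) (t 2 - t 0)
      hfr.diff hfr.lt hα hβ
      (fun z hz' s => inv3_torus (sub3_hom hp A) (sub3_hom hq A) hne hI' hz' s) (by
        have := hfr.nc
        push Not at this
        exact this)
    obtain ⟨c₀, hc₀⟩ := exists_sharp ha hb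
    obtain ⟨h, hh, hh1, heq⟩ := hall c₀ hc₀
    obtain ⟨c, hc, ⟨φ, ψ, hB, hg⟩, -⟩ := frame_end hext hA' hfr
      (F₀ := fun z => c₀ * z 0 ^ a * z 1 ^ b) (mono_diff a b c₀)
      (fun z hz' => hMAX a b c₀ ha hb hc₀ z hz') (by
        have : (0 : ℂ) ^ a = 0 := zero_pow (by omega)
        simp [this]) hh hh1 heq
    refine ⟨gmon a b (c * c₀), φ, ψ, Or.inl ⟨a, b, c * c₀, ha, hb, hab, ?_, rfl⟩, hB, ?_⟩
    · unfold Sharp at hc₀ ⊢
      rw [norm_mul, hc, one_mul]
      exact hc₀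
    · intro z hz'
      rw [hg z hz']
      have e1 : (fun z : Cn 2 => (1 + c * (c₀ * z 0 ^ a * z 1 ^ b)) /
          (1 - c * (c₀ * z 0 ^ a * z 1 ^ b))) = gmon a b (c * c₀) := by
        funext y
        simp only [gmon, mul_assoc]
      rw [← e1]
  · push Not at hneg
    by_cases hpos : ∃ (v : Fin 3 → ℂ) (t : ℂ), T *ᵥ v = t • v ∧ 0 < (herm v v).re
    · -- cases H and P2
      exfalso
      obtain ⟨A, μ, τ, b, hA, hb, hcase⟩ := hNFB T hdag hcyc hneg hpos
      have hA' : JU A := hA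
      obtain ⟨hne, hfr⟩ := frame hext hAd hp hq hpq hA'
      rcases hcase with hTA | ⟨hτ, hTA⟩
      · have hI' : Inv3 (sub3 A p) (sub3 A q) (hmat τ b) := inv3_sub hp hq hA' hTA hI
        rcases hKH N _ _ τ b hb (sub3_hom hp A) (sub3_hom hq A) hne hI' with h1 | ⟨h1, h2⟩
        · exact hfr.nc h1
        · have hl : Differentiable ℂ (fun w : ℂ => (![0, w] : Fin 2 → ℂ)) := by
            rw [differentiable_pi]
            intro i
            fin_cases i
            · exact differentiable_const _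
            · exact differentiable_id
          have hlm : ∀ w ∈ ball (0 : ℂ) 1, (![0, w] : Fin 2 → ℂ) ∈ Bn 2 := by
            intro w hw'
            rw [mem_ball_zero_iff] at hw'
            rw [mem_Bn2]
            simp only [Matrix.cons_val_zero, Matrix.cons_val_one, norm_zero]
            nlinarith [norm_nonneg w]
          obtain ⟨c, hc, -, hev⟩ := frame_end hext hA' hfr (F₀ := sq2) sq2_diff
            (fun z hz' => sq2_lt hz') (by simp [sq2])
            (h := fun w => f3 (sub3 A p) (sub3 A q) ![0, w])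
            (axis_diff hfr.diff _ hl hlm) (fun w hw' => hfr.lt _ (hlm w hw')) h1
          exact hev fun w hw' => h2 w (by rwa [mem_ball_zero_iff] at hw')
      · have hI' : Inv3 (sub3 A p) (sub3 A q) (pmat τ b) := inv3_sub hp hq hA' hTA hI
        exact hfr.nc (hKP2 N _ _ τ b hb hτ (sub3_hom hp A) (sub3_hom hq A) hne hI')
    · -- case P3
      push Not at hpos
      obtain ⟨A, μ, c₁, hA, hc₁, hTA⟩ := hNFN T hdag hcyc
        (fun v t hv => le_antisymm (hpos v t hv) (hneg v t hv))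
      have hA' : JU A := hA
      obtain ⟨hne, hfr⟩ := frame hext hAd hp hq hpq hA'
      have hI' : Inv3 (sub3 A p) (sub3 A q) (nmat c₁) := inv3_sub hp hq hA' hTA hI
      have h1 := hKP3 N _ _ c₁ hc₁ (sub3_hom hp A) (sub3_hom hq A) hne hI'
      have hl : Differentiable ℂ (fun w : ℂ => (![w, 0] : Fin 2 → ℂ)) := by
        rw [differentiable_pi]
        intro i
        fin_cases i
        · exact differentiable_id
        · exact differentiable_const _
      have hlm : ∀ w ∈ ball (0 : ℂ) 1, (![w, 0] : Fin 2 → ℂ) ∈ Bn 2 := by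
        intro w hw'
        rw [mem_ball_zero_iff] at hw'
        rw [mem_Bn2]
        simp only [Matrix.cons_val_zero, Matrix.cons_val_one, norm_zero]
        nlinarith [norm_nonneg w]
      obtain ⟨c, hc, ⟨φ, ψ, hB, hg⟩, -⟩ := frame_end hext hA' hfr (F₀ := fX) fX_diff
        (fun z hz' => by
          have := H50X.fX_lt (z := WithLp.toLp 2 z) (ball_iff.2 hz')
          exact this) (by simp [fX])
        (h := fun w => f3 (sub3 A p) (sub3 A q) ![w, 0])
        (axis_diff hfr.diff _ hl hlm) (fun w hw' => hfr.lt _ (hlm w hw')) h1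
      refine ⟨gX c, φ, ψ, Or.inr ⟨c, hc, rfl⟩, hB, ?_⟩
      intro z hz'
      rw [hg z hz']
      rfl

/-- the final theorem, from the rows -/
theorem final_two (hC : COPR) (hR : RED) (hCy : CYC) (hDe : DETZ) (hLi : LINL) (hKH : KH)
    (hKP2 : KP2) (hKP3 : KP3) (hNFE : NFE) (hNFB : NFB) (hNFN : NFN) (hTOR : TOR) (hMAX : MAXM)
    (hMO : MONO) (hX : XEXT) : FINALTWO := by
  intro p q
  constructor
  · intro hext
    set P₀ := p - q with hP₀
    set Q₀ := p + q with hQ₀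
    have hgpq : (fun z : Cn 2 => eval (fun i => z i) p / eval (fun i => z i) q) = gPQ P₀ Q₀ := by
      funext z
      simp only [gPQ, hP₀, hQ₀, map_add, map_sub]
      have e1 : eval (fun i => z i) p + eval (fun i => z i) q +
          (eval (fun i => z i) p - eval (fun i => z i) q) = 2 * eval (fun i => z i) p := by ring
      have e2 : eval (fun i => z i) p + eval (fun i => z i) q -
          (eval (fun i => z i) p - eval (fun i => z i) q) = 2 * eval (fun i => z i) q := by ring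
      rw [e1, e2, mul_div_mul_left _ _ two_ne_zero]
    rw [hgpq] at hext
    have hAd : Adm0 P₀ Q₀ := (H20R.adm 2 P₀ Q₀ (by norm_num) hext.1).1
    have hQne : ∀ z ∈ Bn 2, eval z Q₀ ≠ 0 := by
      intro z hz' h0
      have := hAd.lt z hz'
      rw [h0, norm_zero] at this
      exact absurd this (not_lt.2 (norm_nonneg _))
    have hQ0 : Q₀ ≠ 0 := by
      intro h
      have h0 : (0 : Fin 2 → ℂ) ∈ Bn 2 := by rw [mem_Bn2]; simp
      exact hQne 0 h0 (by rw [h, map_zero])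
    obtain ⟨H, P, Q, hP, hQ, hfin⟩ := hC P₀ Q₀ (Or.inr hQ0)
    have hcong : ∀ z ∈ ball (0 : Cn 2) 1, gPQ P Q z = gPQ P₀ Q₀ z := by
      intro z hz'
      have h1 := hQne _ (ball_iff.1 hz')
      have h2 : eval (fun i => z i) H ≠ 0 := by
        intro h
        apply h1
        rw [hQ, map_mul, h, zero_mul]
      simp only [gPQ, hP, hQ, map_mul]
      rw [← mul_add, ← mul_sub, mul_div_mul_left _ _ h2]
    have hext' : IsExtremePoint 2 (gPQ P Q) := ext_congr hcong hext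
    obtain ⟨G, φ, ψ, hG, hB, hg⟩ := only_if hR hCy hDe hLi hKH hKP2 hKP3 hNFE hNFB hNFN hTOR hMAX
      P Q hfin hext'
    refine ⟨G, φ, ψ, hG, hB, fun z hz' => ?_⟩
    have h1 := congrFun hgpq z
    simp only at h1
    rw [h1, ← hcong z hz', hg z hz']
  · rintro ⟨G, φ, ψ, hG, hB, hg⟩
    have hGe : IsExtremePoint 2 G := by
      rcases hG with ⟨a, b, c, ha, hb, hab, hc, rfl⟩ | ⟨c, hc, rfl⟩
      · exact hMO a b c ha hb hab hc
      · exact hX c hc
    exact ext_congr hg (aut 2 G φ ψ hB hGe)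

end

end Pool.Agent.Lib.MP_6ff8d9_an.N2
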