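import Pool.Agent.Lib.MP_6ff8d9_an_h23.Asm3
import Pool.Agent.Lib.MP_6ff8d9_an_h21r.N2Copr
import Pool.Agent.Lib.MP_6ff8d9_an_h21r.N2Red
import Pool.Agent.Lib.MP_6ff8d9_an_h21r.N2Cyc
import Pool.Agent.Lib.MP_6ff8d9_an_h33.KH
import Pool.Agent.Lib.MP_6ff8d9_an_h33.KP2
import Pool.Agent.Lib.MP_6ff8d9_an_h33.KP3
import Pool.Agent.Lib.MP_6ff8d9_an_h16.Nfe
import Pool.Agent.Lib.MP_6ff8d9_an_h16.Nfb
import Pool.Agent.Lib.MP_6ff8d9_an_h1.Tor
import Pool.Agent.Lib.MP_6ff8d9_an_h50.Mono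
import Pool.Agent.Lib.MP_6ff8d9_an_h50.Xext
import Pool.Agent.Lib.MP_6ff8d9_an_h11.Linl
import Pool.Agent.Lib.MP_6ff8d9_an_h11.Nfn

/-!
# The classification of the rational extreme points in dimension 2
-/

open Metric Filter Topology MvPolynomial Matrix
open scoped ComplexConjugate

namespace Pool.Agent.Lib.MP_6ff8d9_an.N2

open Pool.Agent.Lib.MP_6ff8d9_an Pool.Agent.Lib.MP_6ff8d9_an.H22

theorem finaltwo : FINALTWO :=
  final_two copr red cyc detz linl kh kp2 kp3 nfe nfb nfn tor H50M.maxm H50M.mono H50X.xext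

end Pool.Agent.Lib.MP_6ff8d9_an.N2
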