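import Pool.Agent.Lib.MP_6ff8d9_an_h23.N2Rows

/-!
# Row KILL: on every line `y·w` is affine
-/

open Metric Filter Topology MvPolynomial
open scoped ComplexConjugate

namespace Pool.Agent.Lib.MP_6ff8d9_an.N2

open Pool.Agent.Lib.MP_6ff8d9_an Pool.Agent.Lib.MP_6ff8d9_an.H22

noncomputable section

/-- conjugated pair -/
def wb (w : Fin 2 → MvPolynomial (Fin 2) ℂ) (j : Fin 2) : MvPolynomial (Fin 2) ℂ :=
  map (starRingEnd ℂ) (w j)

lemma eval_conj (p : MvPolynomial (Fin 2) ℂ) (z : Fin 2 → ℂ) :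
    eval z (map (starRingEnd ℂ) p) = conj (eval (fun i => conj (z i)) p) := by
  induction p using MvPolynomial.induction_on with
  | C a => simp
  | add p q hp hq => simp [hp, hq]
  | mul_X p i hp => simp [hp]

/-- `w/ρ` -/
def eta (w : Fin 2 → MvPolynomial (Fin 2) ℂ) (z : Fin 2 → ℂ) : Fin 2 → ℂ :=
  fun j => eval z (w j) / eval z (rho w)

lemma eval_rho (w : Fin 2 → MvPolynomial (Fin 2) ℂ) (z : Fin 2 → ℂ) :
    eval z (rho w) = z 0 * eval z (w 0) + z 1 * eval z (w 1) := by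
  simp [rho]

lemma eval_wb (w : Fin 2 → MvPolynomial (Fin 2) ℂ) (z : Fin 2 → ℂ) (j : Fin 2) :
    eval z (wb w j) = conj (eval (fun i => conj (z i)) (w j)) := eval_conj _ _

lemma eval_rho_wb (w : Fin 2 → MvPolynomial (Fin 2) ℂ) (z : Fin 2 → ℂ) :
    eval z (rho (wb w)) = conj (eval (fun i => conj (z i)) (rho w)) := by
  simp [eval_rho, eval_wb]

lemma psi_eq (w : Fin 2 → MvPolynomial (Fin 2) ℂ) (z : Fin 2 → ℂ) :
    psi w z = fun i => conj (eta w z i) := rfl

lemma conj_psi (w : Fin 2 → MvPolynomial (Fin 2) ℂ) (z : Fin 2 → ℂ) :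
    (fun i => conj (eta w z i)) = psi w z := rfl

/-- inv, conjugated -/
lemma inv1 {w : Fin 2 → MvPolynomial (Fin 2) ℂ} (h : SD w) {z : Fin 2 → ℂ}
    (hz : eval z (rho w) ≠ 0) (j : Fin 2) :
    eval (eta w z) (wb w j) = z j * eval (eta w z) (rho (wb w)) := by
  rw [eval_wb, eval_rho_wb, conj_psi, h.inv z hz j]
  simp

/-- inv on the other side -/
lemma inv2 {w : Fin 2 → MvPolynomial (Fin 2) ℂ} (h : SD w) {x : Fin 2 → ℂ}
    (hx : eval x (rho (wb w)) ≠ 0) (j : Fin 2) :
    eval (eta (wb w) x) (w j) = x j * eval (eta (wb w) x) (rho w) := by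
  have h1 : eval (fun i => conj (x i)) (rho w) ≠ 0 := by
    intro h0
    apply hx
    rw [eval_rho_wb, h0, map_zero]
  have h2 := h.inv _ h1 j
  have h3 : psi w (fun i => conj (x i)) = eta (wb w) x := by
    funext i
    simp only [psi, eta, map_div₀, eval_wb, eval_rho_wb]
  rw [h3] at h2
  simpa using h2

lemma eta_wb_eta {w : Fin 2 → MvPolynomial (Fin 2) ℂ} (h : SD w) {z : Fin 2 → ℂ}
    (hz : eval z (rho w) ≠ 0) (hz' : eval (eta w z) (rho (wb w)) ≠ 0) :
    eta (wb w) (eta w z) = z := by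
  funext j
  show eval (eta w z) (wb w j) / eval (eta w z) (rho (wb w)) = z j
  rw [inv1 h hz j]
  field_simp

lemma differentiable_eval (p : MvPolynomial (Fin 2) ℂ) :
    Differentiable ℂ (fun z : Fin 2 → ℂ => eval z p) := by
  induction p using MvPolynomial.induction_on with
  | C a => simp
  | add p q hp hq =>
    simp only [map_add]
    exact hp.fun_add hq
  | mul_X p i hp =>
    have : Differentiable ℂ (fun z : Fin 2 → ℂ => z i) := by fun_prop
    simp only [map_mul, eval_X]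
    exact hp.fun_mul this

lemma continuous_ev (p : MvPolynomial (Fin 2) ℂ) :
    Continuous (fun z : Fin 2 → ℂ => eval z p) := (differentiable_eval p).continuous

lemma eta_diff (w : Fin 2 → MvPolynomial (Fin 2) ℂ) {z : Fin 2 → ℂ}
    (hz : eval z (rho w) ≠ 0) : DifferentiableAt ℂ (eta w) z := by
  rw [differentiableAt_pi]
  intro j
  have h1 : DifferentiableAt ℂ (fun z : Fin 2 → ℂ => eval z (w j)) z := differentiable_eval (w j) z
  have h2 : DifferentiableAt ℂ (fun z : Fin 2 → ℂ => eval z (rho w)) z :=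
    differentiable_eval (rho w) z
  have h3 : DifferentiableAt ℂ (fun z : Fin 2 → ℂ => (eval z (rho w))⁻¹) z :=
    (hasFDerivAt_inv hz).differentiableAt.comp z h2
  have h4 : DifferentiableAt ℂ (fun z : Fin 2 → ℂ => eval z (w j) * (eval z (rho w))⁻¹) z :=
    h1.fun_mul h3
  simpa only [eta, div_eq_mul_inv] using h4

lemma eta_cont (w : Fin 2 → MvPolynomial (Fin 2) ℂ) {z : Fin 2 → ℂ}
    (hz : eval z (rho w) ≠ 0) : ContinuousAt (eta w) z := (eta_diff w hz).continuousAt

/-- the good set -/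
def Good (w : Fin 2 → MvPolynomial (Fin 2) ℂ) (z : Fin 2 → ℂ) : Prop :=
  eval z (rho w) ≠ 0 ∧ eval (eta w z) (rho (wb w)) ≠ 0 ∧
    ∀ s : Fin 2 → ℂ, eval s (w 0) = 0 ∧ eval s (w 1) = 0 →
      eval z (w 0) * s 0 + eval z (w 1) * s 1 ≠ eval z (rho w)

lemma ev_nhds {w : Fin 2 → MvPolynomial (Fin 2) ℂ} {z : Fin 2 → ℂ}
    (h1 : eval z (rho w) ≠ 0) (h2 : eval (eta w z) (rho (wb w)) ≠ 0) :
    ∀ᶠ u in 𝓝 z, eval u (rho w) ≠ 0 ∧ eval (eta w u) (rho (wb w)) ≠ 0 := by
  have a1 : ∀ᶠ u in 𝓝 z, eval u (rho w) ≠ 0 := (continuous_ev _).continuousAt.eventually_ne h1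
  have a2 : ContinuousAt (fun u => eval (eta w u) (rho (wb w))) z :=
    ContinuousAt.comp (f := eta w) (g := fun v => eval v (rho (wb w)))
      (continuous_ev _).continuousAt (eta_cont w h1)
  exact a1.and (a2.eventually_ne h2)

lemma good_nhds {w : Fin 2 → MvPolynomial (Fin 2) ℂ} (h : SD w) {z : Fin 2 → ℂ}
    (hz : Good w z) : ∀ᶠ u in 𝓝 z, Good w u := by
  have a1 := ev_nhds hz.1 hz.2.1
  have a2 : ∀ᶠ u in 𝓝 z, ∀ s ∈ {s : Fin 2 → ℂ | eval s (w 0) = 0 ∧ eval s (w 1) = 0},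
      eval u (w 0) * s 0 + eval u (w 1) * s 1 ≠ eval u (rho w) := by
    rw [eventually_all_finite h.fin]
    intro s hs
    have c1 : ContinuousAt (fun u : Fin 2 → ℂ =>
        eval u (w 0) * s 0 + eval u (w 1) * s 1 - eval u (rho w)) z :=
      ((((continuous_ev (w 0)).mul continuous_const).add
        ((continuous_ev (w 1)).mul continuous_const)).sub (continuous_ev (rho w))).continuousAt
    have c2 := c1.eventually_ne (sub_ne_zero.2 (hz.2.2 s hs))
    exact c2.mono fun u hu => sub_ne_zero.1 hu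
  exact (a1.and a2).mono fun u hu => ⟨hu.1.1, hu.1.2, fun s hs => hu.2 s hs⟩

/-- a polynomial vanishing near a point is zero -/
lemma poly_zero_of_nhds {p : MvPolynomial (Fin 2) ℂ} {z : Fin 2 → ℂ}
    (h : ∀ᶠ u in 𝓝 z, eval u p = 0) : p = 0 := by
  have ha : AnalyticOnNhd ℂ (fun u : Fin 2 → ℂ => eval u p) Set.univ :=
    AnalyticOnNhd.eval_mvPolynomial p
  have h0 : AnalyticOnNhd ℂ (fun _ : Fin 2 → ℂ => (0 : ℂ)) Set.univ := analyticOnNhd_const
  have := ha.eqOn_of_preconnected_of_eventuallyEq h0 isPreconnected_univ (Set.mem_univ z) h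
  refine MvPolynomial.funext fun u => ?_
  rw [map_zero]
  exact this (Set.mem_univ u)

lemma exists_good {w : Fin 2 → MvPolynomial (Fin 2) ℂ} (h : SD w) : ∃ z, Good w z := by
  obtain ⟨z₀, h1, h2⟩ := h.gen
  have h2' : eval (eta w z₀) (rho (wb w)) ≠ 0 := by
    rw [eval_rho_wb, conj_psi]
    exact (map_ne_zero _).2 h2
  -- the bad polynomials
  set p : (Fin 2 → ℂ) → MvPolynomial (Fin 2) ℂ := fun s => w 0 * C (s 0) + w 1 * C (s 1) - rho w
    with hp
  have hpne : ∀ s : Fin 2 → ℂ, p s ≠ 0 := by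
    intro s hs
    have e1 : ∀ z : Fin 2 → ℂ, eval z (w 0) * s 0 + eval z (w 1) * s 1 = eval z (rho w) := by
      intro z
      have := congrArg (eval z) hs
      simp only [hp, map_sub, map_add, map_mul, eval_C, map_zero] at this
      exact sub_eq_zero.1 this
    set x₀ := eta w z₀ with hx₀
    -- all `x` near `x₀` satisfy `x·s = 1`
    have hback : eta (wb w) x₀ = z₀ := eta_wb_eta h h1 h2'
    have c1 : ContinuousAt (eta (wb w)) x₀ := eta_cont _ h2'
    have c2 : ∀ᶠ x in 𝓝 x₀, eval (eta (wb w) x) (rho w) ≠ 0 := by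
      have : ContinuousAt (fun x => eval (eta (wb w) x) (rho w)) x₀ :=
        ContinuousAt.comp (f := eta (wb w)) (g := fun v => eval v (rho w))
          (continuous_ev _).continuousAt c1
      refine this.eventually_ne ?_
      show eval (eta (wb w) x₀) (rho w) ≠ 0
      rw [hback]
      exact h1
    have c3 : ∀ᶠ x in 𝓝 x₀, eval x (rho (wb w)) ≠ 0 :=
      (continuous_ev _).continuousAt.eventually_ne h2'
    have c4 : ∀ᶠ x in 𝓝 x₀, x 0 * s 0 + x 1 * s 1 = 1 := by
      filter_upwards [c2, c3] with x hx2 hx3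
      have k0 := inv2 h hx3 0
      have k1 := inv2 h hx3 1
      have k2 := e1 (eta (wb w) x)
      rw [k0, k1] at k2
      have : (x 0 * s 0 + x 1 * s 1 - 1) * eval (eta (wb w) x) (rho w) = 0 := by
        linear_combination k2
      exact sub_eq_zero.1 ((mul_eq_zero.1 this).resolve_right hx2)
    have c5 : Tendsto (fun t : ℝ => ((1 + t : ℝ) : ℂ) • x₀) (𝓝 0) (𝓝 x₀) := by
      have : Continuous (fun t : ℝ => ((1 + t : ℝ) : ℂ) • x₀) := by fun_prop
      have h3 := this.tendsto 0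
      simpa using h3
    have c6 : ∀ᶠ t : ℝ in 𝓝[≠] 0, ((((1 + t : ℝ) : ℂ) • x₀) 0 * s 0 +
        (((1 + t : ℝ) : ℂ) • x₀) 1 * s 1 = 1) ∧ t ≠ 0 :=
      ((c5.eventually c4).filter_mono nhdsWithin_le_nhds).and self_mem_nhdsWithin
    obtain ⟨t, ht, ht0⟩ := c6.exists
    have h5 := c4.self_of_nhds
    simp only [Pi.smul_apply, smul_eq_mul] at ht
    have : ((t : ℝ) : ℂ) = 0 := by
      push_cast at ht
      linear_combination ht - (1 + (t : ℂ)) * h5
    exact ht0 (by exact_mod_cast this)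
  have hprod : (∏ s ∈ h.fin.toFinset, p s) ≠ 0 := Finset.prod_ne_zero_iff.2 fun s _ => hpne s
  have hfr : ∃ᶠ u in 𝓝 z₀, eval u (∏ s ∈ h.fin.toFinset, p s) ≠ 0 := by
    intro hcon
    apply hprod
    refine poly_zero_of_nhds (z := z₀) (hcon.mono fun u hu => ?_)
    exact not_not.1 hu
  obtain ⟨u, hu1, hu2, hu3⟩ := (hfr.and_eventually (ev_nhds h1 h2')).exists
  refine ⟨u, hu2, hu3, fun s hs => ?_⟩
  rw [map_prod] at hu1
  have h6 := Finset.prod_ne_zero_iff.1 hu1 s (by simpa using hs)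
  simp only [hp, map_sub, map_add, map_mul, eval_C] at h6
  exact sub_ne_zero.1 h6

/-- restriction to a line -/
def ln (z τ : Fin 2 → ℂ) (p : MvPolynomial (Fin 2) ℂ) : Polynomial ℂ :=
  aeval (fun i => Polynomial.C (z i) + Polynomial.C (τ i) * Polynomial.X) p

lemma eval_ln (z τ : Fin 2 → ℂ) (p : MvPolynomial (Fin 2) ℂ) (t : ℂ) :
    (ln z τ p).eval t = eval (z + t • τ) p := by
  unfold ln
  induction p using MvPolynomial.induction_on with
  | C a => simp
  | add p q hp hq => simp [hp, hq]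
  | mul_X p i hp =>
    simp [hp]
    ring_nf
    tauto

/-- no direction is killed by the derivative of `eta` -/
lemma eta_dir {w : Fin 2 → MvPolynomial (Fin 2) ℂ} (h : SD w) {z : Fin 2 → ℂ}
    (h1 : eval z (rho w) ≠ 0) (h2 : eval (eta w z) (rho (wb w)) ≠ 0) (τ : Fin 2 → ℂ)
    (hd : HasDerivAt (fun t : ℂ => eta w (z + t • τ)) 0 0) : τ = 0 := by
  have hd2 : HasFDerivAt (eta (wb w)) (fderiv ℂ (eta (wb w)) (eta w z)) (eta w z) :=
    (eta_diff (wb w) h2).hasFDerivAt
  have e0 : eta w (z + (0 : ℂ) • τ) = eta w z := by simp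
  have hd3 : HasDerivAt (fun t : ℂ => eta (wb w) (eta w (z + t • τ)))
      (fderiv ℂ (eta (wb w)) (eta w z) 0) 0 := by
    have := HasFDerivAt.comp_hasDerivAt (f := fun t : ℂ => eta w (z + t • τ))
      (l := eta (wb w)) (l' := fderiv ℂ (eta (wb w)) (eta w z)) (0 : ℂ) (by rw [e0]; exact hd2) hd
    exact this
  rw [map_zero] at hd3
  have hl : Tendsto (fun t : ℂ => z + t • τ) (𝓝 0) (𝓝 z) := by
    have : Continuous (fun t : ℂ => z + t • τ) := by fun_prop
    have h3 := this.tendsto 0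
    simpa using h3
  have he : (fun t : ℂ => eta (wb w) (eta w (z + t • τ))) =ᶠ[𝓝 0] fun t : ℂ => z + t • τ := by
    filter_upwards [hl.eventually (ev_nhds h1 h2)] with t ht
    exact eta_wb_eta h ht.1 ht.2
  have hd4 : HasDerivAt (fun t : ℂ => z + t • τ) 0 0 := hd3.congr_of_eventuallyEq he.symm
  have hd5 : HasDerivAt (fun t : ℂ => z + t • τ) τ 0 := by
    have := ((hasDerivAt_id (0 : ℂ)).smul_const τ).const_add z
    simpa using this
  exact hd5.unique hd4

/-- direction of the tangent line -/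
def tau (w : Fin 2 → MvPolynomial (Fin 2) ℂ) (z : Fin 2 → ℂ) : Fin 2 → ℂ :=
  ![- eval z (w 1), eval z (w 0)]

/-- tangency polynomial -/
def TT (w : Fin 2 → MvPolynomial (Fin 2) ℂ) (z : Fin 2 → ℂ) : Polynomial ℂ :=
  ln z (tau w z) (w 0) * Polynomial.C (eval z (w 1)) -
    ln z (tau w z) (w 1) * Polynomial.C (eval z (w 0))

lemma eval_TT (w : Fin 2 → MvPolynomial (Fin 2) ℂ) (z : Fin 2 → ℂ) (t : ℂ) :
    (TT w z).eval t = eval (z + t • tau w z) (w 0) * eval z (w 1) -
      eval (z + t • tau w z) (w 1) * eval z (w 0) := by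
  simp [TT, eval_ln]

lemma TT_root {w : Fin 2 → MvPolynomial (Fin 2) ℂ} (h : SD w) {z : Fin 2 → ℂ} (hz : Good w z)
    {t : ℂ} (ht : (TT w z).eval t = 0) : t = 0 := by
  obtain ⟨g1, g2, g3⟩ := hz
  rw [eval_TT] at ht
  set u := z + t • tau w z with hu
  have hr := eval_rho w z
  -- `w(u) = lam w(z)`
  obtain ⟨lam, hl⟩ : ∃ lam : ℂ, ∀ j, eval u (w j) = lam * eval z (w j) := by
    by_cases h0 : eval z (w 0) = 0
    · have h1 : eval z (w 1) ≠ 0 := by
        intro h1
        apply g1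
        rw [hr, h0, h1]
        ring
      refine ⟨eval u (w 1) / eval z (w 1), fun j => ?_⟩
      fin_cases j
      · show eval u (w 0) = eval u (w 1) / eval z (w 1) * eval z (w 0)
        rw [h0] at ht ⊢
        rw [mul_zero, sub_zero] at ht
        rw [(mul_eq_zero.1 ht).resolve_right h1, mul_zero]
      · show eval u (w 1) = eval u (w 1) / eval z (w 1) * eval z (w 1)
        field_simp
    · refine ⟨eval u (w 0) / eval z (w 0), fun j => ?_⟩
      fin_cases j
      · show eval u (w 0) = eval u (w 0) / eval z (w 0) * eval z (w 0)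
        field_simp
      · show eval u (w 1) = eval u (w 0) / eval z (w 0) * eval z (w 1)
        field_simp
        linear_combination -ht
  have hu0 : u 0 = z 0 - t * eval z (w 1) := by
    show z 0 + t * (- eval z (w 1)) = _
    ring
  have hu1 : u 1 = z 1 + t * eval z (w 0) := rfl
  have hru : eval u (rho w) = lam * eval z (rho w) := by
    rw [eval_rho, hl 0, hl 1, hr, hu0, hu1]
    ring
  by_cases hlam : lam = 0
  · exfalso
    refine g3 u ⟨by rw [hl 0, hlam, zero_mul], by rw [hl 1, hlam, zero_mul]⟩ ?_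
    rw [hr, hu0, hu1]
    ring
  · have hru0 : eval u (rho w) ≠ 0 := by
      rw [hru]
      exact mul_ne_zero hlam g1
    have heta : eta w u = eta w z := by
      funext j
      show eval u (w j) / eval u (rho w) = eval z (w j) / eval z (rho w)
      rw [hl j, hru]
      field_simp
    have g2' : eval (eta w u) (rho (wb w)) ≠ 0 := by rw [heta]; exact g2
    have huz : u = z := by
      rw [← eta_wb_eta h hru0 g2', heta, eta_wb_eta h g1 g2]
    by_contra ht0
    apply g1
    have b0 : eval z (w 1) = 0 := by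
      have : t * eval z (w 1) = 0 := by
        have := congrFun huz 0
        rw [hu0] at this
        linear_combination -this
      exact (mul_eq_zero.1 this).resolve_left ht0
    have b1 : eval z (w 0) = 0 := by
      have : t * eval z (w 0) = 0 := by
        have := congrFun huz 1
        rw [hu1] at this
        linear_combination this
      exact (mul_eq_zero.1 this).resolve_left ht0
    rw [hr, b0, b1]
    ring

lemma ln_hasDerivAt (z τ : Fin 2 → ℂ) (p : MvPolynomial (Fin 2) ℂ) :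
    HasDerivAt (fun t : ℂ => eval (z + t • τ) p) ((ln z τ p).derivative.eval 0) 0 := by
  have := (ln z τ p).hasDerivAt 0
  refine this.congr_of_eventuallyEq (Eventually.of_forall fun t => ?_)
  exact (eval_ln z τ p t).symm

lemma TT_deriv {w : Fin 2 → MvPolynomial (Fin 2) ℂ} (h : SD w) {z : Fin 2 → ℂ} (hz : Good w z) :
    (TT w z).derivative.eval 0 ≠ 0 := by
  obtain ⟨g1, g2, g3⟩ := hz
  intro h0
  set τ := tau w z with hτ
  set d0 := (ln z τ (w 0)).derivative.eval 0 with hd0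
  set d1 := (ln z τ (w 1)).derivative.eval 0 with hd1
  have hr := eval_rho w z
  have h0' : d0 * eval z (w 1) - d1 * eval z (w 0) = 0 := by
    simpa [TT, ← hτ] using h0
  obtain ⟨nu, hn0, hn1⟩ : ∃ nu : ℂ, d0 = nu * eval z (w 0) ∧ d1 = nu * eval z (w 1) := by
    by_cases h1 : eval z (w 0) = 0
    · have h2 : eval z (w 1) ≠ 0 := by
        intro h2
        apply g1
        rw [hr, h1, h2]
        ring
      refine ⟨d1 / eval z (w 1), ?_, by field_simp⟩
      rw [h1, mul_zero, sub_zero] at h0'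
      rw [h1, mul_zero]
      exact (mul_eq_zero.1 h0').resolve_right h2
    · refine ⟨d0 / eval z (w 0), by field_simp, ?_⟩
      field_simp
      linear_combination -h0'
  have k0 : HasDerivAt (fun t : ℂ => eval (z + t • τ) (w 0)) d0 0 := ln_hasDerivAt z τ (w 0)
  have k1 : HasDerivAt (fun t : ℂ => eval (z + t • τ) (w 1)) d1 0 := ln_hasDerivAt z τ (w 1)
  have t0 : τ 0 = - eval z (w 1) := by simp [hτ, tau]
  have t1 : τ 1 = eval z (w 0) := by simp [hτ, tau]
  have kr : HasDerivAt (fun t : ℂ => eval (z + t • τ) (rho w)) (nu * eval z (rho w)) 0 := by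
    have a0 : HasDerivAt (fun t : ℂ => (z + t • τ) 0) (τ 0) 0 := by
      have := ((hasDerivAt_id (0 : ℂ)).mul_const (τ 0)).const_add (z 0)
      simpa using this
    have a1 : HasDerivAt (fun t : ℂ => (z + t • τ) 1) (τ 1) 0 := by
      have := ((hasDerivAt_id (0 : ℂ)).mul_const (τ 1)).const_add (z 1)
      simpa using this
    have := (a0.mul k0).add (a1.mul k1)
    have hfun : (fun t : ℂ => eval (z + t • τ) (rho w)) =
        (fun t : ℂ => (z + t • τ) 0) * (fun t : ℂ => eval (z + t • τ) (w 0)) +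
        (fun t : ℂ => (z + t • τ) 1) * (fun t : ℂ => eval (z + t • τ) (w 1)) := by
      funext t
      simp only [Pi.add_apply, Pi.mul_apply, eval_rho]
    rw [hfun]
    have hval : τ 0 * eval (z + (0 : ℂ) • τ) (w 0) + (z + (0 : ℂ) • τ) 0 * d0 +
        (τ 1 * eval (z + (0 : ℂ) • τ) (w 1) + (z + (0 : ℂ) • τ) 1 * d1) =
        nu * eval z (rho w) := by
      rw [zero_smul, add_zero, hn0, hn1, t0, t1, hr]
      ring
    rw [← hval]
    exact this
  have e0 : z + (0 : ℂ) • τ = z := by simp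
  have hd : HasDerivAt (fun t : ℂ => eta w (z + t • τ)) 0 0 := by
    rw [hasDerivAt_pi]
    intro j
    have kj : HasDerivAt (fun t : ℂ => eval (z + t • τ) (w j)) (nu * eval z (w j)) 0 := by
      fin_cases j
      · show HasDerivAt (fun t : ℂ => eval (z + t • τ) (w 0)) (nu * eval z (w 0)) 0
        rw [← hn0]; exact k0
      · show HasDerivAt (fun t : ℂ => eval (z + t • τ) (w 1)) (nu * eval z (w 1)) 0
        rw [← hn1]; exact k1
    have := kj.div kr (by rw [e0]; exact g1)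
    have hval : (nu * eval z (w j) * eval (z + (0 : ℂ) • τ) (rho w) -
        eval (z + (0 : ℂ) • τ) (w j) * (nu * eval z (rho w))) /
        eval (z + (0 : ℂ) • τ) (rho w) ^ 2 = 0 := by
      rw [e0]
      ring
    rw [hval] at this
    exact this
  have := eta_dir h g1 g2 τ hd
  apply g1
  have b0 := congrFun this 0
  have b1 := congrFun this 1
  rw [t0] at b0
  rw [t1] at b1
  rw [hr, b1, neg_eq_zero.1 b0]
  simp

lemma TT_lin {w : Fin 2 → MvPolynomial (Fin 2) ℂ} (h : SD w) {z : Fin 2 → ℂ} (hz : Good w z) :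
    ∃ κ : ℂ, ∀ t, (TT w z).eval t = κ * t := by
  have h0 : (TT w z).eval 0 = 0 := by
    rw [eval_TT]
    simp
    ring
  obtain ⟨R, hR⟩ : Polynomial.X ∣ TT w z := Polynomial.X_dvd_iff.2 (by
    rw [Polynomial.coeff_zero_eq_eval_zero, h0])
  have hR0 : R.eval 0 ≠ 0 := by
    have h1 := TT_deriv h hz
    rw [hR] at h1
    simpa using h1
  have hno : ∀ t, R.eval t ≠ 0 := by
    intro t ht
    have h1 : (TT w z).eval t = 0 := by rw [hR]; simp [ht]
    have h2 := TT_root h hz h1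
    rw [h2] at ht
    exact hR0 ht
  have hdeg : R.degree = 0 := by
    by_contra hne
    obtain ⟨t, ht⟩ := IsAlgClosed.exists_root R hne
    exact hno t ht
  obtain hc := Polynomial.eq_C_of_degree_eq_zero hdeg
  refine ⟨R.coeff 0, fun t => ?_⟩
  rw [hR, Polynomial.eval_mul, Polynomial.eval_X]
  conv_lhs => rw [hc]
  rw [Polynomial.eval_C]
  ring

/-- the second difference -/
def D2 (w : Fin 2 → MvPolynomial (Fin 2) ℂ) (x y : Fin 2 → ℂ) : ℂ :=
  ∑ j, y j * (eval (x + (2 : ℂ) • y) (w j) - 2 * eval (x + y) (w j) + eval x (w j))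

lemma D2_zero_of_good {w : Fin 2 → MvPolynomial (Fin 2) ℂ} (h : SD w) {x y : Fin 2 → ℂ}
    (hd : y 1 * x 0 - y 0 * x 1 ≠ 0)
    (hb : eval (![y 1 / (y 1 * x 0 - y 0 * x 1), - y 0 / (y 1 * x 0 - y 0 * x 1)] : Fin 2 → ℂ)
      (rho (wb w)) ≠ 0)
    (hg : Good w (eta (wb w) ![y 1 / (y 1 * x 0 - y 0 * x 1), - y 0 / (y 1 * x 0 - y 0 * x 1)])) :
    D2 w x y = 0 := by
  set d := y 1 * x 0 - y 0 * x 1 with hdd
  set η : Fin 2 → ℂ := ![y 1 / d, - y 0 / d] with hη
  set z := eta (wb w) η with hz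
  have i0 := inv2 h hb 0
  have i1 := inv2 h hb 1
  rw [← hz] at i0 i1
  have η0 : η 0 = y 1 / d := by simp [hη]
  have η1 : η 1 = - y 0 / d := by simp [hη]
  have g1 := hg.1
  have hr := eval_rho w z
  have hone : η 0 * z 0 + η 1 * z 1 = 1 := by
    have : (η 0 * z 0 + η 1 * z 1 - 1) * eval z (rho w) = 0 := by
      have h3 := hr
      rw [i0, i1] at h3
      linear_combination -h3
    exact sub_eq_zero.1 ((mul_eq_zero.1 this).resolve_right g1)
  rw [η0, η1] at hone
  have hone' : y 1 * z 0 - y 0 * z 1 = d := by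
    field_simp at hone
    linear_combination hone
  -- `z - x = s y`
  obtain ⟨s, hs⟩ : ∃ s : ℂ, x = z + s • y := by
    by_cases hy : y 0 = 0
    · have hy1 : y 1 ≠ 0 := by
        intro hy1
        apply hd
        rw [hdd, hy, hy1]
        ring
      refine ⟨(x 1 - z 1) / y 1, ?_⟩
      funext j
      fin_cases j
      · show x 0 = z 0 + (x 1 - z 1) / y 1 * y 0
        rw [hy, mul_zero, add_zero]
        have : y 1 * (x 0 - z 0) = 0 := by
          linear_combination hdd - hone' + (x 1 - z 1) * hy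
        exact sub_eq_zero.1 ((mul_eq_zero.1 this).resolve_left hy1)
      · show x 1 = z 1 + (x 1 - z 1) / y 1 * y 1
        field_simp
        ring
    · refine ⟨(x 0 - z 0) / y 0, ?_⟩
      funext j
      fin_cases j
      · show x 0 = z 0 + (x 0 - z 0) / y 0 * y 0
        field_simp
        ring
      · show x 1 = z 1 + (x 0 - z 0) / y 0 * y 1
        field_simp
        linear_combination hone' - hdd
  -- `y = α τ`
  set α := d / eval z (rho w) with hα
  have hy : y = α • tau w z := by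
    funext j
    fin_cases j
    · show y 0 = α * (- eval z (w 1))
      rw [i1, η1, hα]
      field_simp
    · show y 1 = α * eval z (w 0)
      rw [i0, η0, hα]
      field_simp
  obtain ⟨κ, hκ⟩ := TT_lin h hg
  -- `y·w(x + t y)` is affine
  have key : ∀ t : ℂ, y 0 * eval (x + t • y) (w 0) + y 1 * eval (x + t • y) (w 1) =
      - α * (κ * ((s + t) * α)) := by
    intro t
    have e1 : x + t • y = z + ((s + t) * α) • tau w z := by
      rw [hs]
      conv_lhs => rw [hy]
      module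
    rw [e1, ← hκ, eval_TT]
    have y0 : y 0 = α * (- eval z (w 1)) := congrFun hy 0
    have y1 : y 1 = α * eval z (w 0) := congrFun hy 1
    rw [y0, y1]
    ring
  have k2 := key 2
  have k1 := key 1
  have k0 := key 0
  rw [one_smul] at k1
  rw [zero_smul, add_zero] at k0
  show ∑ j, y j * (eval (x + (2 : ℂ) • y) (w j) - 2 * eval (x + y) (w j) + eval x (w j)) = 0
  rw [Fin.sum_univ_two]
  linear_combination k2 - 2 * k1 + k0

theorem kill : KILL := by
  intro w h
  obtain ⟨z₁, hz₁⟩ := exists_good h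
  obtain ⟨g1, g2, g3⟩ := hz₁
  -- the base point
  set y₁ := tau w z₁ with hy₁
  have y10 : y₁ 0 = - eval z₁ (w 1) := by simp [hy₁, tau]
  have y11 : y₁ 1 = eval z₁ (w 0) := by simp [hy₁, tau]
  have hd1 : y₁ 1 * z₁ 0 - y₁ 0 * z₁ 1 = eval z₁ (rho w) := by
    rw [y10, y11, eval_rho]
    ring
  set D : (Fin 2 → ℂ) × (Fin 2 → ℂ) → ℂ := fun q => q.2 1 * q.1 0 - q.2 0 * q.1 1 with hD
  set N : (Fin 2 → ℂ) × (Fin 2 → ℂ) → (Fin 2 → ℂ) := fun q => ![q.2 1 / D q, - q.2 0 / D q]
    with hN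
  have hDc : Continuous D := by
    simp only [hD]
    fun_prop
  have hD1 : D (z₁, y₁) ≠ 0 := by
    show y₁ 1 * z₁ 0 - y₁ 0 * z₁ 1 ≠ 0
    rw [hd1]
    exact g1
  have hN1 : N (z₁, y₁) = eta w z₁ := by
    funext j
    fin_cases j
    · show y₁ 1 / (y₁ 1 * z₁ 0 - y₁ 0 * z₁ 1) = eval z₁ (w 0) / eval z₁ (rho w)
      rw [hd1, y11]
    · show - y₁ 0 / (y₁ 1 * z₁ 0 - y₁ 0 * z₁ 1) = eval z₁ (w 1) / eval z₁ (rho w)
      rw [hd1, y10, neg_neg]
  have hNc : ContinuousAt N (z₁, y₁) := by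
    rw [continuousAt_pi]
    intro j
    fin_cases j
    · show ContinuousAt (fun q => q.2 1 / D q) (z₁, y₁)
      refine ContinuousAt.div ?_ hDc.continuousAt hD1
      fun_prop
    · show ContinuousAt (fun q => - q.2 0 / D q) (z₁, y₁)
      refine ContinuousAt.div ?_ hDc.continuousAt hD1
      fun_prop
  have hback : eta (wb w) (eta w z₁) = z₁ := eta_wb_eta h g1 g2
  have ev1 : ∀ᶠ q in 𝓝 (z₁, y₁), D q ≠ 0 := hDc.continuousAt.eventually_ne hD1
  have ev2 : ∀ᶠ q in 𝓝 (z₁, y₁), eval (N q) (rho (wb w)) ≠ 0 := by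
    have : ContinuousAt (fun q => eval (N q) (rho (wb w))) (z₁, y₁) :=
      ContinuousAt.comp (f := N) (g := fun v => eval v (rho (wb w)))
        (continuous_ev _).continuousAt hNc
    refine this.eventually_ne ?_
    show eval (N (z₁, y₁)) (rho (wb w)) ≠ 0
    rw [hN1]
    exact g2
  have ev3 : ∀ᶠ q in 𝓝 (z₁, y₁), Good w (eta (wb w) (N q)) := by
    have c1 : ContinuousAt (fun q => eta (wb w) (N q)) (z₁, y₁) :=
      ContinuousAt.comp (f := N) (g := eta (wb w))
        (by rw [hN1]; exact eta_cont _ g2) hNc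
    have c2 : eta (wb w) (N (z₁, y₁)) = z₁ := by rw [hN1, hback]
    have c3 : Tendsto (fun q => eta (wb w) (N q)) (𝓝 (z₁, y₁)) (𝓝 z₁) := by
      have := c1.tendsto
      rwa [c2] at this
    exact c3.eventually (good_nhds h ⟨g1, g2, g3⟩)
  have ev : ∀ᶠ q in 𝓝 (z₁, y₁), D2 w q.1 q.2 = 0 := by
    filter_upwards [ev1, ev2, ev3] with q h1 h2 h3
    exact D2_zero_of_good h h1 h2 h3
  -- the identity theorem
  have c1 : ∀ i : Fin 2, AnalyticOnNhd ℂ (fun q : (Fin 2 → ℂ) × (Fin 2 → ℂ) => q.1 i)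
      Set.univ := fun i _ _ =>
    ((ContinuousLinearMap.proj (R := ℂ) (φ := fun _ : Fin 2 => ℂ) i).comp
      (ContinuousLinearMap.fst ℂ (Fin 2 → ℂ) (Fin 2 → ℂ))).analyticAt _
  have c2 : ∀ i : Fin 2, AnalyticOnNhd ℂ (fun q : (Fin 2 → ℂ) × (Fin 2 → ℂ) => q.2 i)
      Set.univ := fun i _ _ =>
    ((ContinuousLinearMap.proj (R := ℂ) (φ := fun _ : Fin 2 => ℂ) i).comp
      (ContinuousLinearMap.snd ℂ (Fin 2 → ℂ) (Fin 2 → ℂ))).analyticAt _
  have f1 : ∀ j, AnalyticOnNhd ℂ (fun q : (Fin 2 → ℂ) × (Fin 2 → ℂ) =>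
      eval (q.1 + (2 : ℂ) • q.2) (w j)) Set.univ := fun j =>
    AnalyticOnNhd.aeval_mvPolynomial
      (f := fun q : (Fin 2 → ℂ) × (Fin 2 → ℂ) => q.1 + (2 : ℂ) • q.2)
      (fun i => (c1 i).add (analyticOnNhd_const.mul (c2 i))) (w j)
  have f2 : ∀ j, AnalyticOnNhd ℂ (fun q : (Fin 2 → ℂ) × (Fin 2 → ℂ) =>
      eval (q.1 + q.2) (w j)) Set.univ := fun j =>
    AnalyticOnNhd.aeval_mvPolynomial
      (f := fun q : (Fin 2 → ℂ) × (Fin 2 → ℂ) => q.1 + q.2)
      (fun i => (c1 i).add (c2 i)) (w j)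
  have f3 : ∀ j, AnalyticOnNhd ℂ (fun q : (Fin 2 → ℂ) × (Fin 2 → ℂ) =>
      eval q.1 (w j)) Set.univ := fun j =>
    AnalyticOnNhd.aeval_mvPolynomial
      (f := fun q : (Fin 2 → ℂ) × (Fin 2 → ℂ) => q.1) (fun i => c1 i) (w j)
  have ha : AnalyticOnNhd ℂ (fun q : (Fin 2 → ℂ) × (Fin 2 → ℂ) => D2 w q.1 q.2) Set.univ := by
    unfold D2
    simp only [Fin.sum_univ_two]
    exact ((c2 0).mul (((f1 0).sub (analyticOnNhd_const.mul (f2 0))).add (f3 0))).add
      ((c2 1).mul (((f1 1).sub (analyticOnNhd_const.mul (f2 1))).add (f3 1)))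
  have h0 : AnalyticOnNhd ℂ (fun _ : (Fin 2 → ℂ) × (Fin 2 → ℂ) => (0 : ℂ)) Set.univ :=
    analyticOnNhd_const
  intro x y
  exact ha.eqOn_of_preconnected_of_eventuallyEq h0 isPreconnected_univ (Set.mem_univ (z₁, y₁)) ev
    (Set.mem_univ (x, y))

end

end Pool.Agent.Lib.MP_6ff8d9_an.N2
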