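import Pool.Agent.Lib.MP_6ff8d9_an_h23.N2Rows

/-!
# The Hermitian form of signature (2,1): adjoints, unitary matrices, reflections
-/

open Matrix
open scoped ComplexConjugate

namespace Pool.Agent.Lib.MP_6ff8d9_an.N2

noncomputable section

/-- `J`-unitary matrices -/
def JU (A : Matrix (Fin 3) (Fin 3) ℂ) : Prop := Aᴴ * J3 * A = J3

lemma J3_sq : J3 * J3 = 1 := by
  rw [J3, Matrix.diagonal_mul_diagonal, ← Matrix.diagonal_one]
  congr 1
  funext i
  fin_cases i <;> simp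

lemma J3_herm : J3ᴴ = J3 := by
  rw [J3, Matrix.diagonal_conjTranspose]
  congr 1
  funext i
  fin_cases i <;> simp

lemma mulVec_J3 (Z : Fin 3 → ℂ) : J3 *ᵥ Z = ![- Z 0, Z 1, Z 2] := by
  funext i
  rw [J3, Matrix.mulVec_diagonal]
  fin_cases i <;> simp

lemma herm_eq (Z W : Fin 3 → ℂ) : herm Z W = star W ⬝ᵥ (J3 *ᵥ Z) := by
  rw [mulVec_J3]
  simp [herm, dotProduct, Fin.sum_univ_three]
  ring

lemma JU_one : JU 1 := by simp [JU]

lemma JU.mul {A B : Matrix (Fin 3) (Fin 3) ℂ} (hA : JU A) (hB : JU B) : JU (A * B) := by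
  unfold JU at *
  rw [conjTranspose_mul]
  calc Bᴴ * Aᴴ * J3 * (A * B) = Bᴴ * (Aᴴ * J3 * A) * B := by noncomm_ring
    _ = J3 := by rw [hA, hB]

/-- the inverse of a `J`-unitary matrix -/
lemma JU.inv_left {A : Matrix (Fin 3) (Fin 3) ℂ} (hA : JU A) : (J3 * Aᴴ * J3) * A = 1 := by
  calc (J3 * Aᴴ * J3) * A = J3 * (Aᴴ * J3 * A) := by noncomm_ring
    _ = 1 := by rw [hA, J3_sq]

lemma JU.inv_eq {A : Matrix (Fin 3) (Fin 3) ℂ} (hA : JU A) : A⁻¹ = J3 * Aᴴ * J3 :=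
  Matrix.inv_eq_left_inv hA.inv_left

lemma JU.inv_right {A : Matrix (Fin 3) (Fin 3) ℂ} (hA : JU A) : A * (J3 * Aᴴ * J3) = 1 :=
  mul_eq_one_comm.1 hA.inv_left

lemma JU.isUnit_det {A : Matrix (Fin 3) (Fin 3) ℂ} (hA : JU A) : IsUnit A.det :=
  Matrix.isUnit_det_of_left_inverse hA.inv_left

lemma JU.inv_mul {A : Matrix (Fin 3) (Fin 3) ℂ} (hA : JU A) : A⁻¹ * A = 1 := by
  rw [hA.inv_eq]; exact hA.inv_left

lemma JU.mul_inv {A : Matrix (Fin 3) (Fin 3) ℂ} (hA : JU A) : A * A⁻¹ = 1 := by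
  rw [hA.inv_eq]; exact hA.inv_right

lemma JU.inv {A : Matrix (Fin 3) (Fin 3) ℂ} (hA : JU A) : JU A⁻¹ := by
  have h1 : A * J3 * Aᴴ = J3 := by
    calc A * J3 * Aᴴ = A * (J3 * Aᴴ * J3) * J3 := by
          have : A * (J3 * Aᴴ * J3) * J3 = A * J3 * Aᴴ * (J3 * J3) := by noncomm_ring
          rw [this, J3_sq, mul_one]
      _ = J3 := by rw [hA.inv_right, one_mul]
  unfold JU
  rw [hA.inv_eq]
  simp only [conjTranspose_mul, J3_herm, conjTranspose_conjTranspose]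
  calc J3 * (A * J3) * J3 * (J3 * Aᴴ * J3) = J3 * (A * (J3 * (J3 * J3) * Aᴴ)) * J3 := by
        noncomm_ring
    _ = J3 * (A * J3 * Aᴴ) * J3 := by rw [J3_sq, mul_one]; noncomm_ring
    _ = J3 := by rw [h1, mul_assoc, J3_sq, mul_one]

/-! ### adjoints -/

lemma dag_dag (T : Matrix (Fin 3) (Fin 3) ℂ) : dag (dag T) = T := by
  unfold dag
  simp only [conjTranspose_mul, J3_herm, conjTranspose_conjTranspose]
  calc J3 * (J3 * (T * J3)) * J3 = (J3 * J3) * T * (J3 * J3) := by noncomm_ring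
    _ = T := by rw [J3_sq, one_mul, mul_one]

lemma dag_mul (S T : Matrix (Fin 3) (Fin 3) ℂ) : dag (S * T) = dag T * dag S := by
  unfold dag
  rw [conjTranspose_mul]
  calc J3 * (Tᴴ * Sᴴ) * J3 = J3 * Tᴴ * 1 * Sᴴ * J3 := by noncomm_ring
    _ = J3 * Tᴴ * (J3 * J3) * Sᴴ * J3 := by rw [J3_sq]
    _ = J3 * Tᴴ * J3 * (J3 * Sᴴ * J3) := by noncomm_ring

lemma dag_smul (c : ℂ) (T : Matrix (Fin 3) (Fin 3) ℂ) : dag (c • T) = conj c • dag T := by
  unfold dag
  rw [conjTranspose_smul]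
  simp only [Matrix.mul_smul, Matrix.smul_mul]
  rfl

lemma dag_add (S T : Matrix (Fin 3) (Fin 3) ℂ) : dag (S + T) = dag S + dag T := by
  unfold dag
  rw [conjTranspose_add, mul_add, add_mul]

lemma dag_one : dag 1 = 1 := by
  unfold dag
  rw [conjTranspose_one, mul_one, J3_sq]

lemma JU.dag_eq {A : Matrix (Fin 3) (Fin 3) ℂ} (hA : JU A) : dag A = A⁻¹ := hA.inv_eq.symm

lemma trace_dag (T : Matrix (Fin 3) (Fin 3) ℂ) : (dag T).trace = conj T.trace := by
  unfold dag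
  rw [Matrix.trace_mul_comm, ← mul_assoc, J3_sq, one_mul, trace_conjTranspose]
  rfl

lemma herm_mulVec (T : Matrix (Fin 3) (Fin 3) ℂ) (Z W : Fin 3 → ℂ) :
    herm (T *ᵥ Z) W = herm Z (dag T *ᵥ W) := by
  have h1 : (dag T)ᴴ * J3 = J3 * T := by
    unfold dag
    simp only [conjTranspose_mul, J3_herm, conjTranspose_conjTranspose]
    calc J3 * (T * J3) * J3 = J3 * T * (J3 * J3) := by noncomm_ring
      _ = J3 * T := by rw [J3_sq, mul_one]
  rw [herm_eq, herm_eq, star_mulVec, mulVec_mulVec, ← h1, ← mulVec_mulVec, dotProduct_mulVec]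

lemma JU.herm {A : Matrix (Fin 3) (Fin 3) ℂ} (hA : JU A) (Z W : Fin 3 → ℂ) :
    herm (A *ᵥ Z) (A *ᵥ W) = N2.herm Z W := by
  rw [herm_mulVec, mulVec_mulVec, hA.dag_eq, hA.inv_mul, one_mulVec]

lemma herm_symm (Z W : Fin 3 → ℂ) : conj (herm Z W) = herm W Z := by
  simp [herm]
  ring

lemma herm_self_im (Z : Fin 3 → ℂ) : (herm Z Z).im = 0 := by
  have := congrArg Complex.im (herm_symm Z Z)
  simp at this
  linarith

lemma herm_self (Z : Fin 3 → ℂ) :
    herm Z Z = ((- ‖Z 0‖ ^ 2 + ‖Z 1‖ ^ 2 + ‖Z 2‖ ^ 2 : ℝ) : ℂ) := by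
  simp only [herm, Complex.mul_conj, Complex.normSq_eq_norm_sq]
  push_cast
  ring

lemma herm_add_left (Z Z' W : Fin 3 → ℂ) : herm (Z + Z') W = herm Z W + herm Z' W := by
  simp [herm]; ring

lemma herm_sub_left (Z Z' W : Fin 3 → ℂ) : herm (Z - Z') W = herm Z W - herm Z' W := by
  simp [herm]; ring

lemma herm_smul_left (c : ℂ) (Z W : Fin 3 → ℂ) : herm (c • Z) W = c * herm Z W := by
  simp [herm]; ring

lemma herm_add_right (Z W W' : Fin 3 → ℂ) : herm Z (W + W') = herm Z W + herm Z W' := by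
  simp [herm]; ring

lemma herm_sub_right (Z W W' : Fin 3 → ℂ) : herm Z (W - W') = herm Z W - herm Z W' := by
  simp [herm]; ring

lemma herm_smul_right (c : ℂ) (Z W : Fin 3 → ℂ) : herm Z (c • W) = conj c * herm Z W := by
  simp [herm]; ring

/-- self-adjointness is preserved by `J`-unitary conjugation -/
lemma JU.dag_conj {A T : Matrix (Fin 3) (Fin 3) ℂ} (hA : JU A) (hT : dag T = T) :
    dag (A⁻¹ * T * A) = A⁻¹ * T * A := by
  rw [dag_mul, dag_mul, hA.dag_eq, hT, ← hA.dag_eq, dag_dag, ← mul_assoc]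

/-- cyclicity is preserved by conjugation -/
lemma JU.cyc_conj {A T : Matrix (Fin 3) (Fin 3) ℂ} (hA : JU A) (hT : Cyc T) :
    Cyc (A⁻¹ * T * A) := by
  obtain ⟨Z, hZ⟩ := hT
  refine ⟨A⁻¹ *ᵥ Z, ?_⟩
  have e1 : (A⁻¹ * T * A) *ᵥ (A⁻¹ *ᵥ Z) = A⁻¹ *ᵥ (T *ᵥ Z) := by
    rw [mulVec_mulVec, mulVec_mulVec, mul_assoc, mul_assoc, hA.mul_inv, mul_one]
  have e2 : (A⁻¹ * T * A) *ᵥ (A⁻¹ *ᵥ (T *ᵥ Z)) = A⁻¹ *ᵥ (T *ᵥ (T *ᵥ Z)) := by
    rw [mulVec_mulVec, mul_assoc (A⁻¹ * T), hA.mul_inv, mul_one, ← mulVec_mulVec]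
  rw [e1, e2]
  have e3 : Matrix.of ![A⁻¹ *ᵥ Z, A⁻¹ *ᵥ (T *ᵥ Z), A⁻¹ *ᵥ (T *ᵥ (T *ᵥ Z))] =
      Matrix.of ![Z, T *ᵥ Z, T *ᵥ (T *ᵥ Z)] * (A⁻¹)ᵀ := by
    ext i j
    fin_cases i <;>
      simp [Matrix.mul_apply, Matrix.mulVec, dotProduct, Fin.sum_univ_three] <;> ring
  rw [e3, det_mul, det_transpose]
  exact mul_ne_zero hZ hA.inv.isUnit_det.ne_zero

/-! ### reflections -/

/-- `Z ↦ Z - 2 herm(Z,u)/herm(u,u) u` -/
def refl (u : Fin 3 → ℂ) : Matrix (Fin 3) (Fin 3) ℂ :=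
  1 - (2 / herm u u) • Matrix.vecMulVec u (J3 *ᵥ (fun i => conj (u i)))

lemma refl_mulVec (u Z : Fin 3 → ℂ) : refl u *ᵥ Z = Z - (2 * herm Z u / herm u u) • u := by
  have h1 : Matrix.vecMulVec u (J3 *ᵥ (fun i => conj (u i))) *ᵥ Z = (herm Z u) • u := by
    funext i
    simp only [mulVec_J3, Matrix.mulVec, dotProduct, Matrix.vecMulVec_apply, Fin.sum_univ_three,
      N2.herm, Pi.smul_apply, smul_eq_mul]
    simp
    ring
  rw [refl, Matrix.sub_mulVec, one_mulVec, Matrix.smul_mulVec, h1, smul_smul]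
  congr 2
  ring

lemma JU_of_herm {A : Matrix (Fin 3) (Fin 3) ℂ}
    (h : ∀ Z W, herm (A *ᵥ Z) (A *ᵥ W) = N2.herm Z W) : JU A := by
  have h1 : ∀ Z W : Fin 3 → ℂ, star W ⬝ᵥ ((Aᴴ * J3 * A) *ᵥ Z) = star W ⬝ᵥ (J3 *ᵥ Z) := by
    intro Z W
    have := h Z W
    rw [herm_eq, herm_eq, star_mulVec] at this
    rw [← this, ← mulVec_mulVec, ← mulVec_mulVec, dotProduct_mulVec (star W) Aᴴ]
  unfold JU
  ext i j
  have := h1 (Pi.single j 1) (Pi.single i 1)
  simpa using this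

lemma refl_JU {u : Fin 3 → ℂ} (hu : herm u u ≠ 0) : JU (refl u) := by
  apply JU_of_herm
  intro Z W
  have hr : conj (herm u u) = herm u u := herm_symm u u
  rw [refl_mulVec, refl_mulVec]
  simp only [herm_sub_left, herm_sub_right, herm_smul_left, herm_smul_right, map_div₀, map_mul,
    hr, herm_symm W u]
  have h2 : conj (2 : ℂ) = 2 := Complex.conj_ofNat 2
  rw [h2]
  field_simp
  ring

lemma refl_move {v w : Fin 3 → ℂ} (h1 : herm v v = herm w w) (h2 : conj (herm v w) = herm v w)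
    (h3 : herm (v - w) (v - w) ≠ 0) : refl (v - w) *ᵥ v = w := by
  rw [refl_mulVec]
  have e1 : herm (v - w) (v - w) = 2 * (herm v v - herm v w) := by
    simp only [herm_sub_left, herm_sub_right]
    rw [← herm_symm v w, h2, ← h1]
    ring
  have e2 : herm v (v - w) = herm v v - herm v w := herm_sub_right _ _ _
  have h3' : herm v v - herm v w ≠ 0 := by
    intro h
    apply h3
    rw [e1, h, mul_zero]
  have e3 : 2 * herm v (v - w) / herm (v - w) (v - w) = 1 := by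
    rw [e1, e2]
    field_simp
  rw [e3, one_smul]
  abel

lemma refl_invol {u : Fin 3 → ℂ} (hu : herm u u ≠ 0) : refl u * refl u = 1 := by
  have : ∀ Z, (refl u * refl u) *ᵥ Z = Z := by
    intro Z
    rw [← mulVec_mulVec, refl_mulVec, refl_mulVec]
    simp only [herm_sub_left, herm_smul_left]
    have : (2 * (herm Z u - 2 * herm Z u / herm u u * herm u u) / herm u u) =
        - (2 * herm Z u / herm u u) := by
      field_simp
      ring
    rw [this]
    module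
  apply Matrix.ext_of_mulVec_single
  intro i
  rw [this, one_mulVec]

/-- every vector of norm `-1` is the image of `e₀` under a `J`-unitary matrix -/
lemma exists_move_neg {v : Fin 3 → ℂ} (hv : herm v v = -1) :
    ∃ A, JU A ∧ ∃ c : ℂ, ‖c‖ = 1 ∧ A *ᵥ (Pi.single 0 1) = c • v := by
  have h0 : (1 : ℝ) ≤ ‖v 0‖ ^ 2 := by
    have := congrArg Complex.re (herm_self v)
    rw [hv, Complex.ofReal_re] at this
    simp at this
    nlinarith [norm_nonneg (v 1), norm_nonneg (v 2), sq_nonneg ‖v 1‖, sq_nonneg ‖v 2‖]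
  have h0' : ‖v 0‖ ≠ 0 := by
    intro h
    rw [h] at h0
    norm_num at h0
  -- phase
  set c : ℂ := conj (v 0) / ‖v 0‖ with hc
  have hcn : ‖c‖ = 1 := by
    rw [hc, norm_div, RCLike.norm_conj, Complex.norm_real, norm_norm, div_self h0']
  have hcc : c * conj c = 1 := by
    rw [Complex.mul_conj, Complex.normSq_eq_norm_sq, hcn]
    simp
  set w : Fin 3 → ℂ := c • v with hw
  have hw0 : w 0 = (‖v 0‖ : ℂ) := by
    have : (‖v 0‖ : ℂ) ≠ 0 := by exact_mod_cast h0'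
    show c * v 0 = _
    rw [hc, div_mul_eq_mul_div, mul_comm, Complex.mul_conj, Complex.normSq_eq_norm_sq]
    push_cast
    field_simp
  have hww : herm w w = -1 := by
    rw [hw, herm_smul_left, herm_smul_right, hv]
    linear_combination -hcc
  set e : Fin 3 → ℂ := Pi.single 0 1 with he
  have hee : herm e e = -1 := by simp [he, N2.herm]
  have hwe : herm w e = - (‖v 0‖ : ℂ) := by
    rw [← hw0]
    simp [he, N2.herm]
  have hwe' : conj (herm w e) = herm w e := by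
    rw [hwe, map_neg, Complex.conj_ofReal]
  by_cases hx : herm (w - e) (w - e) = 0
  · -- then `w = e`
    have h1 : (‖v 0‖ : ℂ) = 1 := by
      simp only [herm_sub_left, herm_sub_right] at hx
      rw [← herm_symm w e, hwe', hwe, hww, hee] at hx
      linear_combination hx / 2
    have h1' : ‖v 0‖ = 1 := by exact_mod_cast h1
    have hs := congrArg Complex.re (herm_self w)
    rw [hww, Complex.ofReal_re, hw0, h1, norm_one] at hs
    simp at hs
    have h2 : w 1 = 0 := by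
      have : ‖w 1‖ ^ 2 = 0 := by nlinarith [sq_nonneg ‖w 1‖, sq_nonneg ‖w 2‖]
      exact norm_eq_zero.1 (pow_eq_zero_iff (two_ne_zero) |>.1 this)
    have h3 : w 2 = 0 := by
      have : ‖w 2‖ ^ 2 = 0 := by nlinarith [sq_nonneg ‖w 1‖, sq_nonneg ‖w 2‖]
      exact norm_eq_zero.1 (pow_eq_zero_iff (two_ne_zero) |>.1 this)
    refine ⟨1, JU_one, c, hcn, ?_⟩
    rw [one_mulVec, ← hw]
    funext i
    fin_cases i
    · show (Pi.single 0 1 : Fin 3 → ℂ) 0 = w 0
      rw [hw0, h1]; simp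
    · show (Pi.single 0 1 : Fin 3 → ℂ) 1 = w 1
      rw [h2]; simp
    · show (Pi.single 0 1 : Fin 3 → ℂ) 2 = w 2
      rw [h3]; simp
  · refine ⟨refl (w - e), refl_JU hx, c, hcn, ?_⟩
    have h1 := refl_move (v := w) (w := e) (by rw [hww, hee]) hwe' hx
    have h2 := refl_invol hx
    calc refl (w - e) *ᵥ e = refl (w - e) *ᵥ (refl (w - e) *ᵥ w) := by rw [h1]
      _ = w := by rw [mulVec_mulVec, h2, one_mulVec]

/-- every vector of norm `1` is the image of `e₂` under a `J`-unitary matrix -/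
lemma exists_move_pos {v : Fin 3 → ℂ} (hv : herm v v = 1) :
    ∃ A, JU A ∧ ∃ c : ℂ, ‖c‖ = 1 ∧ A *ᵥ (Pi.single 2 1) = c • v := by
  -- phase
  obtain ⟨c, hcn, hc2⟩ : ∃ c : ℂ, ‖c‖ = 1 ∧ c * v 2 = - (‖v 2‖ : ℂ) := by
    by_cases h : v 2 = 0
    · exact ⟨1, by simp, by simp [h]⟩
    · have h' : (‖v 2‖ : ℂ) ≠ 0 := by
        have := norm_ne_zero_iff.2 h
        exact_mod_cast this
      refine ⟨- conj (v 2) / ‖v 2‖, ?_, ?_⟩
      · rw [norm_div, norm_neg, RCLike.norm_conj, Complex.norm_real, norm_norm,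
          div_self (norm_ne_zero_iff.2 h)]
      · rw [div_mul_eq_mul_div, neg_mul, mul_comm, Complex.mul_conj, Complex.normSq_eq_norm_sq]
        push_cast
        field_simp
  have hcc : c * conj c = 1 := by
    rw [Complex.mul_conj, Complex.normSq_eq_norm_sq, hcn]
    simp
  set w : Fin 3 → ℂ := c • v with hw
  have hw2 : w 2 = - (‖v 2‖ : ℂ) := hc2
  have hww : herm w w = 1 := by
    rw [hw, herm_smul_left, herm_smul_right, hv]
    linear_combination hcc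
  set e : Fin 3 → ℂ := Pi.single 2 1 with he
  have hee : herm e e = 1 := by simp [he, N2.herm]
  have hwe : herm w e = - (‖v 2‖ : ℂ) := by
    rw [← hw2]
    simp [he, N2.herm]
  have hwe' : conj (herm w e) = herm w e := by
    rw [hwe, map_neg, Complex.conj_ofReal]
  have hx : herm (w - e) (w - e) ≠ 0 := by
    simp only [herm_sub_left, herm_sub_right]
    rw [← herm_symm w e, hwe', hwe, hww, hee]
    have : (1 - -(‖v 2‖ : ℂ) - (-(‖v 2‖ : ℂ) - 1)) = ((2 + 2 * ‖v 2‖ : ℝ) : ℂ) := by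
      push_cast
      ring
    rw [this]
    have h3 : (2 + 2 * ‖v 2‖ : ℝ) ≠ 0 := by positivity
    exact_mod_cast h3
  refine ⟨refl (w - e), refl_JU hx, c, hcn, ?_⟩
  have h1 := refl_move (v := w) (w := e) (by rw [hww, hee]) hwe' hx
  have h2 := refl_invol hx
  calc refl (w - e) *ᵥ e = refl (w - e) *ᵥ (refl (w - e) *ᵥ w) := by rw [h1]
    _ = w := by rw [mulVec_mulVec, h2, one_mulVec]

end

end Pool.Agent.Lib.MP_6ff8d9_an.N2
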