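import Pool.Agent.Lib.MP_6ff8d9_an_h8.SymRows
import Pool.Agent.Lib.MP_6ff8d9_an_h33.Exp3
import Pool.Agent.Lib.MP_6ff8d9_an_h23.Proj

/-!
# Rows TACT and GCON: the torus action and conjugation of flows
-/

open Metric Filter Topology MvPolynomial Matrix
open scoped ComplexConjugate

namespace Pool.Agent.Lib.MP_6ff8d9_an.N2

open Pool.Agent.Lib.MP_6ff8d9_an Pool.Agent.Lib.MP_6ff8d9_an.H22

noncomputable section

lemma grp_diag_mulVec (t : Fin 3 → ℝ) (Z : Fin 3 → ℂ) (c : ℂ) :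
    grp (Matrix.diagonal (fun i => (t i : ℂ))) c *ᵥ Z = fun i => Complex.exp (c * t i) * Z i := by
  rw [grp, ← Matrix.diagonal_smul, Matrix.exp_diagonal, exp_fun3]
  funext i
  rw [Matrix.mulVec_diagonal]
  rfl

theorem tact : TACT := by
  intro t z s
  unfold act
  rw [grp_diag_mulVec]
  have h0 : Complex.exp ((s : ℂ) * Complex.I * t 0) ≠ 0 := Complex.exp_ne_zero _
  funext i
  fin_cases i
  · show Complex.exp (s * Complex.I * t 1) * z 0 / (Complex.exp (s * Complex.I * t 0) * 1) =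
      Complex.exp (s * (t 1 - t 0 : ℝ) * Complex.I) * z 0
    have e : Complex.exp (s * Complex.I * t 1) =
        Complex.exp (s * (t 1 - t 0 : ℝ) * Complex.I) * Complex.exp (s * Complex.I * t 0) := by
      rw [← Complex.exp_add]
      congr 1
      push_cast; ring
    rw [mul_one, div_eq_iff h0, e]
    ring
  · show Complex.exp (s * Complex.I * t 2) * z 1 / (Complex.exp (s * Complex.I * t 0) * 1) =
      Complex.exp (s * (t 2 - t 0 : ℝ) * Complex.I) * z 1
    have e : Complex.exp (s * Complex.I * t 2) =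
        Complex.exp (s * (t 2 - t 0 : ℝ) * Complex.I) * Complex.exp (s * Complex.I * t 0) := by
      rw [← Complex.exp_add]
      congr 1
      push_cast; ring
    rw [mul_one, div_eq_iff h0, e]
    ring

lemma J3_mul_J3 : J3 * J3 = (1 : Matrix (Fin 3) (Fin 3) ℂ) := by
  rw [J3, Matrix.diagonal_mul_diagonal]
  ext i j
  fin_cases i <;> fin_cases j <;> simp

lemma J3_isUnit : IsUnit J3 := ⟨⟨J3, J3, J3_mul_J3, J3_mul_J3⟩, rfl⟩

lemma J3_inv : J3⁻¹ = J3 := Matrix.inv_eq_right_inv J3_mul_J3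

/-- the one-parameter group of a selfadjoint matrix is in `U(2,1)` -/
theorem grp_JU {T : Matrix (Fin 3) (Fin 3) ℂ} (hT : dag T = T) (s : ℝ) :
    JU (grp T (s * Complex.I)) := by
  have h1 : Tᴴ = J3 * T * J3⁻¹ := by
    rw [J3_inv]
    have h2 : J3 * (J3 * Tᴴ * J3) * J3 = Tᴴ := by
      calc J3 * (J3 * Tᴴ * J3) * J3 = (J3 * J3) * Tᴴ * (J3 * J3) := by
            simp only [Matrix.mul_assoc]
        _ = Tᴴ := by rw [J3_mul_J3, Matrix.one_mul, Matrix.mul_one]
    rw [← h2]
    congr 1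
    congr 1
  have h3 : (grp T (s * Complex.I))ᴴ = J3 * grp T (-(s * Complex.I)) * J3⁻¹ := by
    rw [grp, grp, ← Matrix.exp_conjTranspose, Matrix.conjTranspose_smul, h1,
      ← Matrix.exp_conj _ _ J3_isUnit]
    congr 1
    have h4 : star ((s : ℂ) * Complex.I) = -(s * Complex.I) := by
      rw [Complex.star_def, map_mul, Complex.conj_ofReal, Complex.conj_I, mul_neg]
    rw [h4, Matrix.mul_smul, Matrix.smul_mul]
  have h5 : grp T (-(s * Complex.I)) * grp T (s * Complex.I) = 1 := by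
    rw [grp, grp, ← Matrix.exp_add_of_commute _ _ (by
      exact ((Commute.refl T).smul_left _).smul_right _), ← add_smul, neg_add_cancel, zero_smul,
      NormedSpace.exp_zero]
  show (grp T (s * Complex.I))ᴴ * J3 * grp T (s * Complex.I) = J3
  rw [h3, J3_inv]
  calc J3 * grp T (-(s * Complex.I)) * J3 * J3 * grp T (s * Complex.I)
      = J3 * (grp T (-(s * Complex.I)) * (J3 * J3) * grp T (s * Complex.I)) := by
        simp only [Matrix.mul_assoc]
    _ = J3 := by rw [J3_mul_J3, Matrix.mul_one, h5, Matrix.mul_one]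

lemma exp_smul_one (c : ℂ) : NormedSpace.exp (c • (1 : Matrix (Fin 3) (Fin 3) ℂ)) =
    Complex.exp c • (1 : Matrix (Fin 3) (Fin 3) ℂ) := by
  rw [Matrix.smul_one_eq_diagonal, Matrix.exp_diagonal, exp_fun3, Matrix.smul_one_eq_diagonal]

/-- conjugation of the group -/
theorem grp_conj {T S A : Matrix (Fin 3) (Fin 3) ℂ} {μ : ℂ} (hA : JU A)
    (h : T * A = A * (μ • (1 : Matrix (Fin 3) (Fin 3) ℂ) + S)) (t : ℂ) :
    grp T t * A = Complex.exp (t * μ) • (A * grp S t) := by
  have hu : IsUnit A := (Matrix.isUnit_iff_isUnit_det A).2 hA.isUnit_det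
  have hT : T = A * (μ • (1 : Matrix (Fin 3) (Fin 3) ℂ) + S) * A⁻¹ := by
    rw [← h, Matrix.mul_assoc, hA.mul_inv, Matrix.mul_one]
  have h1 : grp T t = A * grp (μ • (1 : Matrix (Fin 3) (Fin 3) ℂ) + S) t * A⁻¹ := by
    rw [grp, grp, ← Matrix.exp_conj _ _ hu]
    congr 1
    conv_lhs => rw [hT]
    rw [Matrix.mul_smul, Matrix.smul_mul]
  have h2 : grp (μ • (1 : Matrix (Fin 3) (Fin 3) ℂ) + S) t = Complex.exp (t * μ) • grp S t := by
    rw [grp, grp, smul_add, smul_smul, Matrix.exp_add_of_commute _ _ (by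
      exact (Commute.one_left _).smul_left _), exp_smul_one, Matrix.smul_mul, Matrix.one_mul]
  rw [h1, h2, Matrix.mul_assoc, hA.inv_mul, Matrix.mul_one, Matrix.mul_smul]

theorem gcon : GCON := by
  intro T S A μ hA hT h
  refine ⟨fun s => grp_JU hT s, fun z hz' s => ?_⟩
  have hA' : JU A := hA
  have h1 := grp_conj hA' h (s * Complex.I)
  have hne : Complex.exp ((s : ℂ) * Complex.I * μ) ≠ 0 := Complex.exp_ne_zero _
  have h2 : (grp S (s * Complex.I) *ᵥ hz z) 0 ≠ 0 := by
    have h3 : grp S (s * Complex.I) =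
        (Complex.exp ((s : ℂ) * Complex.I * μ))⁻¹ • (A⁻¹ * (grp T (s * Complex.I) * A)) := by
      rw [h1, Matrix.mul_smul, smul_smul, inv_mul_cancel₀ hne, one_smul, ← Matrix.mul_assoc,
        hA'.inv_mul, Matrix.one_mul]
    rw [h3, Matrix.smul_mulVec, Pi.smul_apply, smul_eq_mul]
    exact mul_ne_zero (inv_ne_zero hne)
      ((hA'.inv.mul ((grp_JU hT s).mul hA')).act_mem hz').1
  rw [act_comp _ _ h2, act_comp _ _ (hA'.act_mem hz').1, h1]
  unfold act
  rw [Matrix.smul_mulVec, pr_smul hne]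

end

end Pool.Agent.Lib.MP_6ff8d9_an.N2
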