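import Pool.Agent.Lib.MP_6ff8d9_an_h23.Fin2
import Pool.Agent.Lib.MP_6ff8d9_an_h23.SymTact
import Pool.Agent.Lib.MP_6ff8d9_an_h8.SymC
import Pool.Agent.Lib.MP_6ff8d9_an_h1.SymChi
import Pool.Agent.Lib.MP_6ff8d9_an_h16.SymNf
import Pool.Agent.Lib.MP_6ff8d9_an_h21r.SymKpc
import Pool.Agent.Lib.MP_6ff8d9_an_h22.SymChn
import Pool.Agent.Lib.MP_6ff8d9_an_h46.SymCartan
import Pool.Agent.Lib.MP_6ff8d9_an_h50.SymChh
import Pool.Agent.Lib.MP_6ff8d9_an_h69.SymFl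
import Pool.Agent.Lib.MP_6ff8d9_an_h82.SymFlh
import Pool.Agent.Lib.MP_6ff8d9_an_h11.Nfn2

/-!
# The extreme points of `N(𝔹₂)` with a continuous symmetry
-/

open Metric Filter Topology MvPolynomial Matrix
open scoped ComplexConjugate

namespace Pool.Agent.Lib.MP_6ff8d9_an.N2

open Pool.Agent.Lib.MP_6ff8d9_an Pool.Agent.Lib.MP_6ff8d9_an.H22

theorem finalsym : FINALSYM :=
  final_sym chx chi chh chp chn H82L.flh flp fln kpc axi deg tact gcon dil nfe2 nfb2 nfn2 tor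
    H50M.maxm H50M.mono cartan

end Pool.Agent.Lib.MP_6ff8d9_an.N2
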